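import Pool.Agent.Helper106.VG.C3

/-!
# Vigorous groups: task C8 (C_copy)
-/

set_option autoImplicit false

namespace Pool.Agent.Helper106.VG

open Filter Topology

namespace TC8

open TC3

theorem loc_mono {G : Subgroup Hm} {f : Cn → Cn} {U V : Set Cn} (h : Loc G f V) (hUV : U ⊆ V) :
    Loc G f U := fun x hx => h x (hUV hx)

/-- the data of the copy -/
theorem copy_data (hcomp : B_comp) {G : Subgroup Hm} {n : ℕ} {D : Set Cn} {e : ℕ → Cn → Cn}
    {h : Cn → Cn} {U : Set Cn} (hU : ∀ i < n, e i '' D ⊆ U) (hl : Loc G h U) (hi : Set.InjOn h U)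
    (hd : CycD G n D e) : CycD G n D (fun i => h ∘ e i) := by
  refine ⟨hd.clop, fun i hi' => ?_, fun i hi' => ?_, fun i hi' j hj hij => ?_⟩
  · exact hcomp G (e i) h D (hd.loc i hi') (loc_mono hl (hU i hi'))
  · exact hi.comp (hd.inj i hi') fun x hx => hU i hi' ⟨x, hx, rfl⟩
  · rw [Set.image_comp, Set.image_comp]
    have h1 := hd.disj i hi' j hj hij
    rw [Set.disjoint_left] at h1 ⊢
    rintro y ⟨a, ha, rfl⟩ ⟨b, hb, hab⟩
    have : b = a := hi (hU j hj hb) (hU i hi' ha) hab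
    subst this
    exact h1 ha hb

/-- the cycle with the copied data is a copy -/
theorem copy_cpy {n : ℕ} {D : Set Cn} {e : ℕ → Cn → Cn} {h : Cn → Cn}
    (hi : Function.Injective h) {t t' : Hm} (ht : IsCyc t n D e)
    (ht' : IsCyc t' n D (fun i => h ∘ e i)) : Cpy h t t' := by
  refine ⟨fun z => ?_, fun y hy => ?_⟩
  · by_cases hz : ∃ i < n, z ∈ e i '' D
    · obtain ⟨i, hin, w, hw, rfl⟩ := hz
      have h1 := ht'.mv i hin w hw
      simp only [Function.comp_apply] at h1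
      rw [h1, ht.mv i hin w hw]
    · push Not at hz
      rw [ht.fx z hz, ht'.fx]
      rintro i hin ⟨w, hw, hwz⟩
      exact hz i hin ⟨w, hw, hi hwz⟩
  · refine ht'.fx y ?_
    rintro i hin ⟨w, hw, rfl⟩
    exact hy ⟨e i w, rfl⟩

theorem cpy_mul {h : Cn → Cn} {s t s' t' : Hm} (hs : Cpy h s s') (ht : Cpy h t t') :
    Cpy h (s * t) (s' * t') := by
  refine ⟨fun z => ?_, fun y hy => ?_⟩
  · rw [mul_app, mul_app, ht.1, hs.1]
  · rw [mul_app, ht.2 y hy, hs.2 y hy]

theorem cpy_one {h : Cn → Cn} : Cpy h 1 1 := ⟨fun _ => rfl, fun _ _ => rfl⟩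

theorem cpy_inv {h : Cn → Cn} {s s' : Hm} (hs : Cpy h s s') : Cpy h s⁻¹ s'⁻¹ := by
  refine ⟨fun z => ?_, fun y hy => inv_fix (hs.2 y hy)⟩
  have h1 := hs.1 (s⁻¹ z)
  rw [app_inv] at h1
  rw [← h1, inv_app]

theorem cpy_unique {h : Cn → Cn} {s s' s'' : Hm} (h1 : Cpy h s s') (h2 : Cpy h s s'') :
    s' = s'' := by
  refine Homeomorph.ext fun y => ?_
  by_cases hy : y ∈ Set.range h
  · obtain ⟨z, rfl⟩ := hy
    rw [h1.1, h2.1]
  · rw [h1.2 y hy, h2.2 y hy]

end TC8

open TC3 TC8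

theorem c_copy (hinv : B_inv) (hcomp : B_comp) (hC : C_tri) : C_copy := by
  intro G hv hs h hl hi
  refine ⟨fun t ht => ?_, fun S L hS hL => ?_⟩
  · obtain ⟨D, e, h1, h2, h3⟩ := ht
    have hd : CycD G 3 D (fun i => h ∘ e i) :=
      copy_data hcomp (fun i _ => Set.subset_univ _) hl hi.injOn h1
    obtain ⟨t', ht', hc'⟩ := hC G hv hs D _ hd
    refine ⟨t', ⟨D, _, hd, hc', fun i _ => ?_⟩, copy_cpy hi h2 hc'⟩
    rintro y ⟨w, hw, rfl⟩
    exact ⟨e i w, rfl⟩
  · unfold Alt
    rw [Subgroup.closure_le]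
    rintro t' ⟨D, e', h1, h2, h3⟩
    -- the inverse map
    have hli : Loc G (Function.invFunOn h Set.univ) (h '' Set.univ) :=
      hinv G h Set.univ hl isClopen_univ hi.injOn
    have hr : h '' Set.univ = Set.range h := Set.image_univ
    rw [hr] at hli
    have hleft : ∀ z, Function.invFunOn h Set.univ (h z) = z := by
      intro z
      exact hi (Function.invFunOn_eq ⟨z, Set.mem_univ z, rfl⟩)
    have hright : ∀ y ∈ Set.range h, h (Function.invFunOn h Set.univ y) = y := by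
      rintro y ⟨z, rfl⟩
      rw [hleft]
    have hinj : Set.InjOn (Function.invFunOn h Set.univ) (Set.range h) := by
      rintro _ ⟨a, rfl⟩ _ ⟨b, rfl⟩ hab
      rw [hleft, hleft] at hab
      rw [hab]
    have hd : CycD G 3 D (fun i => Function.invFunOn h Set.univ ∘ e' i) :=
      copy_data hcomp h3 hli hinj h1
    obtain ⟨t, ht, hc⟩ := hC G hv hs D _ hd
    -- `t'` is the copy of `t`
    have hc' : IsCyc t' 3 D (fun i => h ∘ (Function.invFunOn h Set.univ ∘ e' i)) := by
      have he : ∀ i < 3, ∀ z ∈ D, (h ∘ (Function.invFunOn h Set.univ ∘ e' i)) z = e' i z := by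
        intro i hi3 z hz
        simp only [Function.comp_apply]
        exact hright _ (h3 i hi3 ⟨z, hz, rfl⟩)
      refine ⟨fun i hi3 z hz => ?_, fun y hy => ?_⟩
      · rw [he i hi3 z hz, he ((i + 1) % 3) (Nat.mod_lt _ (by norm_num)) z hz]
        exact h2.mv i hi3 z hz
      · refine h2.fx y fun i hi3 hy' => hy i hi3 ?_
        obtain ⟨z, hz, rfl⟩ := hy'
        exact ⟨z, hz, he i hi3 z hz⟩
    have hcpy : Cpy h t t' := copy_cpy hi hc hc'
    -- all elements of `G` have a copy in `L`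
    have hall : ∀ s ∈ Subgroup.closure S, ∃ s' ∈ L, Cpy h s s' := by
      intro s hs'
      induction hs' using Subgroup.closure_induction with
      | mem s hs' => exact hL s hs'
      | one => exact ⟨1, L.one_mem, cpy_one⟩
      | mul a b _ _ ha hb =>
        obtain ⟨a', ha', hca⟩ := ha
        obtain ⟨b', hb', hcb⟩ := hb
        exact ⟨a' * b', L.mul_mem ha' hb', cpy_mul hca hcb⟩
      | inv a _ ha =>
        obtain ⟨a', ha', hca⟩ := ha
        exact ⟨a'⁻¹, L.inv_mem ha', cpy_inv hca⟩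
    rw [hS] at hall
    obtain ⟨s', hs', hcs⟩ := hall t ht
    have : t' = s' := cpy_unique hcpy hcs
    change t' ∈ L
    rw [this]
    exact hs'

end Pool.Agent.Helper106.VG
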