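import Pool.Agent.Helper106.VG.Stmts

set_option autoImplicit false

namespace Pool.Agent.Helper106.VG

open Filter Topology

namespace TE2

theorem mul_app (g h : Hm) (x : Cn) : (g * h) x = g (h x) := rfl

theorem one_app (x : Cn) : (1 : Hm) x = x := rfl

theorem inv_app_self (g : Hm) (x : Cn) : g⁻¹ (g x) = x := g.symm_apply_apply x

theorem app_inv_self (g : Hm) (x : Cn) : g (g⁻¹ x) = x := g.apply_symm_apply x

theorem clopen_img (g : Hm) {A : Set Cn} (h : IsClopen A) : IsClopen (g '' A) :=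
  ⟨g.isClosed_image.2 h.1, g.isOpen_image.2 h.2⟩

theorem img_mul (g h : Hm) (A : Set Cn) : (g * h : Hm) '' A = g '' (h '' A) :=
  Set.image_comp g h A

theorem img_one (A : Set Cn) : (1 : Hm) '' A = A := Set.image_id A

theorem mem_img_iff (g : Hm) (A : Set Cn) (x : Cn) : x ∈ g '' A ↔ g⁻¹ x ∈ A := by
  constructor
  · rintro ⟨y, hy, rfl⟩
    rwa [inv_app_self]
  · intro h
    exact ⟨g⁻¹ x, h, app_inv_self g x⟩

theorem cm_eq (P : Set Cn) (a b T S : Hm) (hT : ∀ w, w ∉ P → T w = w) (hS : ∀ w, w ∉ P → S w = w)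
    (ha : ∀ w ∈ P, a w = T w) (hb : ∀ w ∈ P, b w = S w) (hd : ∀ w, w ∉ P → a w = w ∨ b w = w) :
    cm a b = cm T S := by
  have fwd : ∀ T : Hm, (∀ w, w ∉ P → T w = w) → ∀ w ∈ P, T w ∈ P := by
    intro T hT w hw
    by_contra h
    have h1 := hT _ h
    have h2 : T w = w := T.injective h1
    rw [h2] at h
    exact h hw
  have bwd : ∀ T : Hm, (∀ w, w ∉ P → T w = w) → ∀ w ∈ P, T⁻¹ w ∈ P := by
    intro T hT w hw
    by_contra h
    have h1 := hT _ h
    rw [app_inv_self] at h1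
    rw [← h1] at h
    exact h hw
  have pres : ∀ a T : Hm, (∀ w, w ∉ P → T w = w) → (∀ w ∈ P, a w = T w) →
      ∀ w, w ∉ P → a w ∉ P := by
    intro a T hT ha w hw h
    have h1 := bwd T hT _ h
    have h2 := ha _ h1
    rw [app_inv_self] at h2
    have h3 := a.injective h2
    rw [h3] at h1
    exact hw h1
  have comm : ∀ w, w ∉ P → a (b w) = b (a w) := by
    intro w hw
    by_cases h1 : a w = w
    · by_cases h2 : b w = w
      · rw [h2, h1, h2]
      · rcases hd _ (pres b S hS hb w hw) with h3 | h3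
        · rw [h3, h1]
        · exact absurd (b.injective h3) h2
    · have h2 : b w = w := (hd w hw).resolve_left h1
      rcases hd _ (pres a T hT ha w hw) with h3 | h3
      · exact absurd (a.injective h3) h1
      · rw [h2, h3]
  ext1 y
  obtain ⟨w, rfl⟩ : ∃ w, y = b (a w) := ⟨a⁻¹ (b⁻¹ y), by rw [app_inv_self, app_inv_self]⟩
  have e1 : cm a b (b (a w)) = a (b w) := by
    show a (b (a⁻¹ (b⁻¹ (b (a w))))) = _
    rw [inv_app_self, inv_app_self]
  rw [e1]
  by_cases hw : w ∈ P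
  · have h1 : b (a w) = S (T w) := by rw [ha w hw, hb _ (fwd T hT w hw)]
    have h2 : a (b w) = T (S w) := by rw [hb w hw, ha _ (fwd S hS w hw)]
    rw [h1, h2]
    show _ = T (S (T⁻¹ (S⁻¹ (S (T w)))))
    rw [inv_app_self, inv_app_self]
  · rw [comm w hw]
    have h3 : b (a w) ∉ P := pres b S hS hb _ (pres a T hT ha w hw)
    have hT' : T⁻¹ (b (a w)) = b (a w) := by
      have := inv_app_self T (b (a w))
      rwa [hT _ h3] at this
    have hS' : S⁻¹ (b (a w)) = b (a w) := by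
      have := inv_app_self S (b (a w))
      rwa [hS _ h3] at this
    show _ = T (S (T⁻¹ (S⁻¹ (b (a w)))))
    rw [hS', hT', hS _ h3, hT _ h3]

theorem im_add (z : Hm) (m n : ℕ) (A : Set Cn) : im z (m + n) A = (z ^ m : Hm) '' im z n A := by
  unfold im
  rw [pow_add, img_mul]

section

variable {G : Subgroup Hm} {k c0 c1 n0 n1 : ℕ} {z0 z1 δ x0 y0 : Hm} {E Q R F : Set Cn}

theorem F_split (hD : Design G k c0 c1 n0 n1 z0 z1 δ x0 y0 E Q R F) (m : ℕ) (w : Cn)
    (hw : w ∈ im z1 m F) : w ∈ im z1 m E ∨ w ∈ im z1 (m + 1) Q := by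
  obtain ⟨f, hf, rfl⟩ := hw
  rw [hD.F_eq] at hf
  rcases hf with hf | ⟨q, hq, rfl⟩
  · exact Or.inl ⟨f, hf, rfl⟩
  · refine Or.inr ⟨q, hq, ?_⟩
    rw [pow_succ]
    rfl

theorem im_mono (z : Hm) (m : ℕ) {A B : Set Cn} (h : A ⊆ B) : im z m A ⊆ im z m B :=
  Set.image_mono h

theorem F_split' (hD : Design G k c0 c1 n0 n1 z0 z1 δ x0 y0 E Q R F) (m : ℕ) (w : Cn)
    (hw : w ∈ im z1 m F) : w ∈ im z1 m E ∨ w ∈ im z1 (m + 1) E :=
  (F_split hD m w hw).imp id fun h => im_mono z1 (m + 1) hD.QE h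

theorem F_disj (hD : Design G k c0 c1 n0 n1 z0 z1 δ x0 y0 E Q R F) {p q : ℕ} (hpq : p ≠ q)
    (hp : 2 * p + 1 < c1) (hq : 2 * q + 1 < c1) :
    ∀ w, w ∈ im z1 (2 * p) F → w ∈ im z1 (2 * q) F → False := by
  intro w h1 h2
  have key : ∀ i j, i < c1 → j < c1 → i ≠ j → w ∈ im z1 i E → w ∈ im z1 j E → False :=
    fun i j hi hj hij ha hb => Set.disjoint_left.1 (hD.disj1 i hi j hj hij) ha hb
  rcases F_split' hD _ _ h1 with h1 | h1 <;> rcases F_split' hD _ _ h2 with h2 | h2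
  · exact key _ _ (by omega) (by omega) (by omega) h1 h2
  · exact key _ _ (by omega) (by omega) (by omega) h1 h2
  · exact key _ _ (by omega) (by omega) (by omega) h1 h2
  · exact key _ _ (by omega) (by omega) (by omega) h1 h2

theorem clF (hD : Design G k c0 c1 n0 n1 z0 z1 δ x0 y0 E Q R F) : IsClopen F := by
  rw [hD.F_eq]
  exact hD.clE.union (clopen_img z1 hD.clQ)

theorem one_cm (hsupp : C_supp) (hdiag : E_diag) (hpow : E_pow) (hG : Vigorous G)
    (hS : IsSimpleGroup G) (hD : Design G k c0 c1 n0 n1 z0 z1 δ x0 y0 E Q R F) (α : Hm)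
    (hα : α ∈ G) (J : Set ℕ) (hJ : J.Nonempty) (hA : Adm k c0 c1 z0 z1 δ R F α J)
    (t s : Hm) (ht : t ∈ Alt G F) (hs : s ∈ Alt G F) :
    cm t s ∈ Subgroup.closure {α, z0 * z1} := by
  obtain ⟨-, hz1⟩ := hpow G k c0 c1 n0 n1 z0 z1 δ x0 y0 E Q R F hD
  have hz1L : z1 ∈ Subgroup.closure {α, z0 * z1} :=
    Subgroup.closure_mono (by intro x hx; rw [hx]; simp) hz1
  have hfin : J.Finite := (Set.finite_lt_nat k).subset fun j hj => hA.1 j hj
  obtain ⟨l, hl, hlmax⟩ := Set.exists_max_image J id hfin hJ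
  obtain ⟨i, hi, himin⟩ := Set.exists_min_image J id hfin hJ
  simp only [id] at hlmax himin
  have hil : i ≤ l := himin l hl
  obtain ⟨a, haL, ha1, ha2⟩ :=
    hdiag G hG hS k c0 c1 n0 n1 z0 z1 δ x0 y0 E Q R F hD α hα J hA t ht
  obtain ⟨b', hbL, hb1, hb2⟩ :=
    hdiag G hG hS k c0 c1 n0 n1 z0 z1 δ x0 y0 E Q R F hD α hα J hA s hs
  set g : Hm := z1 ^ (2 * (l - i)) with hg
  have hgi : g * z1 ^ (2 * i) = z1 ^ (2 * l) := by
    rw [hg, ← pow_add]
    congr 1
    omega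
  have hgL : g ∈ Subgroup.closure {α, z0 * z1} := Subgroup.pow_mem _ hz1L _
  set b : Hm := g * b' * g⁻¹ with hb
  have hbL' : b ∈ Subgroup.closure {α, z0 * z1} :=
    Subgroup.mul_mem _ (Subgroup.mul_mem _ hgL hbL) (Subgroup.inv_mem _ hgL)
  have key : cm a b = cm (z1 ^ (2 * l) * t * (z1 ^ (2 * l))⁻¹) (z1 ^ (2 * l) * s * (z1 ^ (2 * l))⁻¹) := by
    have hfix : ∀ t : Hm, t ∈ Alt G F → ∀ w, w ∉ im z1 (2 * l) F →
        (z1 ^ (2 * l) * t * (z1 ^ (2 * l))⁻¹ : Hm) w = w := by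
      intro t ht w hw
      have h1 : (z1 ^ (2 * l) : Hm)⁻¹ w ∉ F := by
        intro h
        exact hw ((mem_img_iff _ _ _).2 h)
      show (z1 ^ (2 * l) : Hm) (t ((z1 ^ (2 * l) : Hm)⁻¹ w)) = w
      rw [hsupp G F t ht _ h1, app_inv_self]
    refine cm_eq (im z1 (2 * l) F) a b _ _ (hfix t ht) (hfix s hs) (ha1 l hl) ?_ ?_
    · intro w hw
      have h1 : (z1 ^ (2 * l) : Hm)⁻¹ w ∈ F := (mem_img_iff _ _ _).1 hw
      have h2 : (z1 ^ (2 * i) : Hm)⁻¹ (g⁻¹ w) ∈ F := by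
        have : (z1 ^ (2 * i) : Hm)⁻¹ (g⁻¹ w) = (z1 ^ (2 * l) : Hm)⁻¹ w := by
          rw [← hgi, mul_inv_rev]
          rfl
        rwa [this]
      have h3 := hb1 i hi (g⁻¹ w) ((mem_img_iff _ _ _).2 h2)
      show g (b' (g⁻¹ w)) = _
      rw [h3, ← mul_app, ← mul_app]
      congr 1
      rw [← hgi]
      group
    · intro w hw
      by_contra hcon
      push Not at hcon
      obtain ⟨c1', c2⟩ := hcon
      have e1 : ∃ j ∈ J, w ∈ im z1 (2 * j) F := by
        by_contra h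
        push Not at h
        exact c1' (ha2 w h)
      have e2 : ∃ j ∈ J, g⁻¹ w ∈ im z1 (2 * j) F := by
        by_contra h
        push Not at h
        apply c2
        show g (b' (g⁻¹ w)) = w
        rw [hb2 _ h, app_inv_self]
      obtain ⟨j, hj, hwj⟩ := e1
      obtain ⟨j', hj', hwj'⟩ := e2
      have hwj2 : w ∈ im z1 (2 * (j' + (l - i))) F := by
        rw [show 2 * (j' + (l - i)) = 2 * (l - i) + 2 * j' by ring, im_add]
        exact (mem_img_iff _ _ _).2 hwj'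
      have hjk := hA.1 j hj
      have hjk' := hA.1 j' hj'
      have hlk := hA.1 l hl
      have hjl := hlmax j hj
      have hij := himin j' hj'
      have hc1 := hD.c1k
      by_cases hc : j = j' + (l - i)
      · have : j = l := by omega
        rw [this] at hwj
        exact hw hwj
      · exact F_disj hD hc (by omega) (by omega) w hwj hwj2
  have hkey : cm t s = (z1 ^ (2 * l))⁻¹ * cm a b * z1 ^ (2 * l) := by
    rw [key]
    unfold cm
    group
  rw [hkey]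
  have hzl : z1 ^ (2 * l) ∈ Subgroup.closure {α, z0 * z1} := Subgroup.pow_mem _ hz1L _
  refine Subgroup.mul_mem _ (Subgroup.mul_mem _ (Subgroup.inv_mem _ hzl) ?_) hzl
  unfold cm
  exact Subgroup.mul_mem _ (Subgroup.mul_mem _ (Subgroup.mul_mem _ haL hbL')
    (Subgroup.inv_mem _ haL)) (Subgroup.inv_mem _ hbL')

theorem Alt_mono {A B : Set Cn} (h : A ⊆ B) : Alt G A ≤ Alt G B := by
  refine Subgroup.closure_mono ?_
  rintro t ⟨D, e, h1, h2, h3⟩
  exact ⟨D, e, h1, h2, fun i hi => (h3 i hi).trans h⟩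

theorem conjL (hconj : C_conj) (L : Subgroup Hm) (A : Set Cn) (hA : Alt G A ≤ L) (g : Hm)
    (hg : g ∈ G) (hgL : g ∈ L) : Alt G (g '' A) ≤ L := by
  intro t ht
  have h1 := hconj G (g '' A) g⁻¹ t (G.inv_mem hg) ht
  have h2 : (g⁻¹ : Hm) '' (g '' A) = A := by
    rw [← img_mul, inv_mul_cancel, img_one]
  rw [h2] at h1
  have h3 := hA h1
  have h4 : t = g * (g⁻¹ * t * g⁻¹⁻¹) * g⁻¹ := by group
  rw [h4]
  exact L.mul_mem (L.mul_mem hgL h3) (L.inv_mem hgL)

end

end TE2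

open TE2

theorem e_one (hsupp : C_supp) (hperf : C_perf) (hpow : E_pow) (hdiag : E_diag) : E_one := by
  intro G hG hS k c0 c1 n0 n1 z0 z1 δ x0 y0 E Q R F hD α hα J hJ hA
  refine (hperf G hG hS F (clF hD)).trans ?_
  rw [Subgroup.closure_le]
  rintro r ⟨s, hs, t, ht, rfl⟩
  exact one_cm hsupp hdiag hpow hG hS hD α hα J hJ hA s t (Subgroup.subset_closure hs)
    (Subgroup.subset_closure ht)

theorem e_link (hunion : C_union) (hconj : C_conj) (htop : C_top) (hpow : E_pow) : E_link := by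
  intro G hG hS k c0 c1 n0 n1 z0 z1 δ x0 y0 E Q R F hD α hα J hJ hA hL
  obtain ⟨hz0, hz1⟩ := hpow G k c0 c1 n0 n1 z0 z1 δ x0 y0 E Q R F hD
  have hz1L : z1 ∈ Subgroup.closure {α, z0 * z1} :=
    Subgroup.closure_mono (by intro x hx; rw [hx]; simp) hz1
  have hz0L : z0 ∈ Subgroup.closure {α, z0 * z1} :=
    Subgroup.closure_mono (by intro x hx; rw [hx]; simp) hz0
  have hαL : α ∈ Subgroup.closure {α, z0 * z1} := Subgroup.subset_closure (by simp)
  set L := Subgroup.closure {α, z0 * z1} with hLdef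
  have hc1 := hD.c1k
  have hF := clF hD
  -- conjugates of Alt F
  have h1 : ∀ m, Alt G (im z1 m F) ≤ L := fun m =>
    conjL hconj L F hL (z1 ^ m) (G.pow_mem hD.z1G m) (L.pow_mem hz1L m)
  have clim : ∀ m, IsClopen (im z1 m F) := fun m => clopen_img _ hF
  -- the union
  have h2 : ∀ n, IsClopen (⋃ m < n + 1, im z1 m F) ∧ Alt G (⋃ m < n + 1, im z1 m F) ≤ L := by
    intro n
    induction n with
    | zero =>
      have : (⋃ m < 0 + 1, im z1 m F) = im z1 0 F := by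
        ext x
        simp
      rw [this]
      exact ⟨clim 0, h1 0⟩
    | succ n ih =>
      have hu : (⋃ m < n + 1 + 1, im z1 m F) = (⋃ m < n + 1, im z1 m F) ∪ im z1 (n + 1) F := by
        ext x
        simp only [Set.mem_iUnion, Set.mem_union, exists_prop]
        constructor
        · rintro ⟨m, hm, hx⟩
          rcases Nat.lt_succ_iff_lt_or_eq.1 hm with hm | rfl
          · exact Or.inl ⟨m, hm, hx⟩
          · exact Or.inr hx
        · rintro (⟨m, hm, hx⟩ | hx)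
          · exact ⟨m, by omega, hx⟩
          · exact ⟨n + 1, by omega, hx⟩
      rw [hu]
      refine ⟨ih.1.union (clim _), (hunion G hG hS _ _ ih.1 (clim _) ?_).trans
        (sup_le ih.2 (h1 _))⟩
      obtain ⟨q, hq⟩ := hD.Qne
      refine ⟨(z1 ^ (n + 1) : Hm) q, ?_, q, ?_, rfl⟩
      · simp only [Set.mem_iUnion, exists_prop]
        refine ⟨n, by omega, z1 q, ?_, ?_⟩
        · rw [hD.F_eq]
          exact Or.inr ⟨q, hq, rfl⟩
        · rw [pow_succ]
          rfl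
      · rw [hD.F_eq]
        exact Or.inl (hD.QE hq)
  set Es : Set Cn := ⋃ m < c1, im z1 m E with hEs
  have hEsL : Alt G Es ≤ L := by
    refine (Alt_mono ?_).trans (h2 c1).2
    intro x hx
    simp only [hEs, Set.mem_iUnion, exists_prop] at hx ⊢
    obtain ⟨m, hm, hx⟩ := hx
    refine ⟨m, by omega, im_mono z1 m ?_ hx⟩
    rw [hD.F_eq]
    exact Set.subset_union_left
  have hEscl : IsClopen Es := by
    rw [hEs]
    refine Set.Finite.isClopen_biUnion (Set.finite_lt_nat c1) fun m _ => ?_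
    exact clopen_img _ hD.clE
  have hEmem : ∀ m < c1, im z1 m E ⊆ Es := by
    intro m hm x hx
    rw [hEs]
    simp only [Set.mem_iUnion, exists_prop]
    exact ⟨m, hm, hx⟩
  -- α⁻¹ Es
  have hαEs : Alt G ((α⁻¹ : Hm) '' Es) ≤ L :=
    conjL hconj L Es hEsL α⁻¹ (G.inv_mem hα) (L.inv_mem hαL)
  have hmeet : (Es ∩ (α⁻¹ : Hm) '' Es).Nonempty := by
    obtain ⟨r, hr⟩ := hD.Rne
    have hw1 : (z1 ^ 1 : Hm) r ∈ im z1 1 R := ⟨r, hr, rfl⟩
    have hw1E : (z1 ^ 1 : Hm) r ∈ im z1 1 E := im_mono z1 1 hD.RE hw1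
    set w := (z1 ^ 1 : Hm) r with hw
    refine ⟨α⁻¹ w, ?_, w, hEmem 1 (by omega) hw1E, rfl⟩
    rcases hD.cover (α⁻¹ w) with ⟨j, hj, hx⟩ | ⟨m, hm, hx⟩
    · exfalso
      by_cases hjJ : j ∈ J
      · have h3 := hA.2.1 j hjJ _ hx
        rw [app_inv_self] at h3
        obtain ⟨y, ⟨f, hf, rfl⟩, hy⟩ := hx
        rw [← hy] at h3
        have h4 : w = (z1 ^ (2 * j) : Hm) f := by
          rw [h3]
          show (z1 ^ (2 * j) : Hm) (δ⁻¹ ((z0 ^ j : Hm)⁻¹ ((z0 ^ j : Hm) (δ f)))) = _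
          rw [inv_app_self, inv_app_self]
        have h5 : w ∈ im z1 (2 * j) F := ⟨f, hf, h4.symm⟩
        have hjk := hA.1 j hjJ
        rcases F_split hD _ _ h5 with h6 | h6
        · exact Set.disjoint_left.1 (hD.disj1 1 (by omega) (2 * j) (by omega) (by omega)) hw1E h6
        · by_cases hj0 : j = 0
          · subst hj0
            obtain ⟨q, hq, hqw⟩ := h6
            have h7 : q = r := (z1 ^ 1 : Hm).injective hqw
            rw [h7] at hq
            exact Set.disjoint_left.1 hD.QR hq hr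
          · exact Set.disjoint_left.1 (hD.disj1 1 (by omega) (2 * j + 1) (by omega) (by omega))
              hw1E (im_mono z1 _ hD.QE h6)
      · have h3 := hA.2.2 j hj hjJ 1 (by omega)
        refine Set.disjoint_left.1 h3 ?_ hw1
        exact ⟨α⁻¹ w, hx, app_inv_self α w⟩
    · exact hEmem m hm hx
  have h3 : Alt G (Es ∪ (α⁻¹ : Hm) '' Es) ≤ L :=
    (hunion G hG hS _ _ hEscl (clopen_img _ hEscl) hmeet).trans (sup_le hEsL hαEs)
  obtain ⟨j0, hj0⟩ := hJ
  have hj0k := hA.1 j0 hj0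
  have hDj : im z0 j0 (δ '' F) ⊆ (α⁻¹ : Hm) '' Es := by
    intro x hx
    have h4 := hA.2.1 j0 hj0 x hx
    refine ⟨α x, ?_, inv_app_self α x⟩
    obtain ⟨y, ⟨f, hf, rfl⟩, hy⟩ := hx
    rw [h4, ← hy]
    have h5 : (z1 ^ (2 * j0) * δ⁻¹ * (z0 ^ j0)⁻¹ : Hm) ((z0 ^ j0 : Hm) (δ f)) =
        (z1 ^ (2 * j0) : Hm) f := by
      show (z1 ^ (2 * j0) : Hm) (δ⁻¹ ((z0 ^ j0 : Hm)⁻¹ ((z0 ^ j0 : Hm) (δ f)))) = _
      rw [inv_app_self, inv_app_self]
    rw [h5]
    have h6 : (z1 ^ (2 * j0) : Hm) f ∈ im z1 (2 * j0) F := ⟨f, hf, rfl⟩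
    rcases F_split' hD _ _ h6 with h7 | h7
    · exact hEmem _ (by omega) h7
    · exact hEmem _ (by omega) h7
  have h4 : Alt G (Es ∪ im z0 j0 (δ '' F)) ≤ L :=
    (Alt_mono (Set.union_subset_union_right _ hDj)).trans h3
  have hz0Es : ∀ x ∈ Es, z0 x = x := by
    intro x hx
    rw [hEs] at hx
    simp only [Set.mem_iUnion, exists_prop] at hx
    obtain ⟨m, hm, hx⟩ := hx
    exact hD.z0fix m hm x hx
  have hz0pow : ∀ n, ∀ x ∈ Es, (z0 ^ n : Hm) x = x := by
    intro n x hx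
    induction n with
    | zero => rfl
    | succ n ih =>
      rw [pow_succ]
      show (z0 ^ n : Hm) (z0 x) = x
      rw [hz0Es x hx, ih]
  have hz0inv : ∀ n, ∀ x ∈ Es, (z0 ^ n : Hm)⁻¹ x = x := by
    intro n x hx
    have := inv_app_self (z0 ^ n : Hm) x
    rwa [hz0pow n x hx] at this
  have h5 : ∀ j, Alt G (Es ∪ im z0 j (δ '' F)) ≤ L := by
    intro j
    have hgG : (z0 ^ j * (z0 ^ j0)⁻¹ : Hm) ∈ G :=
      G.mul_mem (G.pow_mem hD.z0G _) (G.inv_mem (G.pow_mem hD.z0G _))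
    have hgL : (z0 ^ j * (z0 ^ j0)⁻¹ : Hm) ∈ L :=
      L.mul_mem (L.pow_mem hz0L _) (L.inv_mem (L.pow_mem hz0L _))
    have h6 := conjL hconj L _ h4 _ hgG hgL
    have h7 : (z0 ^ j * (z0 ^ j0)⁻¹ : Hm) '' (Es ∪ im z0 j0 (δ '' F)) =
        Es ∪ im z0 j (δ '' F) := by
      rw [Set.image_union]
      congr 1
      · ext x
        constructor
        · rintro ⟨y, hy, rfl⟩
          have : (z0 ^ j * (z0 ^ j0)⁻¹ : Hm) y = y := by
            rw [mul_app, hz0inv _ y hy, hz0pow _ y hy]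
          rwa [this]
        · intro hx
          refine ⟨x, hx, ?_⟩
          rw [mul_app, hz0inv _ x hx, hz0pow _ x hx]
      · unfold im
        rw [← img_mul, inv_mul_cancel_right]
    rwa [h7] at h6
  have hEsne : Es.Nonempty := by
    obtain ⟨q, hq⟩ := hD.Qne
    refine ⟨q, hEmem 0 (by omega) ⟨q, hD.QE hq, rfl⟩⟩
  have hDcl : ∀ j, IsClopen (im z0 j (δ '' F)) := fun j => clopen_img _ (clopen_img _ hF)
  have h6 : ∀ n, IsClopen (Es ∪ ⋃ j < n, im z0 j (δ '' F)) ∧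
      Alt G (Es ∪ ⋃ j < n, im z0 j (δ '' F)) ≤ L := by
    intro n
    induction n with
    | zero =>
      have : (Es ∪ ⋃ j < 0, im z0 j (δ '' F)) = Es := by simp
      rw [this]
      exact ⟨hEscl, hEsL⟩
    | succ n ih =>
      have hu : (Es ∪ ⋃ j < n + 1, im z0 j (δ '' F)) =
          (Es ∪ ⋃ j < n, im z0 j (δ '' F)) ∪ (Es ∪ im z0 n (δ '' F)) := by
        ext x
        simp only [Set.mem_iUnion, Set.mem_union, exists_prop]
        constructor
        · rintro (hx | ⟨m, hm, hx⟩)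
          · exact Or.inl (Or.inl hx)
          · rcases Nat.lt_succ_iff_lt_or_eq.1 hm with hm | rfl
            · exact Or.inl (Or.inr ⟨m, hm, hx⟩)
            · exact Or.inr (Or.inr hx)
        · rintro ((hx | ⟨m, hm, hx⟩) | (hx | hx))
          · exact Or.inl hx
          · exact Or.inr ⟨m, by omega, hx⟩
          · exact Or.inl hx
          · exact Or.inr ⟨n, by omega, hx⟩
      rw [hu]
      have hc := hEscl.union (hDcl n)
      refine ⟨ih.1.union hc, (hunion G hG hS _ _ ih.1 hc ?_).trans (sup_le ih.2 (h5 n))⟩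
      obtain ⟨x, hx⟩ := hEsne
      exact ⟨x, Or.inl hx, Or.inl hx⟩
  have huniv : (Es ∪ ⋃ j < c0, im z0 j (δ '' F)) = Set.univ := by
    rw [Set.eq_univ_iff_forall]
    intro x
    rcases hD.cover x with ⟨j, hj, hx⟩ | ⟨m, hm, hx⟩
    · refine Or.inr ?_
      simp only [Set.mem_iUnion, exists_prop]
      exact ⟨j, hj, hx⟩
    · exact Or.inl (hEmem m hm hx)
  have h7 := (h6 c0).2
  rw [huniv, htop G hG hS] at h7
  exact h7

end Pool.Agent.Helper106.VG
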