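import Pool.Agent.Helper106.VG.Stmts

/-!
# Vigorous groups, task C1: germs (`C_germ`)
-/

set_option autoImplicit false

namespace Pool.Agent.Helper106.VG

open Filter Topology

namespace TC1

/-- The germ property of a homeomorphism. -/
def GP (G : Subgroup Hm) (g : Hm) : Prop :=
  ∀ (x : Cn) (T : Set Cn), IsClopen T → T.Nonempty →
    ∃ g' ∈ G, (∀ᶠ y in 𝓝 x, g' y = g y) ∧
      ∃ T' ⊆ T, IsClopen T' ∧ T'.Nonempty ∧ ∀ y ∈ T', g' y = y

theorem gp_one (G : Subgroup Hm) : GP G 1 := by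
  intro x T hT hne
  exact ⟨1, G.one_mem, Eventually.of_forall fun _ => rfl, T, subset_rfl, hT, hne, fun _ _ => rfl⟩

/-- two-point version of the product rule -/
theorem mul_at (G : Subgroup Hm) (g1 g2 : Hm) (x : Cn) (T : Set Cn)
    (h2 : ∃ g' ∈ G, (∀ᶠ y in 𝓝 x, g' y = g2 y) ∧
      ∃ T' ⊆ T, IsClopen T' ∧ T'.Nonempty ∧ ∀ y ∈ T', g' y = y)
    (h1 : ∀ T' : Set Cn, IsClopen T' → T'.Nonempty →
      ∃ g' ∈ G, (∀ᶠ y in 𝓝 (g2 x), g' y = g1 y) ∧
      ∃ T'' ⊆ T', IsClopen T'' ∧ T''.Nonempty ∧ ∀ y ∈ T'', g' y = y) :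
    ∃ g' ∈ G, (∀ᶠ y in 𝓝 x, g' y = (g1 * g2) y) ∧
      ∃ T' ⊆ T, IsClopen T' ∧ T'.Nonempty ∧ ∀ y ∈ T', g' y = y := by
  obtain ⟨a2, ha2, he2, T2, hT2, hc2, hn2, hf2⟩ := h2
  obtain ⟨a1, ha1, he1, T1, hT1, hc1, hn1, hf1⟩ := h1 T2 hc2 hn2
  refine ⟨a1 * a2, G.mul_mem ha1 ha2, ?_, T1, hT1.trans hT2, hc1, hn1, ?_⟩
  · have hcont : Tendsto (fun y => g2 y) (𝓝 x) (𝓝 (g2 x)) := g2.continuous.tendsto x
    filter_upwards [he2, hcont.eventually he1] with y hy2 hy1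
    show a1 (a2 y) = g1 (g2 y)
    rw [hy2, hy1]
  · intro y hy
    show a1 (a2 y) = y
    rw [hf2 y (hT1 hy), hf1 y hy]

theorem gp_mul (G : Subgroup Hm) (g1 g2 : Hm) (h1 : GP G g1) (h2 : GP G g2) :
    GP G (g1 * g2) := by
  intro x T hT hne
  exact mul_at G g1 g2 x T (h2 x T hT hne) (fun T' hc hn => h1 (g2 x) T' hc hn)

theorem gp_inv (G : Subgroup Hm) (g : Hm) (h : GP G g) : GP G g⁻¹ := by
  intro x T hT hne
  obtain ⟨a, ha, he, T', hT', hc, hn, hf⟩ := h (g⁻¹ x) T hT hne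
  refine ⟨a⁻¹, G.inv_mem ha, ?_, T', hT', hc, hn, ?_⟩
  · have hcont : Tendsto (fun y => g⁻¹ y) (𝓝 x) (𝓝 (g⁻¹ x)) := (g⁻¹).continuous.tendsto x
    filter_upwards [hcont.eventually he] with y hy
    have h1 : g (g⁻¹ y) = y := g.apply_symm_apply y
    rw [h1] at hy
    show a.symm y = g⁻¹ y
    rw [Homeomorph.symm_apply_eq]
    exact hy.symm
  · intro y hy
    show a.symm y = y
    rw [Homeomorph.symm_apply_eq]
    exact (hf y hy).symm

theorem gp_conj (G : Subgroup Hm) (g k : Hm) (hk : k ∈ G) (h : GP G g) :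
    GP G (k * g * k⁻¹) := by
  intro x T hT hne
  obtain ⟨a, ha, he, T', hT', hc, hn, hf⟩ := h (k⁻¹ x) (k ⁻¹' T) (hT.preimage k.continuous)
    (hne.preimage k.surjective)
  refine ⟨k * a * k⁻¹, G.mul_mem (G.mul_mem hk ha) (G.inv_mem hk), ?_, k '' T', ?_, ?_,
    hn.image _, ?_⟩
  · have hcont : Tendsto (fun y => k⁻¹ y) (𝓝 x) (𝓝 (k⁻¹ x)) := (k⁻¹).continuous.tendsto x
    filter_upwards [hcont.eventually he] with y hy
    show k (a (k⁻¹ y)) = k (g (k⁻¹ y))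
    rw [hy]
  · rintro _ ⟨y, hy, rfl⟩
    exact hT' hy
  · exact ⟨k.isClosed_image.2 hc.1, k.isOpen_image.2 hc.2⟩
  · rintro _ ⟨y, hy, rfl⟩
    show k (a (k.symm (k y))) = k y
    rw [k.symm_apply_apply, hf y hy]

theorem exists_clopen_nhd (x : Cn) (W : Set Cn) (hW : IsOpen W) (hx : x ∈ W) :
    ∃ U, IsClopen U ∧ x ∈ U ∧ U ⊆ W := by
  obtain ⟨U, hU, hxU, hUW⟩ := compact_exists_isClopen_in_isOpen hW hx
  exact ⟨U, hU, hxU, hUW⟩

/-- elements with a nonempty clopen set of fixed points, at a point that is moved -/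
theorem case_one (hroom : A_room) (G : Subgroup Hm) (hv : Vigorous G) (g : Hm) (hg : g ∈ G)
    (Y : Set Cn) (hY : IsClopen Y) (hYn : Y.Nonempty) (hYf : ∀ y ∈ Y, g y = y) (x : Cn)
    (hx : g x ≠ x) (T : Set Cn) (hT : IsClopen T) (hTn : T.Nonempty) :
    ∃ g' ∈ G, (∀ᶠ y in 𝓝 x, g' y = g y) ∧
      ∃ T' ⊆ T, IsClopen T' ∧ T'.Nonempty ∧ ∀ y ∈ T', g' y = y := by
  obtain ⟨t, htT, htS, -⟩ := hroom T {x, g x} hT.isOpen hTn (Set.toFinite _)
  have htx : t ≠ x := fun h => htS (by simp [h])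
  have htgx : t ≠ g x := fun h => htS (by simp [h])
  obtain ⟨y0, -, -, Y', hY', hy0, hY'Y, hY't, -⟩ := hroom Y {t} hY.isOpen hYn (Set.toFinite _)
  have htY' : t ∉ Y' := fun h => Set.disjoint_left.1 hY't h rfl
  have hxY : x ∉ Y := fun h => hx (hYf x h)
  obtain ⟨V1, V2, hV1, hV2, hxV1, hgxV2, hV⟩ := t2_separation (Ne.symm hx)
  obtain ⟨U, hU, hxU, hUW⟩ := exists_clopen_nhd x
    (Yᶜ ∩ V1 ∩ (g ⁻¹' V2) ∩ {t}ᶜ ∩ (g ⁻¹' {t}ᶜ))
    (((((hY.compl.isOpen.inter hV1).inter (hV2.preimage g.continuous)).inter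
      (isClosed_singleton.isOpen_compl)).inter
      ((isClosed_singleton.isOpen_compl).preimage g.continuous)))
    ⟨⟨⟨⟨hxY, hxV1⟩, hgxV2⟩, Ne.symm htx⟩, fun h => htgx h.symm⟩
  have hUY : ∀ u ∈ U, u ∉ Y := fun u hu => (hUW hu).1.1.1.1
  have hUg : ∀ u ∈ U, g u ∉ U := fun u hu h =>
    Set.disjoint_left.1 hV (hUW h).1.1.1.2 (hUW hu).1.1.2
  have htU : t ∉ U := fun h => (hUW h).1.2 rfl
  have htgU : t ∉ g '' U := by
    rintro ⟨u, hu, hut⟩
    exact (hUW hu).2 hut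
  obtain ⟨a, haG, haU, haf⟩ := hv (U ∪ Y') U Y' (hU.union hY') hU hY' ⟨x, hxU⟩ ⟨y0, hy0⟩
    ⟨Set.subset_union_left, fun h => hUY _ (h (Or.inr hy0)) (hY'Y hy0)⟩
    ⟨Set.subset_union_right, fun h => hUY x hxU (hY'Y (h (Or.inl hxU)))⟩
  have hainv : ∀ y, y ∉ U ∪ Y' → a.symm y = y := by
    intro y hy
    rw [Homeomorph.symm_apply_eq]
    exact (haf y hy).symm
  have hginv : ∀ y ∈ Y, g.symm y = y := by
    intro y hy
    rw [Homeomorph.symm_apply_eq]
    exact (hYf y hy).symm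
  refine ⟨g * a⁻¹ * g⁻¹ * a, G.mul_mem (G.mul_mem (G.mul_mem hg (G.inv_mem haG)) (G.inv_mem hg))
    haG, ?_, T \ (U ∪ g '' U ∪ Y'), Set.sdiff_subset, ?_, ⟨t, htT, ?_⟩, ?_⟩
  · filter_upwards [hU.isOpen.mem_nhds hxU] with u hu
    show g (a.symm (g.symm (a u))) = g u
    rw [hginv (a u) (hY'Y (haU ⟨u, hu, rfl⟩)), a.symm_apply_apply]
  · exact hT.diff ((hU.union ⟨g.isClosed_image.2 hU.1, g.isOpen_image.2 hU.2⟩).union hY')
  · rintro ((h | h) | h)
    · exact htU h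
    · exact htgU h
    · exact htY' h
  · rintro y ⟨-, hy⟩
    have hyU : y ∉ U := fun h => hy (Or.inl (Or.inl h))
    have hygU : y ∉ g '' U := fun h => hy (Or.inl (Or.inr h))
    have hyY' : y ∉ Y' := fun h => hy (Or.inr h)
    have h1 : a y = y := haf y (by rintro (h | h); exacts [hyU h, hyY' h])
    have h2 : g.symm y ∉ U ∪ Y' := by
      rintro (h | h)
      · exact hygU ⟨g.symm y, h, g.apply_symm_apply y⟩
      · have h3 : g (g.symm y) = g.symm y := hYf _ (hY'Y h)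
        rw [g.apply_symm_apply] at h3
        rw [← h3] at h
        exact hyY' h
    show g (a.symm (g.symm (a y))) = y
    rw [h1, hainv _ h2, g.apply_symm_apply]

theorem gp_fix (hroom : A_room) (hmove : B_move) (G : Subgroup Hm) (hv : Vigorous G) (g : Hm)
    (hg : g ∈ G) (Y : Set Cn) (hY : IsClopen Y) (hYn : Y.Nonempty) (hYf : ∀ y ∈ Y, g y = y) :
    GP G g := by
  intro x T hT hTn
  by_cases hx : g x = x
  · obtain ⟨y0, -, -, O, hO, hy0, hOY, hOx, -⟩ := hroom Y {x} hY.isOpen hYn (Set.toFinite _)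
    have hxO : x ∉ O := fun h => Set.disjoint_left.1 hOx h rfl
    obtain ⟨c, hc, hcx, hcf⟩ := hmove G hv Oᶜ x hO.compl hxO
    have hcf' : ∀ y ∈ O, c y = y := fun y hy => hcf y (fun h => h hy)
    have hcinv : ∀ y ∈ O, c.symm y = y := by
      intro y hy
      rw [Homeomorph.symm_apply_eq]
      exact (hcf' y hy).symm
    have h := mul_at G (g * c⁻¹) c x T
      (case_one hroom G hv c hc O hO ⟨y0, hy0⟩ hcf' x hcx T hT hTn)
      (fun T' hT' hTn' => case_one hroom G hv (g * c⁻¹) (G.mul_mem hg (G.inv_mem hc)) O hO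
        ⟨y0, hy0⟩ (fun y hy => by
          show g (c.symm y) = y
          rw [hcinv y hy, hYf y (hOY hy)]) (c x) (by
          show g (c.symm (c x)) ≠ c x
          rw [c.symm_apply_apply, hx]
          exact Ne.symm hcx) T' hT' hTn')
    have h3 : g * c⁻¹ * c = g := by group
    rw [h3] at h
    exact h
  · exact case_one hroom G hv g hg Y hY hYn hYf x hx T hT hTn

end TC1

open TC1 in
theorem c_germ (hroom : A_room) (hmove : B_move) : C_germ := by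
  intro G hv hs g hg
  let N : Subgroup G :=
    { carrier := {k : G | GP G (k : Hm)}
      one_mem' := gp_one G
      mul_mem' := fun {a b} ha hb => gp_mul G a b ha hb
      inv_mem' := fun {a} ha => gp_inv G a ha }
  have hN : N.Normal := ⟨fun n hn k => gp_conj G n k k.2 hn⟩
  have hcase := hN.eq_bot_or_eq_top
  have hNt : N = ⊤ := by
    rcases hcase with h | h
    · exfalso
      obtain ⟨y0, -, -, O, hO, hy0, -, hOx, -⟩ := hroom Set.univ {fun _ => true} isOpen_univ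
        ⟨fun _ => true, trivial⟩ (Set.toFinite _)
      have hxO : (fun _ => true : Cn) ∉ O := fun h => Set.disjoint_left.1 hOx h rfl
      obtain ⟨c, hc, hcx, hcf⟩ := hmove G hv Oᶜ (fun _ => true) hO.compl hxO
      have hcN : (⟨c, hc⟩ : G) ∈ N :=
        gp_fix hroom hmove G hv c hc O hO ⟨y0, hy0⟩ (fun y hy => hcf y (fun h => h hy))
      rw [h, Subgroup.mem_bot] at hcN
      have h4 : c = 1 := congrArg Subtype.val hcN
      rw [h4] at hcx
      exact hcx rfl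
    · exact h
  have hgN : (⟨g, hg⟩ : G) ∈ N := by rw [hNt]; exact Subgroup.mem_top _
  exact hgN

end Pool.Agent.Helper106.VG
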