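import Pool.Agent.Helper106.VG.Stmts

/-!
# Vigorous groups: task C3 (C_supp, C_conj, C_top)
-/

set_option autoImplicit false

namespace Pool.Agent.Helper106.VG

open Filter Topology

namespace TC3

theorem mul_app (g h : Hm) (x : Cn) : (g * h) x = g (h x) := rfl

theorem one_app (x : Cn) : (1 : Hm) x = x := rfl

theorem inv_app (g : Hm) (x : Cn) : g⁻¹ (g x) = x := by
  rw [← mul_app, inv_mul_cancel, one_app]

theorem app_inv (g : Hm) (x : Cn) : g (g⁻¹ x) = x := by
  rw [← mul_app, mul_inv_cancel, one_app]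

theorem inv_fix {g : Hm} {x : Cn} (h : g x = x) : g⁻¹ x = x := by
  have := inv_app g x
  rwa [h] at this

/-- a cycle is determined by its data -/
theorem cyc_unique {s t : Hm} {n : ℕ} {D : Set Cn} {e : ℕ → Cn → Cn} (hs : IsCyc s n D e)
    (ht : IsCyc t n D e) : s = t := by
  refine Homeomorph.ext fun y => ?_
  by_cases h : ∃ i < n, y ∈ e i '' D
  · obtain ⟨i, hi, z, hz, rfl⟩ := h
    rw [hs.mv i hi z hz, ht.mv i hi z hz]
  · push Not at h
    rw [hs.fx y h, ht.fx y h]

/-- the data of a conjugate -/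
theorem conj_data {G : Subgroup Hm} {n : ℕ} {D : Set Cn} {e : ℕ → Cn → Cn} {g : Hm} (hg : g ∈ G)
    (h : CycD G n D e) : CycD G n D (fun i => g ∘ e i) := by
  refine ⟨h.clop, fun i hi x hx => ?_, fun i hi => ?_, fun i hi j hj hij => ?_⟩
  · obtain ⟨g0, hg0, h0⟩ := h.loc i hi x hx
    refine ⟨g * g0, G.mul_mem hg hg0, h0.mono fun y hy => ?_⟩
    rw [Function.comp_apply, hy, mul_app]
  · exact g.injective.comp_injOn (h.inj i hi)
  · rw [Set.image_comp, Set.image_comp]
    exact (Set.disjoint_image_iff g.injective).2 (h.disj i hi j hj hij)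

theorem conj_cyc {n : ℕ} {D : Set Cn} {e : ℕ → Cn → Cn} {g t : Hm}
    (h : IsCyc t n D e) : IsCyc (g * t * g⁻¹) n D (fun i => g ∘ e i) := by
  refine ⟨fun i hi z hz => ?_, fun y hy => ?_⟩
  · simp only [Function.comp_apply, mul_app]
    rw [inv_app, h.mv i hi z hz]
  · rw [mul_app, mul_app, h.fx, app_inv]
    intro i hi hy'
    apply hy i hi
    rw [Set.image_comp]
    exact ⟨g⁻¹ y, hy', app_inv g y⟩

theorem conj_tri {G : Subgroup Hm} {A : Set Cn} {g t : Hm} (hg : g ∈ G) (ht : t ∈ TriSet G A) :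
    g * t * g⁻¹ ∈ TriSet G (g '' A) := by
  obtain ⟨D, e, h1, h2, h3⟩ := ht
  refine ⟨D, fun i => g ∘ e i, conj_data hg h1, conj_cyc h2, fun i hi => ?_⟩
  rw [Set.image_comp]
  exact Set.image_mono (h3 i hi)

theorem tri_supp {G : Subgroup Hm} {A : Set Cn} {t : Hm} (ht : t ∈ TriSet G A) {x : Cn}
    (hx : x ∉ A) : t x = x := by
  obtain ⟨D, e, h1, h2, h3⟩ := ht
  exact h2.fx x fun i hi hx' => hx (h3 i hi hx')

/-- the elements of `G` are local -/
theorem loc_mem {G : Subgroup Hm} {g : Hm} (hg : g ∈ G) (U : Set Cn) : Loc G g U :=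
  fun _ _ => ⟨g, hg, Filter.Eventually.of_forall fun _ => rfl⟩

/-- a half of Cantor space -/
def half : Set Cn := {x | x 0 = true}

theorem half_clopen : IsClopen half := by
  have h : half = (fun x : Cn => x 0) ⁻¹' {true} := rfl
  rw [h]
  exact (isClopen_discrete _).preimage (continuous_apply 0)

theorem half_mem : (fun _ => true : Cn) ∈ half := rfl

theorem half_ne : half ≠ Set.univ := by
  intro h
  have : (fun _ => false : Cn) ∈ half := by rw [h]; exact Set.mem_univ _
  exact Bool.false_ne_true this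

/-- there are nontrivial 3-cycles -/
theorem exists_tri (hB : B_small) (hC : C_tri) {G : Subgroup Hm} (hv : Vigorous G)
    (hs : IsSimpleGroup G) : ∃ t ∈ TriSet G Set.univ, t ∈ G ∧ t ≠ 1 := by
  obtain ⟨c, h1, h2, h3, h4⟩ := hB G hv 3 half Set.univ half_clopen half_ne isClopen_univ
    Set.univ_nonempty
  have hd : CycD G 3 half (fun i => c i) :=
    ⟨half_clopen, fun i _ => loc_mem (h1 i) _, fun i _ => (c i).injective.injOn, h3⟩
  obtain ⟨t, ht, htc⟩ := hC G hv hs half (fun i => c i) hd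
  refine ⟨t, ⟨half, fun i => c i, hd, htc, fun i _ => Set.subset_univ _⟩, ht, ?_⟩
  rintro rfl
  have h5 := htc.mv 0 (by norm_num) _ half_mem
  rw [one_app] at h5
  have h6 : ((0 + 1) % 3 : ℕ) = 1 := rfl
  rw [h6] at h5
  have h7 := h3 0 (by norm_num) 1 (by norm_num) (by norm_num)
  rw [Set.disjoint_left] at h7
  exact h7 ⟨_, half_mem, rfl⟩ ⟨_, half_mem, h5.symm⟩

/-- 3-cycles are in the group -/
theorem tri_mem (hC : C_tri) {G : Subgroup Hm} (hv : Vigorous G) (hs : IsSimpleGroup G)
    {A : Set Cn} {t : Hm} (ht : t ∈ TriSet G A) : t ∈ G := by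
  obtain ⟨D, e, h1, h2, h3⟩ := ht
  obtain ⟨t', ht', hc'⟩ := hC G hv hs D e h1
  rw [cyc_unique h2 hc']
  exact ht'

theorem alt_le (hC : C_tri) {G : Subgroup Hm} (hv : Vigorous G) (hs : IsSimpleGroup G)
    (A : Set Cn) : Alt G A ≤ G := by
  unfold Alt
  rw [Subgroup.closure_le]
  exact fun t ht => tri_mem hC hv hs ht

end TC3

open TC3

theorem c_supp : C_supp := by
  intro G A t ht x hx
  unfold Alt at ht
  induction ht using Subgroup.closure_induction with
  | mem t ht => exact tri_supp ht hx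
  | one => rfl
  | mul a b _ _ ha hb => rw [mul_app, hb, ha]
  | inv a _ ha => exact inv_fix ha

theorem c_conj : C_conj := by
  intro G A g t hg ht
  unfold Alt at ht
  induction ht using Subgroup.closure_induction with
  | mem t ht => exact Subgroup.subset_closure (conj_tri hg ht)
  | one =>
    rw [mul_one, mul_inv_cancel]
    exact Subgroup.one_mem _
  | mul a b _ _ ha hb =>
    have e : g * (a * b) * g⁻¹ = (g * a * g⁻¹) * (g * b * g⁻¹) := by group
    rw [e]
    exact Subgroup.mul_mem _ ha hb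
  | inv a _ ha =>
    have e : g * a⁻¹ * g⁻¹ = (g * a * g⁻¹)⁻¹ := by group
    rw [e]
    exact Subgroup.inv_mem _ ha

theorem c_top (hB : B_small) (hC : C_tri) : C_top := by
  intro G hv hs
  refine le_antisymm (alt_le hC hv hs _) ?_
  have hN : ((Alt G Set.univ).subgroupOf G).Normal := by
    refine ⟨fun n hn g => ?_⟩
    rw [Subgroup.mem_subgroupOf] at hn ⊢
    have h1 := c_conj G Set.univ g.1 n.1 g.2 hn
    rw [Set.image_univ_of_surjective g.1.surjective] at h1
    exact h1
  haveI := hs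
  rcases hN.eq_bot_or_eq_top with h | h
  · exfalso
    obtain ⟨t, ht, htG, ht1⟩ := exists_tri hB hC hv hs
    have h1 : (⟨t, htG⟩ : G) ∈ (Alt G Set.univ).subgroupOf G := by
      rw [Subgroup.mem_subgroupOf]
      exact Subgroup.subset_closure ht
    rw [h, Subgroup.mem_bot] at h1
    exact ht1 (congrArg Subtype.val h1)
  · exact Subgroup.subgroupOf_eq_top.1 h

end Pool.Agent.Helper106.VG
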