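import Pool.Agent.Helper106.VG.Stmts

/-!
# Vigorous groups, task C4: extension of local injections (`C_ext`)
-/

set_option autoImplicit false

namespace Pool.Agent.Helper106.VG

open Filter Topology

namespace TC4

theorem loc_hom (G : Subgroup Hm) (c : Hm) (hc : c ∈ G) (U : Set Cn) : Loc G c U :=
  fun _ _ => ⟨c, hc, Eventually.of_forall fun _ => rfl⟩

theorem small_one (hS : B_small) (G : Subgroup Hm) (hv : Vigorous G) (B T : Set Cn)
    (hB : IsClopen B) (hBu : B ≠ Set.univ) (hT : IsClopen T) (hTn : T.Nonempty) :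
    ∃ c ∈ G, c '' B ⊆ T ∧ c '' B ≠ T := by
  obtain ⟨c, hc, hsub, -, hne⟩ := hS G hv 1 B T hB hBu hT hTn
  refine ⟨c 0, hc 0, hsub 0 (by norm_num), fun h => hne ?_⟩
  rw [← h]
  ext y
  simp

/-- disjoint case -/
theorem case_one (hT : C_tri) (hS : B_small) (hI : B_img) (G : Subgroup Hm) (hv : Vigorous G)
    (hs : IsSimpleGroup G) (A Z : Set Cn) (f : Cn → Cn) (hA : IsClopen A) (hZ : IsClopen Z)
    (hZA : Z ⊆ A) (hf : Loc G f Z) (hinj : Set.InjOn f Z) (hfA : f '' Z ⊆ A)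
    (hdis : Disjoint Z (f '' Z)) (hne : (A \ (Z ∪ f '' Z)).Nonempty) :
    ∃ t ∈ Alt G A, ∀ z ∈ Z, t z = f z := by
  have hZ' : IsClopen (f '' Z) := hI G f Z hf hZ
  have hZu : Z ≠ Set.univ := by
    rintro rfl
    obtain ⟨y, -, hy⟩ := hne
    exact hy (Or.inl trivial)
  obtain ⟨c, hc, hcs, -⟩ := small_one hS G hv Z (A \ (Z ∪ f '' Z)) hZ hZu
    (hA.diff (hZ.union hZ')) hne
  let e : ℕ → Cn → Cn := fun i => if i = 0 then id else if i = 1 then f else c
  have he0 : e 0 = id := rfl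
  have he1 : e 1 = f := rfl
  have he2 : e 2 = c := rfl
  have hd02 : Disjoint Z (c '' Z) := by
    rw [Set.disjoint_left]
    intro y hy hy'
    exact (hcs hy').2 (Or.inl hy)
  have hd12 : Disjoint (f '' Z) (c '' Z) := by
    rw [Set.disjoint_left]
    intro y hy hy'
    exact (hcs hy').2 (Or.inr hy)
  have hcyc : CycD G 3 Z e := by
    refine ⟨hZ, ?_, ?_, ?_⟩
    · intro i hi
      interval_cases i
      · rw [he0]; exact fun _ _ => ⟨1, G.one_mem, Eventually.of_forall fun _ => rfl⟩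
      · rw [he1]; exact hf
      · rw [he2]; exact loc_hom G c hc Z
    · intro i hi
      interval_cases i
      · rw [he0]; exact Function.injective_id.injOn
      · rw [he1]; exact hinj
      · rw [he2]; exact c.injective.injOn
    · intro i hi j hj hij
      interval_cases i <;> interval_cases j <;> simp only [he0, he1, he2, Set.image_id] <;>
        first
        | exact absurd rfl hij
        | exact hdis
        | exact hd02
        | exact hd12
        | exact hdis.symm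
        | exact hd02.symm
        | exact hd12.symm
  obtain ⟨t, -, ht⟩ := hT G hv hs Z e hcyc
  refine ⟨t, Subgroup.subset_closure ⟨Z, e, hcyc, ht, ?_⟩, ?_⟩
  · intro i hi
    interval_cases i
    · rw [he0, Set.image_id]; exact hZA
    · rw [he1]; exact hfA
    · rw [he2]; exact fun y hy => (hcs hy).1
  · intro z hz
    have h := ht.mv 0 (by norm_num) z hz
    exact h

/-- not covering case -/
theorem case_two (hT : C_tri) (hS : B_small) (hI : B_img) (hC : B_comp) (G : Subgroup Hm)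
    (hv : Vigorous G) (hs : IsSimpleGroup G) (A Z : Set Cn) (f : Cn → Cn) (hA : IsClopen A)
    (hZ : IsClopen Z) (hZA : Z ⊆ A) (hf : Loc G f Z) (hinj : Set.InjOn f Z) (hfA : f '' Z ⊆ A)
    (hne : (A \ (Z ∪ f '' Z)).Nonempty) :
    ∃ t ∈ Alt G A, ∀ z ∈ Z, t z = f z := by
  have hZ' : IsClopen (f '' Z) := hI G f Z hf hZ
  have hZu : Z ≠ Set.univ := by
    rintro rfl
    obtain ⟨y, -, hy⟩ := hne
    exact hy (Or.inl trivial)
  obtain ⟨c, hc, hcs, hcn⟩ := small_one hS G hv Z (A \ (Z ∪ f '' Z)) hZ hZu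
    (hA.diff (hZ.union hZ')) hne
  obtain ⟨w, hw, hwc⟩ := Set.exists_of_ssubset (hcs.ssubset_of_ne hcn)
  have hd02 : Disjoint Z (c '' Z) := by
    rw [Set.disjoint_left]
    intro y hy hy'
    exact (hcs hy').2 (Or.inl hy)
  obtain ⟨t1, ht1, ht1z⟩ := case_one hT hS hI G hv hs A Z c hA hZ hZA (loc_hom G c hc Z)
    c.injective.injOn (fun y hy => (hcs hy).1) hd02
    ⟨w, hw.1, by rintro (h | h); exacts [hw.2 (Or.inl h), hwc h]⟩
  have him : (f ∘ ⇑(c.symm)) '' (c '' Z) = f '' Z := by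
    ext y
    constructor
    · rintro ⟨_, ⟨z, hz, rfl⟩, rfl⟩
      exact ⟨z, hz, by simp⟩
    · rintro ⟨z, hz, rfl⟩
      exact ⟨c z, ⟨z, hz, rfl⟩, by simp⟩
  have hcc : c.symm '' (c '' Z) = Z := by
    ext y
    constructor
    · rintro ⟨_, ⟨z, hz, rfl⟩, rfl⟩
      rw [c.symm_apply_apply]; exact hz
    · intro hz
      exact ⟨c y, ⟨y, hz, rfl⟩, by simp⟩
  obtain ⟨t2, ht2, ht2z⟩ := case_one hT hS hI G hv hs A (c '' Z) (f ∘ ⇑(c.symm)) hA
    ⟨c.isClosed_image.2 hZ.1, c.isOpen_image.2 hZ.2⟩ (fun y hy => (hcs hy).1)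
    (hC G c.symm f (c '' Z) (loc_hom G c⁻¹ (G.inv_mem hc) _) (by rw [hcc]; exact hf))
    (by
      rintro _ ⟨z, hz, rfl⟩ _ ⟨z', hz', rfl⟩ h
      simp only [Function.comp_apply, Homeomorph.symm_apply_apply] at h
      rw [hinj hz hz' h])
    (by rw [him]; exact hfA)
    (by
      rw [him, Set.disjoint_left]
      intro y hy hy'
      exact (hcs hy).2 (Or.inr hy'))
    (by
      rw [him]
      exact ⟨w, hw.1, by rintro (h | h); exacts [hwc h, hw.2 (Or.inr h)]⟩)
  refine ⟨t2 * t1, (Alt G A).mul_mem ht2 ht1, fun z hz => ?_⟩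
  show t2 (t1 z) = f z
  rw [ht1z z hz, ht2z (c z) ⟨z, hz, rfl⟩]
  simp

end TC4

open TC4 in
theorem c_ext (hT : C_tri) (hS : B_small) (hI : B_img) (hC : B_comp) : C_ext := by
  intro G hv hs A Z f hA hZ hZA hf hinj hfA
  have hZ' : IsClopen (f '' Z) := hI G f Z hf hZ
  by_cases hne : (A \ (Z ∪ f '' Z)).Nonempty
  · exact case_two hT hS hI hC G hv hs A Z f hA hZ hZA.subset hf hinj hfA.subset hne
  · have hcov : ∀ y ∈ A, y ∉ f '' Z → y ∈ Z := by
      intro y hy hy'
      by_contra h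
      exact hne ⟨y, hy, by rintro (h1 | h1); exacts [h h1, hy' h1]⟩
    obtain ⟨y0, hy0A, hy0⟩ := Set.exists_of_ssubset hfA
    have hfu : f '' Z ≠ Set.univ := fun h => hy0 (by rw [h]; trivial)
    obtain ⟨c, hc, hcs, hcn⟩ := small_one hS G hv (f '' Z) (A \ f '' Z) hZ' hfu (hA.diff hZ')
      ⟨y0, hy0A, hy0⟩
    obtain ⟨w, hw, hwc⟩ := Set.exists_of_ssubset (hcs.ssubset_of_ne hcn)
    obtain ⟨t0, ht0, ht0z⟩ := case_one hT hS hI G hv hs A (f '' Z) c hA hZ' hfA.subset
      (loc_hom G c hc _) c.injective.injOn (fun y hy => (hcs hy).1)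
      (by
        rw [Set.disjoint_left]
        intro y hy hy'
        exact (hcs hy').2 hy)
      ⟨w, hw.1, by rintro (h | h); exacts [hw.2 h, hwc h]⟩
    have him : (⇑c ∘ f) '' Z = c '' (f '' Z) := by
      rw [Set.image_comp]
    obtain ⟨y1, hy1A, hy1⟩ := Set.exists_of_ssubset hZA
    obtain ⟨t1, ht1, ht1z⟩ := case_two hT hS hI hC G hv hs A Z (⇑c ∘ f) hA hZ hZA.subset
      (hC G f c Z hf (loc_hom G c hc _)) (c.injective.comp_injOn hinj)
      (by rw [him]; exact fun y hy => (hcs hy).1)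
      (by
        rw [him]
        refine ⟨y1, hy1A, ?_⟩
        rintro (h | h)
        · exact hy1 h
        · exact hy1 (hcov y1 hy1A (hcs h).2))
    refine ⟨t0⁻¹ * t1, (Alt G A).mul_mem ((Alt G A).inv_mem ht0) ht1, fun z hz => ?_⟩
    show t0.symm (t1 z) = f z
    rw [Homeomorph.symm_apply_eq, ht1z z hz, ht0z (f z) ⟨z, hz, rfl⟩]
    rfl

end Pool.Agent.Helper106.VG
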