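import Pool.Agent.Helper106.VG.Stmts

/-!
# Vigorous groups: the alternating group of a union (task C5)
-/

set_option autoImplicit false

namespace Pool.Agent.Helper106.VG

open Filter Topology

namespace TC5

/-- data of a 3-cycle, unbundled -/
structure Dt3 (G : Subgroup Hm) (D : Set Cn) (a b c : Cn → Cn) : Prop where
  clop : IsClopen D
  la : Loc G a D
  lb : Loc G b D
  lc : Loc G c D
  ia : Set.InjOn a D
  ib : Set.InjOn b D
  ic : Set.InjOn c D
  ab : Disjoint (a '' D) (b '' D)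
  bc : Disjoint (b '' D) (c '' D)
  ca : Disjoint (c '' D) (a '' D)

/-- the 3-cycle with data `D, a, b, c`, unbundled -/
structure Cy3 (t : Hm) (D : Set Cn) (a b c : Cn → Cn) : Prop where
  ma : ∀ z ∈ D, t (a z) = b z
  mb : ∀ z ∈ D, t (b z) = c z
  mc : ∀ z ∈ D, t (c z) = a z
  fx : ∀ y, y ∉ a '' D → y ∉ b '' D → y ∉ c '' D → t y = y

theorem Dt3.rot {G : Subgroup Hm} {D : Set Cn} {a b c : Cn → Cn} (h : Dt3 G D a b c) :
    Dt3 G D b c a :=
  ⟨h.clop, h.lb, h.lc, h.la, h.ib, h.ic, h.ia, h.bc, h.ca, h.ab⟩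

theorem Cy3.rot {t : Hm} {D : Set Cn} {a b c : Cn → Cn} (h : Cy3 t D a b c) : Cy3 t D b c a :=
  ⟨h.mb, h.mc, h.ma, fun y h1 h2 h3 => h.fx y h3 h1 h2⟩

theorem cy3_of {t : Hm} {D : Set Cn} {e : ℕ → Cn → Cn} (h : IsCyc t 3 D e) :
    Cy3 t D (e 0) (e 1) (e 2) := by
  refine ⟨fun z hz => h.mv 0 (by norm_num) z hz, fun z hz => h.mv 1 (by norm_num) z hz,
    fun z hz => h.mv 2 (by norm_num) z hz, fun y h0 h1 h2 => h.fx y ?_⟩
  intro i hi
  interval_cases i
  · exact h0
  · exact h1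
  · exact h2

theorem of_cy3 {t : Hm} {D : Set Cn} {e : ℕ → Cn → Cn} (h : Cy3 t D (e 0) (e 1) (e 2)) :
    IsCyc t 3 D e := by
  refine ⟨?_, fun y hy => h.fx y (hy 0 (by norm_num)) (hy 1 (by norm_num)) (hy 2 (by norm_num))⟩
  intro i hi z hz
  interval_cases i
  · exact h.ma z hz
  · exact h.mb z hz
  · exact h.mc z hz

theorem dt3_of {G : Subgroup Hm} {D : Set Cn} {e : ℕ → Cn → Cn} (h : CycD G 3 D e) :
    Dt3 G D (e 0) (e 1) (e 2) :=
  ⟨h.clop, h.loc 0 (by norm_num), h.loc 1 (by norm_num), h.loc 2 (by norm_num),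
    h.inj 0 (by norm_num), h.inj 1 (by norm_num), h.inj 2 (by norm_num),
    h.disj 0 (by norm_num) 1 (by norm_num) (by norm_num),
    h.disj 1 (by norm_num) 2 (by norm_num) (by norm_num),
    h.disj 2 (by norm_num) 0 (by norm_num) (by norm_num)⟩

theorem of_dt3 {G : Subgroup Hm} {D : Set Cn} {e : ℕ → Cn → Cn}
    (h : Dt3 G D (e 0) (e 1) (e 2)) : CycD G 3 D e := by
  refine ⟨h.clop, ?_, ?_, ?_⟩
  · intro i hi
    interval_cases i
    · exact h.la
    · exact h.lb
    · exact h.lc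
  · intro i hi
    interval_cases i
    · exact h.ia
    · exact h.ib
    · exact h.ic
  · intro i hi j hj hij
    interval_cases i <;> interval_cases j
    · exact absurd rfl hij
    · exact h.ab
    · exact h.ca.symm
    · exact h.ab.symm
    · exact absurd rfl hij
    · exact h.bc
    · exact h.ca
    · exact h.bc.symm
    · exact absurd rfl hij

/-- the sequence `a, b, c, c, …` -/
def E3 (a b c : Cn → Cn) : ℕ → Cn → Cn := fun i => if i = 0 then a else if i = 1 then b else c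

theorem tri {G : Subgroup Hm} (hV : Vigorous G) (hS : IsSimpleGroup G) (ht : C_tri) {D : Set Cn}
    {a b c : Cn → Cn} (h : Dt3 G D a b c) : ∃ t ∈ G, Cy3 t D a b c := by
  obtain ⟨t, htG, htc⟩ := ht G hV hS D (E3 a b c) (of_dt3 (e := E3 a b c) h)
  exact ⟨t, htG, cy3_of htc⟩

theorem mem_tri {G : Subgroup Hm} {t : Hm} {D A : Set Cn} {a b c : Cn → Cn}
    (h : Dt3 G D a b c) (hc : Cy3 t D a b c) (ha : a '' D ⊆ A) (hb : b '' D ⊆ A)
    (hcc : c '' D ⊆ A) : t ∈ Alt G A := by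
  refine Subgroup.subset_closure ⟨D, E3 a b c, of_dt3 (e := E3 a b c) h, of_cy3 (e := E3 a b c) hc,
    ?_⟩
  intro i hi
  interval_cases i
  · exact ha
  · exact hb
  · exact hcc

theorem uniq {t t' : Hm} {D : Set Cn} {a b c : Cn → Cn} (h : Cy3 t D a b c)
    (h' : Cy3 t' D a b c) : t = t' := by
  ext1 y
  by_cases h0 : y ∈ a '' D
  · obtain ⟨z, hz, rfl⟩ := h0
    rw [h.ma z hz, h'.ma z hz]
  by_cases h1 : y ∈ b '' D
  · obtain ⟨z, hz, rfl⟩ := h1
    rw [h.mb z hz, h'.mb z hz]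
  by_cases h2 : y ∈ c '' D
  · obtain ⟨z, hz, rfl⟩ := h2
    rw [h.mc z hz, h'.mc z hz]
  rw [h.fx y h0 h1 h2, h'.fx y h0 h1 h2]

theorem Dt3.mono {G : Subgroup Hm} {D D' : Set Cn} {a b c : Cn → Cn} (h : Dt3 G D a b c)
    (hs : D' ⊆ D) (hD : IsClopen D') : Dt3 G D' a b c :=
  ⟨hD, fun x hx => h.la x (hs hx), fun x hx => h.lb x (hs hx), fun x hx => h.lc x (hs hx),
    h.ia.mono hs, h.ib.mono hs, h.ic.mono hs,
    h.ab.mono (Set.image_mono hs) (Set.image_mono hs),
    h.bc.mono (Set.image_mono hs) (Set.image_mono hs),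
    h.ca.mono (Set.image_mono hs) (Set.image_mono hs)⟩

theorem mul_app (s t : Hm) (x : Cn) : (s * t) x = s (t x) := rfl

/-- a disjoint union of two pieces of the data gives the product of the 3-cycles -/
theorem cy3_union {G : Subgroup Hm} {s t : Hm} {D U V : Set Cn} {a b c : Cn → Cn}
    (h : Dt3 G D a b c) (hU : U ⊆ D) (hV : V ⊆ D) (hd : Disjoint U V) (hs : Cy3 s U a b c)
    (ht : Cy3 t V a b c) : Cy3 (s * t) (U ∪ V) a b c := by
  -- points of the pieces over `U` are not in the pieces over `V`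
  have sep : ∀ (f g : Cn → Cn), (∀ x ∈ D, ∀ y ∈ D, f x = g y → x = y) → ∀ z ∈ U,
      f z ∉ g '' V := by
    rintro f g hfg z hz ⟨w, hw, e⟩
    have := hfg z (hU hz) w (hV hw) e.symm
    subst this
    exact Set.disjoint_left.1 hd hz hw
  have sep' : ∀ (f g : Cn → Cn), (∀ x ∈ D, ∀ y ∈ D, f x = g y → x = y) → ∀ z ∈ V,
      f z ∉ g '' U := by
    rintro f g hfg z hz ⟨w, hw, e⟩
    have := hfg z (hV hz) w (hU hw) e.symm
    subst this
    exact Set.disjoint_left.1 hd hw hz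
  have dj : ∀ (f g : Cn → Cn), Disjoint (f '' D) (g '' D) →
      ∀ x ∈ D, ∀ y ∈ D, f x = g y → x = y := by
    intro f g hfg x hx y hy e
    exact absurd (Set.disjoint_left.1 hfg ⟨x, hx, rfl⟩ ⟨y, hy, e.symm⟩) id
  have ij : ∀ (f : Cn → Cn), Set.InjOn f D → ∀ x ∈ D, ∀ y ∈ D, f x = f y → x = y :=
    fun f hf x hx y hy e => hf hx hy e
  have fs : ∀ z ∈ V, s (a z) = a z ∧ s (b z) = b z ∧ s (c z) = c z := by
    intro z hz
    refine ⟨hs.fx _ ?_ ?_ ?_, hs.fx _ ?_ ?_ ?_, hs.fx _ ?_ ?_ ?_⟩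
    · exact sep' a a (ij a h.ia) z hz
    · exact sep' a b (dj a b h.ab) z hz
    · exact sep' a c (dj a c h.ca.symm) z hz
    · exact sep' b a (dj b a h.ab.symm) z hz
    · exact sep' b b (ij b h.ib) z hz
    · exact sep' b c (dj b c h.bc) z hz
    · exact sep' c a (dj c a h.ca) z hz
    · exact sep' c b (dj c b h.bc.symm) z hz
    · exact sep' c c (ij c h.ic) z hz
  have ft : ∀ z ∈ U, t (a z) = a z ∧ t (b z) = b z ∧ t (c z) = c z := by
    intro z hz
    refine ⟨ht.fx _ ?_ ?_ ?_, ht.fx _ ?_ ?_ ?_, ht.fx _ ?_ ?_ ?_⟩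
    · exact sep a a (ij a h.ia) z hz
    · exact sep a b (dj a b h.ab) z hz
    · exact sep a c (dj a c h.ca.symm) z hz
    · exact sep b a (dj b a h.ab.symm) z hz
    · exact sep b b (ij b h.ib) z hz
    · exact sep b c (dj b c h.bc) z hz
    · exact sep c a (dj c a h.ca) z hz
    · exact sep c b (dj c b h.bc.symm) z hz
    · exact sep c c (ij c h.ic) z hz
  refine ⟨?_, ?_, ?_, ?_⟩
  · rintro z (hz | hz)
    · rw [mul_app, (ft z hz).1, hs.ma z hz]
    · rw [mul_app, ht.ma z hz, (fs z hz).2.1]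
  · rintro z (hz | hz)
    · rw [mul_app, (ft z hz).2.1, hs.mb z hz]
    · rw [mul_app, ht.mb z hz, (fs z hz).2.2]
  · rintro z (hz | hz)
    · rw [mul_app, (ft z hz).2.2, hs.mc z hz]
    · rw [mul_app, ht.mc z hz, (fs z hz).1]
  · intro y h0 h1 h2
    rw [Set.image_union, Set.mem_union, not_or] at h0 h1 h2
    rw [mul_app, ht.fx y h0.2 h1.2 h2.2, hs.fx y h0.1 h1.1 h2.1]

theorem loc_comp {G : Subgroup Hm} {a : Cn → Cn} {D : Set Cn} (h : Loc G a D) {g : Hm}
    (hg : g ∈ G) : Loc G (fun z => g (a z)) D := by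
  intro x hx
  obtain ⟨k, hk, hk'⟩ := h x hx
  refine ⟨g * k, G.mul_mem hg hk, hk'.mono fun y hy => ?_⟩
  show g (a y) = g (k y)
  rw [hy]

/-- the main step: two pieces in `A` and one in `B` -/
theorem key {G : Subgroup Hm} (hV : Vigorous G) (hS : IsSimpleGroup G) (ht : C_tri)
    (hb : B_small) (hi : B_img) {A B O D : Set Cn} {a b c : Cn → Cn} {t : Hm}
    (h : Dt3 G D a b c) (hc : Cy3 t D a b c) (hO : IsClopen O) (hOA : O ⊆ A) (hOB : O ⊆ B)
    (hne : O.Nonempty) (oa : Disjoint (a '' D) O) (ob : Disjoint (b '' D) O)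
    (oc : Disjoint (c '' D) O) (ha : a '' D ⊆ A) (hbA : b '' D ⊆ A) (hcB : c '' D ⊆ B) :
    t ∈ Alt G A ⊔ Alt G B := by
  have hPc : IsClopen (a '' D) := hi G a D h.la h.clop
  have hPu : a '' D ≠ Set.univ := by
    intro e
    obtain ⟨o, ho⟩ := hne
    exact Set.disjoint_left.1 oa (e ▸ Set.mem_univ o) ho
  obtain ⟨k, hkG, hkO, hkd, -⟩ := hb G hV 2 (a '' D) O hPc hPu hO hne
  have im0 : (fun z => k 0 (a z)) '' D = k 0 '' (a '' D) := by
    rw [Set.image_image]
  have im1 : (fun z => k 1 (a z)) '' D = k 1 '' (a '' D) := by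
    rw [Set.image_image]
  have s0 : (fun z => k 0 (a z)) '' D ⊆ O := im0 ▸ hkO 0 (by norm_num)
  have s1 : (fun z => k 1 (a z)) '' D ⊆ O := im1 ▸ hkO 1 (by norm_num)
  have d01 : Disjoint ((fun z => k 0 (a z)) '' D) ((fun z => k 1 (a z)) '' D) := by
    rw [im0, im1]
    exact hkd 0 (by norm_num) 1 (by norm_num) (by norm_num)
  have i0 : Set.InjOn (fun z => k 0 (a z)) D := fun x hx y hy e =>
    h.ia hx hy ((k 0).injective e)
  have i1 : Set.InjOn (fun z => k 1 (a z)) D := fun x hx y hy e =>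
    h.ia hx hy ((k 1).injective e)
  have D1 : Dt3 G D a b (fun z => k 0 (a z)) :=
    ⟨h.clop, h.la, h.lb, loc_comp h.la (hkG 0), h.ia, h.ib, i0, h.ab,
      ob.mono_right s0, (oa.mono_right s0).symm⟩
  have D2 : Dt3 G D (fun z => k 0 (a z)) c (fun z => k 1 (a z)) :=
    ⟨h.clop, loc_comp h.la (hkG 0), h.lc, loc_comp h.la (hkG 1), i0, h.ic, i1,
      (oc.mono_right s0).symm, oc.mono_right s1, d01.symm⟩
  obtain ⟨t1, -, ht1⟩ := tri hV hS ht D1
  obtain ⟨t2, -, ht2⟩ := tri hV hS ht D2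
  have m1 : t1 ∈ Alt G A := mem_tri D1 ht1 ha hbA (s0.trans hOA)
  have m2 : t2 ∈ Alt G B := mem_tri D2 ht2 (s0.trans hOB) hcB (s1.trans hOB)
  have e : t = t2 * t1 * t2⁻¹ := by
    refine uniq hc ?_
    -- `t2` fixes the first two pieces
    have f : ∀ y, y ∈ a '' D ∪ b '' D → t2 y = y := by
      rintro y (hy | hy)
      · refine ht2.fx y ?_ ?_ ?_
        · exact fun hy' => Set.disjoint_left.1 oa hy (s0 hy')
        · exact fun hy' => Set.disjoint_left.1 h.ca hy' hy
        · exact fun hy' => Set.disjoint_left.1 oa hy (s1 hy')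
      · refine ht2.fx y ?_ ?_ ?_
        · exact fun hy' => Set.disjoint_left.1 ob hy (s0 hy')
        · exact fun hy' => Set.disjoint_left.1 h.bc hy hy'
        · exact fun hy' => Set.disjoint_left.1 ob hy (s1 hy')
    have fa : ∀ z ∈ D, t2⁻¹ (a z) = a z := by
      intro z hz
      have := f (a z) (Or.inl ⟨z, hz, rfl⟩)
      calc t2⁻¹ (a z) = t2⁻¹ (t2 (a z)) := by rw [this]
        _ = a z := t2.symm_apply_apply _
    have fb : ∀ z ∈ D, t2⁻¹ (b z) = b z := by
      intro z hz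
      have := f (b z) (Or.inr ⟨z, hz, rfl⟩)
      calc t2⁻¹ (b z) = t2⁻¹ (t2 (b z)) := by rw [this]
        _ = b z := t2.symm_apply_apply _
    have fc : ∀ z ∈ D, t2⁻¹ (c z) = k 0 (a z) := by
      intro z hz
      have := ht2.ma z hz
      calc t2⁻¹ (c z) = t2⁻¹ (t2 (k 0 (a z))) := by rw [← this]
        _ = k 0 (a z) := t2.symm_apply_apply _
    refine ⟨?_, ?_, ?_, ?_⟩
    · intro z hz
      show t2 (t1 (t2⁻¹ (a z))) = b z
      rw [fa z hz, ht1.ma z hz, f (b z) (Or.inr ⟨z, hz, rfl⟩)]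
    · intro z hz
      show t2 (t1 (t2⁻¹ (b z))) = c z
      rw [fb z hz, ht1.mb z hz]
      exact ht2.ma z hz
    · intro z hz
      show t2 (t1 (t2⁻¹ (c z))) = a z
      rw [fc z hz]
      have := ht1.mc z hz
      rw [this, f (a z) (Or.inl ⟨z, hz, rfl⟩)]
    · intro y h0 h1 h2
      show t2 (t1 (t2⁻¹ y)) = y
      have : t1 (t2⁻¹ y) = t2⁻¹ y := by
        refine ht1.fx _ ?_ ?_ ?_
        · intro hy
          refine h0 ?_
          have e1 := f _ (Or.inl hy)
          have e2 : t2 (t2⁻¹ y) = y := t2.apply_symm_apply y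
          rw [e2] at e1
          rwa [← e1] at hy
        · intro hy
          refine h1 ?_
          have e1 := f _ (Or.inr hy)
          have e2 : t2 (t2⁻¹ y) = y := t2.apply_symm_apply y
          rw [e2] at e1
          rwa [← e1] at hy
        · rintro ⟨z, hz, hy⟩
          refine h2 ⟨z, hz, ?_⟩
          rw [← ht2.ma z hz]
          simp only at hy
          show t2 (k 0 (a z)) = y
          rw [hy]
          exact t2.apply_symm_apply y
      rw [this]
      exact t2.apply_symm_apply y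
  rw [e]
  exact Subgroup.mul_mem _ (Subgroup.mul_mem _ (Subgroup.mem_sup_right m2)
    (Subgroup.mem_sup_left m1)) (Subgroup.inv_mem _ (Subgroup.mem_sup_right m2))

/-- a local map is continuous at the points of its domain -/
theorem cont {G : Subgroup Hm} {a : Cn → Cn} {D : Set Cn} (h : Loc G a D) {x : Cn} (hx : x ∈ D)
    {O : Set Cn} (hO : IsOpen O) (hm : a x ∈ O) : ∀ᶠ y in 𝓝 x, a y ∈ O := by
  obtain ⟨g, -, hg⟩ := h x hx
  have hgx : a x = g x := hg.self_of_nhds
  have : ∀ᶠ y in 𝓝 x, g y ∈ O := by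
    have := g.continuous.continuousAt (x := x)
    exact this.eventually (hO.mem_nhds (hgx ▸ hm))
  filter_upwards [hg, this] with y h1 h2
  rw [h1]
  exact h2

/-- one step of the induction: small pieces -/
theorem small {G : Subgroup Hm} (hV : Vigorous G) (hS : IsSimpleGroup G) (ht : C_tri)
    (hb : B_small) (hi : B_img) {A B O D : Set Cn} {a b c : Cn → Cn} {t : Hm}
    (h : Dt3 G D a b c) (hc : Cy3 t D a b c) (hO : IsClopen O) (hOA : O ⊆ A) (hOB : O ⊆ B)
    (hne : O.Nonempty) (oa : Disjoint (a '' D) O) (ob : Disjoint (b '' D) O)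
    (oc : Disjoint (c '' D) O) (ha : a '' D ⊆ A ∨ a '' D ⊆ B) (hb' : b '' D ⊆ A ∨ b '' D ⊆ B)
    (hcc : c '' D ⊆ A ∨ c '' D ⊆ B) : t ∈ Alt G A ⊔ Alt G B := by
  rcases ha with ha | ha <;> rcases hb' with hb' | hb' <;> rcases hcc with hcc | hcc
  · exact Subgroup.mem_sup_left (mem_tri h hc ha hb' hcc)
  · exact key hV hS ht hb hi h hc hO hOA hOB hne oa ob oc ha hb' hcc
  · -- A B A: rotate to c a b
    exact key hV hS ht hb hi h.rot.rot hc.rot.rot hO hOA hOB hne oc oa ob hcc ha hb'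
  · -- A B B: b c in B, a in A
    rw [sup_comm]
    exact key hV hS ht hb hi h.rot hc.rot hO hOB hOA hne ob oc oa hb' hcc ha
  · -- B A A
    exact key hV hS ht hb hi h.rot hc.rot hO hOA hOB hne ob oc oa hb' hcc ha
  · -- B A B: c a in B, b in A
    rw [sup_comm]
    exact key hV hS ht hb hi h.rot.rot hc.rot.rot hO hOB hOA hne oc oa ob hcc ha hb'
  · -- B B A
    rw [sup_comm]
    exact key hV hS ht hb hi h hc hO hOB hOA hne oa ob oc ha hb' hcc
  · exact Subgroup.mem_sup_right (mem_tri h hc ha hb' hcc)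

end TC5

open TC5 in
theorem c_union (hci : A_ci) (hroom : A_room) (hi : B_img) (hb : B_small) (ht : C_tri) :
    C_union := by
  intro G hV hS A B hA hB hne
  rw [Alt, Subgroup.closure_le]
  rintro t ⟨D, e, hD, hc, hsub⟩
  have h3 := dt3_of hD
  have hc3 := cy3_of hc
  have hsa : e 0 '' D ⊆ A ∪ B := hsub 0 (by norm_num)
  have hsb : e 1 '' D ⊆ A ∪ B := hsub 1 (by norm_num)
  have hsc : e 2 '' D ⊆ A ∪ B := hsub 2 (by norm_num)
  generalize e 0 = a at *
  generalize e 1 = b at *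
  generalize e 2 = c at *
  have main := hci (fun V => ∀ s : Hm, Cy3 s (V ∩ D) a b c → s ∈ Alt G A ⊔ Alt G B) ?_ ?_ ?_ D
    h3.clop
  · exact main t (by rwa [Set.inter_self])
  · -- empty set
    intro s hs
    have : s = 1 := by
      ext1 y
      exact hs.fx y (by simp) (by simp) (by simp)
    rw [this]
    exact Subgroup.one_mem _
  · -- disjoint union
    intro U V hU hV' hUV hPU hPV s hs
    have hDU := h3.mono (D' := U ∩ D) Set.inter_subset_right (hU.inter h3.clop)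
    have hDV := h3.mono (D' := V ∩ D) Set.inter_subset_right (hV'.inter h3.clop)
    obtain ⟨u, -, hu⟩ := tri hV hS ht hDU
    obtain ⟨v, -, hv⟩ := tri hV hS ht hDV
    have hd : Disjoint (U ∩ D) (V ∩ D) := hUV.mono Set.inter_subset_left Set.inter_subset_left
    have huv := cy3_union h3 Set.inter_subset_right Set.inter_subset_right hd hu hv
    rw [← Set.union_inter_distrib_right] at huv
    rw [uniq hs huv]
    exact Subgroup.mul_mem _ (hPU u hu) (hPV v hv)
  · -- small neighbourhoods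
    intro x
    by_cases hx : x ∈ D
    swap
    · refine ⟨Dᶜ, h3.clop.compl, hx, ?_⟩
      intro V _ hVD s hs
      have hem : V ∩ D = ∅ := by
        ext y
        simp only [Set.mem_inter_iff, Set.mem_empty_iff_false, iff_false, not_and]
        exact fun hy => hVD hy
      rw [hem] at hs
      have : s = 1 := by
        ext1 y
        exact hs.fx y (by simp) (by simp) (by simp)
      rw [this]
      exact Subgroup.one_mem _
    · obtain ⟨p, hp, -, O, hO, hpO, hOs, hOS, -⟩ := hroom (A ∩ B) {a x, b x, c x}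
        (hA.inter hB).isOpen hne (by simp)
      have na : a x ∉ O := fun h => Set.disjoint_left.1 hOS h (by simp)
      have nb : b x ∉ O := fun h => Set.disjoint_left.1 hOS h (by simp)
      have nc : c x ∉ O := fun h => Set.disjoint_left.1 hOS h (by simp)
      -- neighbourhoods
      have nbhd : ∀ f : Cn → Cn, Loc G f D → f '' D ⊆ A ∪ B → f x ∉ O →
          ∃ W ∈ 𝓝 x, (∀ V ⊆ W, Disjoint (f '' V) O ∧ (f '' V ⊆ A ∨ f '' V ⊆ B)) := by
        intro f hf hfs hfx
        have e1 := cont hf hx hO.compl.isOpen hfx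
        rcases hfs ⟨x, hx, rfl⟩ with hxA | hxB
        · have e2 := cont hf hx hA.isOpen hxA
          refine ⟨{y | f y ∈ Oᶜ} ∩ {y | f y ∈ A}, Filter.inter_mem e1 e2, ?_⟩
          intro V hV
          refine ⟨?_, Or.inl ?_⟩
          · rw [Set.disjoint_left]
            rintro _ ⟨y, hy, rfl⟩
            exact (hV hy).1
          · rintro _ ⟨y, hy, rfl⟩
            exact (hV hy).2
        · have e2 := cont hf hx hB.isOpen hxB
          refine ⟨{y | f y ∈ Oᶜ} ∩ {y | f y ∈ B}, Filter.inter_mem e1 e2, ?_⟩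
          intro V hV
          refine ⟨?_, Or.inr ?_⟩
          · rw [Set.disjoint_left]
            rintro _ ⟨y, hy, rfl⟩
            exact (hV hy).1
          · rintro _ ⟨y, hy, rfl⟩
            exact (hV hy).2
      obtain ⟨Wa, hWa, ha⟩ := nbhd a h3.la hsa na
      obtain ⟨Wb, hWb, hb1⟩ := nbhd b h3.lb hsb nb
      obtain ⟨Wc, hWc, hc1⟩ := nbhd c h3.lc hsc nc
      obtain ⟨Q, hQm, hQc, hQs⟩ := (loc_compact_Haus_tot_disc_of_zero_dim (H := Cn)).mem_nhds_iff.1
        (Filter.inter_mem hWa (Filter.inter_mem hWb hWc))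
      refine ⟨Q, hQm, hQc, ?_⟩
      intro V hVc hVQ s hs
      have hsubV : V ∩ D ⊆ Wa ∩ (Wb ∩ Wc) := Set.inter_subset_left.trans (hVQ.trans hQs)
      have hDV := h3.mono (D' := V ∩ D) Set.inter_subset_right (hVc.inter h3.clop)
      obtain ⟨a1, a2⟩ := ha (V ∩ D) (hsubV.trans Set.inter_subset_left)
      obtain ⟨b1, b2⟩ := hb1 (V ∩ D) (hsubV.trans
        (Set.inter_subset_right.trans Set.inter_subset_left))
      obtain ⟨c1, c2⟩ := hc1 (V ∩ D) (hsubV.trans
        (Set.inter_subset_right.trans Set.inter_subset_right))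
      exact small hV hS ht hb hi hDV hs hO (hOs.trans Set.inter_subset_left)
        (hOs.trans Set.inter_subset_right) ⟨p, hpO⟩ a1 b1 c1 a2 b2 c2

end Pool.Agent.Helper106.VG
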