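import Pool.Agent.Helper106.VG.Stmts

/-!
# Vigorous groups: `C_perf`, `C_fg`
-/

set_option autoImplicit false

namespace Pool.Agent.Helper106.VG

open Filter Topology

namespace TC6

theorem cyc_unique {t t' : Hm} {n : ℕ} {D : Set Cn} {e : ℕ → Cn → Cn} (h : IsCyc t n D e)
    (h' : IsCyc t' n D e) : t = t' := by
  refine Homeomorph.ext (fun y => ?_)
  by_cases hy : ∃ i < n, y ∈ e i '' D
  · obtain ⟨i, hi, z, hz, rfl⟩ := hy
    rw [h.mv i hi z hz, h'.mv i hi z hz]
  · push Not at hy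
    rw [h.fx y hy, h'.fx y hy]

theorem cycD_mono {G : Subgroup Hm} {n : ℕ} {D V : Set Cn} {e : ℕ → Cn → Cn}
    (h : CycD G n D e) (hV : IsClopen V) (hVD : V ⊆ D) : CycD G n V e where
  clop := hV
  loc := fun i hi x hx => h.loc i hi x (hVD hx)
  inj := fun i hi => (h.inj i hi).mono hVD
  disj := fun i hi j hj hij => (h.disj i hi j hj hij).mono (Set.image_mono hVD)
    (Set.image_mono hVD)

theorem notMem_of {G : Subgroup Hm} {n : ℕ} {D W : Set Cn} {e : ℕ → Cn → Cn}
    (h : CycD G n D e) (hW : W ⊆ D) {i j : ℕ} (hi : i < n) (hj : j < n) {z : Cn} (hz : z ∈ D)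
    (hzW : z ∉ W) : e i z ∉ e j '' W := by
  rintro ⟨w, hw, hwz⟩
  by_cases hij : i = j
  · subst hij
    exact hzW ((h.inj i hi (hW hw) hz hwz) ▸ hw)
  · exact Set.disjoint_left.1 (h.disj i hi j hj hij) ⟨z, hz, rfl⟩ ⟨w, hW hw, hwz⟩

/-- three maps as a sequence -/
def e3 (f0 f1 f2 : Cn → Cn) : ℕ → Cn → Cn
  | 0 => f0
  | 1 => f1
  | _ => f2

theorem cycD3 {G : Subgroup Hm} {V : Set Cn} {f0 f1 f2 : Cn → Cn} (hV : IsClopen V)
    (l0 : Loc G f0 V) (l1 : Loc G f1 V) (l2 : Loc G f2 V) (i0 : Set.InjOn f0 V)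
    (i1 : Set.InjOn f1 V) (i2 : Set.InjOn f2 V) (d01 : Disjoint (f0 '' V) (f1 '' V))
    (d02 : Disjoint (f0 '' V) (f2 '' V)) (d12 : Disjoint (f1 '' V) (f2 '' V)) :
    CycD G 3 V (e3 f0 f1 f2) where
  clop := hV
  loc := by
    intro i hi
    interval_cases i
    · exact l0
    · exact l1
    · exact l2
  inj := by
    intro i hi
    interval_cases i
    · exact i0
    · exact i1
    · exact i2
  disj := by
    intro i hi j hj hij
    interval_cases i <;> interval_cases j
    · exact absurd rfl hij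
    · exact d01
    · exact d02
    · exact d01.symm
    · exact absurd rfl hij
    · exact d12
    · exact d02.symm
    · exact d12.symm
    · exact absurd rfl hij

theorem isCyc3 {s : Hm} {V : Set Cn} {f0 f1 f2 : Cn → Cn} (h : IsCyc s 3 V (e3 f0 f1 f2)) :
    (∀ z ∈ V, s (f0 z) = f1 z) ∧ (∀ z ∈ V, s (f1 z) = f2 z) ∧ (∀ z ∈ V, s (f2 z) = f0 z) ∧
      ∀ y, y ∉ f0 '' V → y ∉ f1 '' V → y ∉ f2 '' V → s y = y := by
  refine ⟨fun z hz => h.mv 0 (by norm_num) z hz, fun z hz => h.mv 1 (by norm_num) z hz,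
    fun z hz => h.mv 2 (by norm_num) z hz, fun y h0 h1 h2 => h.fx y ?_⟩
  intro i hi
  interval_cases i
  · exact h0
  · exact h1
  · exact h2

theorem loc_cont {G : Subgroup Hm} {f : Cn → Cn} {U : Set Cn} (h : Loc G f U) {x : Cn}
    (hx : x ∈ U) : ContinuousAt f x := by
  obtain ⟨g, _, hg⟩ := h x hx
  exact (g.continuous.continuousAt (x := x)).congr (hg.mono fun y hy => hy.symm)

theorem loc_comp {G : Subgroup Hm} {f : Cn → Cn} {U : Set Cn} (h : Loc G f U) {c : Hm}
    (hc : c ∈ G) : Loc G (c ∘ f) U := by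
  intro x hx
  obtain ⟨g, hg, hgf⟩ := h x hx
  refine ⟨c * g, G.mul_mem hc hg, hgf.mono fun y hy => ?_⟩
  show c (f y) = c (g y)
  rw [hy]

theorem exists_clopen {x : Cn} {W : Set Cn} (hW : W ∈ 𝓝 x) : ∃ O, IsClopen O ∧ x ∈ O ∧ O ⊆ W := by
  obtain ⟨O, h1, h2, h3⟩ := compact_exists_isClopen_in_isOpen (isOpen_interior (s := W))
    (mem_interior_iff_mem_nhds.2 hW)
  exact ⟨O, h1, h2, h3.trans interior_subset⟩

/-- the main step: small pieces -/
theorem small_step (hcomm : C_comm) (htri : C_tri) (hsmall : B_small) (himg : B_img)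
    {G : Subgroup Hm} (hG : Vigorous G) (hs : IsSimpleGroup G) {A V T : Set Cn}
    {e : ℕ → Cn → Cn} (he : CycD G 3 V e) (hA : ∀ i < 3, e i '' V ⊆ A) (hT : IsClopen T)
    (hTne : T.Nonempty) (hTA : T ⊆ A) (hTd : ∀ i < 3, Disjoint (e i '' V) T) {t' : Hm}
    (ht' : IsCyc t' 3 V e) :
    ∃ s ∈ TriSet G A, ∃ t ∈ TriSet G A, t' = cm s t := by
  have hP0 : IsClopen (e 0 '' V) := himg G (e 0) V (he.loc 0 (by norm_num)) he.clop
  have hP0u : e 0 '' V ≠ Set.univ := by
    intro h0
    obtain ⟨a, ha⟩ := hTne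
    exact Set.disjoint_left.1 (hTd 0 (by norm_num)) (h0 ▸ Set.mem_univ a) ha
  obtain ⟨c, hcG, hcT, hcd, _⟩ := hsmall G hG 2 (e 0 '' V) T hP0 hP0u hT hTne
  have hl0 := he.loc 0 (by norm_num)
  have hl1 := he.loc 1 (by norm_num)
  have hl2 := he.loc 2 (by norm_num)
  have hi0 := he.inj 0 (by norm_num)
  have hi1 := he.inj 1 (by norm_num)
  have hi2 := he.inj 2 (by norm_num)
  have d01 := he.disj 0 (by norm_num) 1 (by norm_num) (by norm_num)
  have d02 := he.disj 0 (by norm_num) 2 (by norm_num) (by norm_num)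
  have d12 := he.disj 1 (by norm_num) 2 (by norm_num) (by norm_num)
  have hc0 : (c 0 ∘ e 0) '' V ⊆ T := by
    rw [Set.image_comp]; exact hcT 0 (by norm_num)
  have hc1 : (c 1 ∘ e 0) '' V ⊆ T := by
    rw [Set.image_comp]; exact hcT 1 (by norm_num)
  have hcc : Disjoint ((c 0 ∘ e 0) '' V) ((c 1 ∘ e 0) '' V) := by
    rw [Set.image_comp, Set.image_comp]
    exact hcd 0 (by norm_num) 1 (by norm_num) (by norm_num)
  have hinj0 : Set.InjOn (c 0 ∘ e 0) V := (c 0).injective.comp_injOn hi0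
  have hinj1 : Set.InjOn (c 1 ∘ e 0) V := (c 1).injective.comp_injOn hi0
  have Ds : CycD G 3 V (e3 (e 0) (e 1) (c 0 ∘ e 0)) :=
    cycD3 he.clop hl0 hl1 (loc_comp hl0 (hcG 0)) hi0 hi1 hinj0 d01
      ((hTd 0 (by norm_num)).mono_right hc0) ((hTd 1 (by norm_num)).mono_right hc0)
  have Dt : CycD G 3 V (e3 (e 0) (e 2) (c 1 ∘ e 0)) :=
    cycD3 he.clop hl0 hl2 (loc_comp hl0 (hcG 1)) hi0 hi2 hinj1 d02
      ((hTd 0 (by norm_num)).mono_right hc1) ((hTd 2 (by norm_num)).mono_right hc1)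
  obtain ⟨s, hsG, hsc⟩ := htri G hG hs V _ Ds
  obtain ⟨t, htG, htc⟩ := htri G hG hs V _ Dt
  have hsA : s ∈ TriSet G A := by
    refine ⟨V, _, Ds, hsc, ?_⟩
    intro i hi
    interval_cases i
    · exact hA 0 (by norm_num)
    · exact hA 1 (by norm_num)
    · exact hc0.trans hTA
  have htA : t ∈ TriSet G A := by
    refine ⟨V, _, Dt, htc, ?_⟩
    intro i hi
    interval_cases i
    · exact hA 0 (by norm_num)
    · exact hA 2 (by norm_num)
    · exact hc1.trans hTA
  refine ⟨s, hsA, t, htA, cyc_unique ht' ?_⟩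
  obtain ⟨s0, s1, s2, sf⟩ := isCyc3 hsc
  obtain ⟨t0, t1, t2, tf⟩ := isCyc3 htc
  have hsU : s '' (e 0 '' V) = e 1 '' V := by
    ext y
    constructor
    · rintro ⟨_, ⟨z, hz, rfl⟩, rfl⟩
      exact ⟨z, hz, (s0 z hz).symm⟩
    · rintro ⟨z, hz, rfl⟩
      exact ⟨_, ⟨z, hz, rfl⟩, s0 z hz⟩
  have htU : t '' (e 0 '' V) = e 2 '' V := by
    ext y
    constructor
    · rintro ⟨_, ⟨z, hz, rfl⟩, rfl⟩
      exact ⟨z, hz, (t0 z hz).symm⟩
    · rintro ⟨z, hz, rfl⟩
      exact ⟨_, ⟨z, hz, rfl⟩, t0 z hz⟩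
  obtain ⟨k0, k1, k2, kf⟩ := hcomm (e 0 '' V) s t (by
    intro y hy
    by_cases h1 : y ∈ e 1 '' V
    · right
      exact tf y hy (fun h2 => Set.disjoint_left.1 d12 h1 h2)
        (fun h2 => Set.disjoint_left.1 (hTd 1 (by norm_num)) h1 (hc1 h2))
    · by_cases h2 : y ∈ (c 0 ∘ e 0) '' V
      · right
        exact tf y hy (fun h3 => Set.disjoint_left.1 (hTd 2 (by norm_num)) h3 (hc0 h2))
          (fun h3 => Set.disjoint_left.1 hcc h2 h3)
      · left
        exact sf y hy h1 h2) (by rw [hsU]; exact d01) (by rw [htU]; exact d02)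
  constructor
  · intro i hi z hz
    have hz0 : e 0 z ∈ e 0 '' V := ⟨z, hz, rfl⟩
    interval_cases i
    · show cm s t (e 0 z) = e 1 z
      rw [k0 _ hz0, s0 z hz]
    · show cm s t (e 1 z) = e 2 z
      have := k1 _ hz0
      rw [s0 z hz, t0 z hz] at this
      exact this
    · show cm s t (e 2 z) = e 0 z
      have := k2 _ hz0
      rw [t0 z hz] at this
      exact this
  · intro y hy
    refine kf y (hy 0 (by norm_num)) ?_ ?_
    · rw [hsU]; exact hy 1 (by norm_num)
    · rw [htU]; exact hy 2 (by norm_num)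

end TC6

open TC6

theorem c_perf (hci : A_ci) (hroom : A_room) (himg : B_img) (hsmall : B_small) (hcomm : C_comm)
    (htri : C_tri) : C_perf := by
  intro G hG hs A hA
  unfold Alt
  rw [Subgroup.closure_le]
  rintro t ⟨D, e, hD, ht, hsub⟩
  show t ∈ Subgroup.closure {r | ∃ s ∈ TriSet G A, ∃ t ∈ TriSet G A, r = cm s t}
  have key := hci (fun V => ∀ t' : Hm, IsCyc t' 3 (V ∩ D) e →
    t' ∈ Subgroup.closure {r | ∃ s ∈ TriSet G A, ∃ t ∈ TriSet G A, r = cm s t}) ?_ ?_ ?_ Set.univ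
    isClopen_univ t (by rw [Set.univ_inter]; exact ht)
  · exact key
  · intro t' ht'
    have h1 : t' = 1 := by
      refine Homeomorph.ext (fun y => ?_)
      have := ht'.fx y (by
        intro i _
        rw [Set.empty_inter, Set.image_empty]
        exact Set.notMem_empty y)
      rw [this]
      rfl
    rw [h1]
    exact Subgroup.one_mem _
  · intro U V hU hV hUV PU PV t' ht'
    have cU := cycD_mono hD (hU.inter hD.clop) (Set.inter_subset_right (s := U))
    have cV := cycD_mono hD (hV.inter hD.clop) (Set.inter_subset_right (s := V))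
    obtain ⟨tU, _, hcU⟩ := htri G hG hs _ _ cU
    obtain ⟨tV, _, hcV⟩ := htri G hG hs _ _ cV
    have h1 : t' = tU * tV := by
      refine cyc_unique ht' ⟨?_, ?_⟩
      · intro i hi z hz
        obtain ⟨hz1, hzD⟩ := hz
        have hi' : (i + 1) % 3 < 3 := Nat.mod_lt _ (by norm_num)
        rcases hz1 with hzU | hzV
        · have hzV : z ∉ V ∩ D := fun h => Set.disjoint_left.1 hUV hzU h.1
          have e1 : tV (e i z) = e i z := hcV.fx _ (fun j hj =>
            notMem_of hD Set.inter_subset_right hi hj hzD hzV)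
          show tU (tV (e i z)) = _
          rw [e1]
          exact hcU.mv i hi z ⟨hzU, hzD⟩
        · have hzU : z ∉ U ∩ D := fun h => Set.disjoint_left.1 hUV h.1 hzV
          show tU (tV (e i z)) = _
          rw [hcV.mv i hi z ⟨hzV, hzD⟩]
          exact hcU.fx _ (fun j hj => notMem_of hD Set.inter_subset_right hi' hj hzD hzU)
      · intro y hy
        have e1 : tV y = y := hcV.fx y (fun i hi h => hy i hi
          (Set.image_mono (Set.inter_subset_inter_left _ Set.subset_union_right) h))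
        have e2 : tU y = y := hcU.fx y (fun i hi h => hy i hi
          (Set.image_mono (Set.inter_subset_inter_left _ Set.subset_union_left) h))
        show tU (tV y) = y
        rw [e1, e2]
    rw [h1]
    exact Subgroup.mul_mem _ (PU _ hcU) (PV _ hcV)
  · intro x
    by_cases hx : x ∈ D
    · have hA' : IsOpen A := hA.isOpen
      have hne : A.Nonempty := ⟨e 0 x, hsub 0 (by norm_num) ⟨x, hx, rfl⟩⟩
      obtain ⟨a, _, _, T, hT, haT, hTA, hTS, _⟩ := hroom A {e 0 x, e 1 x, e 2 x} hA' hne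
        (by simp)
      have hn : ∀ i < 3, {y | e i y ∉ T} ∈ 𝓝 x := by
        intro i hi
        have h1 : e i x ∉ T := by
          intro h
          refine Set.disjoint_left.1 hTS h ?_
          interval_cases i
          · exact Or.inl rfl
          · exact Or.inr (Or.inl rfl)
          · exact Or.inr (Or.inr rfl)
        exact (loc_cont (hD.loc i hi) hx).eventually_mem (hT.compl.isOpen.mem_nhds h1)
      have hW : D ∩ ({y | e 0 y ∉ T} ∩ ({y | e 1 y ∉ T} ∩ {y | e 2 y ∉ T})) ∈ 𝓝 x :=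
        inter_mem (hD.clop.isOpen.mem_nhds hx) (inter_mem (hn 0 (by norm_num))
          (inter_mem (hn 1 (by norm_num)) (hn 2 (by norm_num))))
      obtain ⟨O, hO, hxO, hOW⟩ := exists_clopen hW
      refine ⟨O, hO, hxO, ?_⟩
      intro V hV hVO t' ht'
      have hVD : V ⊆ D := fun y hy => (hOW (hVO hy)).1
      rw [Set.inter_eq_left.2 hVD] at ht'
      obtain ⟨s, hs1, t2, ht2, h3⟩ := small_step hcomm htri hsmall himg hG hs (A := A)
        (cycD_mono hD hV hVD)
        (fun i hi => (Set.image_mono hVD).trans (hsub i hi)) hT ⟨a, haT⟩ hTA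
        (by
          intro i hi
          rw [Set.disjoint_left]
          rintro _ ⟨y, hy, rfl⟩
          have h4 := (hOW (hVO hy)).2
          interval_cases i
          · exact h4.1
          · exact h4.2.1
          · exact h4.2.2) ht'
      exact Subgroup.subset_closure ⟨s, hs1, t2, ht2, h3⟩
    · refine ⟨Dᶜ, hD.clop.compl, hx, ?_⟩
      intro V _ hVD t' ht'
      have h0 : V ∩ D = ∅ := by
        rw [← Set.disjoint_iff_inter_eq_empty]
        exact Set.disjoint_left.2 fun y hy hy2 => hVD hy hy2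
      rw [h0] at ht'
      have h1 : t' = 1 := by
        refine Homeomorph.ext (fun y => ?_)
        have := ht'.fx y (by
          intro i _
          rw [Set.image_empty]
          exact Set.notMem_empty y)
        rw [this]
        rfl
      rw [h1]
      exact Subgroup.one_mem _

namespace TC6

theorem fin_closure {H : Type} [Group H] (X : Set H) (g : H) (hg : g ∈ Subgroup.closure X) :
    ∃ Y : Set H, Y ⊆ X ∧ Y.Finite ∧ g ∈ Subgroup.closure Y := by
  induction hg using Subgroup.closure_induction with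
  | mem x hx => exact ⟨{x}, by simpa using hx, Set.finite_singleton x,
      Subgroup.subset_closure rfl⟩
  | one => exact ⟨∅, Set.empty_subset _, Set.finite_empty, Subgroup.one_mem _⟩
  | mul x y _ _ hx hy =>
    obtain ⟨Y1, a1, b1, c1⟩ := hx
    obtain ⟨Y2, a2, b2, c2⟩ := hy
    exact ⟨Y1 ∪ Y2, Set.union_subset a1 a2, b1.union b2,
      Subgroup.mul_mem _ (Subgroup.closure_mono Set.subset_union_left c1)
        (Subgroup.closure_mono Set.subset_union_right c2)⟩
  | inv x _ hx =>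
    obtain ⟨Y1, a1, b1, c1⟩ := hx
    exact ⟨Y1, a1, b1, Subgroup.inv_mem _ c1⟩

theorem fin_closure_set {H : Type} [Group H] (X S : Set H) (hS : S.Finite)
    (h : S ⊆ Subgroup.closure X) :
    ∃ Y : Set H, Y ⊆ X ∧ Y.Finite ∧ S ⊆ Subgroup.closure Y := by
  have h' : ∀ g ∈ S, ∃ Y : Set H, Y ⊆ X ∧ Y.Finite ∧ g ∈ Subgroup.closure Y :=
    fun g hg => fin_closure X g (h hg)
  choose! Y h1 h2 h3 using h'
  refine ⟨⋃ g ∈ S, Y g, Set.iUnion₂_subset h1, hS.biUnion h2, ?_⟩
  intro g hg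
  exact Subgroup.closure_mono (Set.subset_biUnion_of_mem hg) (h3 g hg)

end TC6

theorem c_fg (htop : C_top) (hperf : C_perf) : C_fg := by
  classical
  intro G hG hs hfg
  have htopG := htop G hG hs
  have hX : G ≤ Subgroup.closure
      {r | ∃ s ∈ TriSet G Set.univ, ∃ t ∈ TriSet G Set.univ, r = cm s t} := by
    have := hperf G hG hs Set.univ isClopen_univ
    rwa [htopG] at this
  obtain ⟨S, hS⟩ := (Group.fg_iff_subgroup_fg G).1 hfg
  obtain ⟨Y, hYX, hYf, hSY⟩ := fin_closure_set _ (S : Set Hm) S.finite_toSet (by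
    intro g hg
    exact hX (hS ▸ Subgroup.subset_closure hg))
  have hTriG : ∀ s ∈ TriSet G Set.univ, s ∈ G := by
    intro s hs'
    rw [← htopG]
    exact Subgroup.subset_closure hs'
  have hYG : ∀ r ∈ Y, r ∈ G := by
    intro r hr
    obtain ⟨s, h1, t, h2, rfl⟩ := hYX hr
    exact G.mul_mem (G.mul_mem (G.mul_mem (hTriG s h1) (hTriG t h2)) (G.inv_mem (hTriG s h1)))
      (G.inv_mem (hTriG t h2))
  have hchoice : ∀ r ∈ Y, ∃ p : Hm × Hm, p.1 ∈ TriSet G Set.univ ∧ p.2 ∈ TriSet G Set.univ ∧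
      r = cm p.1 p.2 := by
    intro r hr
    obtain ⟨s, h1, t, h2, h3⟩ := hYX hr
    exact ⟨(s, t), h1, h2, h3⟩
  choose! q hq1 hq2 hq3 using hchoice
  obtain ⟨L, hL⟩ : ∃ L : List Hm, ∀ r, r ∈ L ↔ r ∈ Y :=
    ⟨hYf.toFinset.toList, fun r => by simp⟩
  refine ⟨L.length, fun i => (q (L.getD i 1)).1, fun i => (q (L.getD i 1)).2, ?_, ?_⟩
  · intro i hi
    have h1 : L.getD i 1 ∈ Y := by
      rw [← hL, List.getD_eq_getElem _ _ hi]
      exact List.getElem_mem hi
    exact ⟨hq1 _ h1, hq2 _ h1⟩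
  · have h1 : {r | ∃ i < L.length, r = cm (q (L.getD i 1)).1 (q (L.getD i 1)).2} = Y := by
      ext r
      constructor
      · rintro ⟨i, hi, rfl⟩
        have h1 : L.getD i 1 ∈ Y := by
          rw [← hL, List.getD_eq_getElem _ _ hi]
          exact List.getElem_mem hi
        rw [← hq3 _ h1]
        exact h1
      · intro hr
        have h2 := (hL r).2 hr
        obtain ⟨i, hi, hir⟩ := List.getElem_of_mem h2
        refine ⟨i, hi, ?_⟩
        rw [List.getD_eq_getElem _ _ hi, hir]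
        exact hq3 r hr
    rw [h1]
    refine le_antisymm ?_ ?_
    · rw [Subgroup.closure_le]
      exact hYG
    · rw [← hS, Subgroup.closure_le]
      exact hSY

end Pool.Agent.Helper106.VG
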