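import Pool.Agent.Helper106.VG.Stmts

/-!
# Vigorous groups, task C7: odd cycles (C_cyc) and compressions of Cantor space (C_compress)
-/

set_option autoImplicit false

namespace Pool.Agent.Helper106.VG

open Filter Topology

namespace TC7

/-- restriction of cycle data to fewer pieces -/
theorem cycD_mono {G : Subgroup Hm} {n m : ℕ} {D : Set Cn} {e : ℕ → Cn → Cn}
    (h : CycD G m D e) (hnm : n ≤ m) : CycD G n D e where
  clop := h.clop
  loc := fun i hi => h.loc i (lt_of_lt_of_le hi hnm)
  inj := fun i hi => h.inj i (lt_of_lt_of_le hi hnm)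
  disj := fun i hi j hj hij =>
    h.disj i (lt_of_lt_of_le hi hnm) j (lt_of_lt_of_le hj hnm) hij

/-- a window of cycle data -/
theorem cycD_shift {G : Subgroup Hm} {n m s : ℕ} {D : Set Cn} {e : ℕ → Cn → Cn}
    (h : CycD G m D e) (hnm : s + n ≤ m) : CycD G n D (fun j => e (s + j)) where
  clop := h.clop
  loc := fun i hi => h.loc (s + i) (by omega)
  inj := fun i hi => h.inj (s + i) (by omega)
  disj := fun i hi j hj hij => h.disj (s + i) (by omega) (s + j) (by omega) (by omega)

theorem hmul (g h : Hm) (x : Cn) : (g * h) x = g (h x) := rfl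

/-- gluing an `n`-cycle and a 3-cycle to an `(n+2)`-cycle -/
theorem isCyc_glue {G : Subgroup Hm} {n : ℕ} (hn : 1 ≤ n) {D : Set Cn} {e : ℕ → Cn → Cn}
    (h : CycD G (n + 2) D e) {t1 t2 : Hm} (h1 : IsCyc t1 n D e)
    (h2 : IsCyc t2 3 D (fun j => e (n - 1 + j))) : IsCyc (t1 * t2) (n + 2) D e where
  mv := by
    intro i hi z hz
    rw [hmul]
    have hne : ∀ a b : ℕ, a < n + 2 → b < n + 2 → a ≠ b → e a z ∉ e b '' D := by
      intro a b ha hb hab hm
      exact Set.disjoint_left.1 (h.disj a ha b hb hab) ⟨z, hz, rfl⟩ hm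
    rcases Nat.lt_trichotomy i (n - 1) with hlt | heq | hgt
    · have e1 : t2 (e i z) = e i z := by
        apply h2.fx
        intro j hj
        exact hne i (n - 1 + j) hi (by omega) (by omega)
      rw [e1, h1.mv i (by omega) z hz, Nat.mod_eq_of_lt (by omega),
        Nat.mod_eq_of_lt (by omega : i + 1 < n + 2)]
    · have e1 : t2 (e i z) = e n z := by
        have := h2.mv 0 (by omega) z hz
        simp only [Nat.add_zero] at this
        rw [← heq] at this
        rw [this]
        have h3 : i + (0 + 1) % 3 = n := by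
          rw [show (0 + 1) % 3 = 1 from rfl]; omega
        rw [h3]
      rw [e1, h1.fx _ (fun j hj => hne n j (by omega) (by omega) (by omega))]
      have h3 : (i + 1) % (n + 2) = n := by
        rw [Nat.mod_eq_of_lt (by omega)]; omega
      rw [h3]
    · have hcase : i = n ∨ i = n + 1 := by omega
      rcases hcase with rfl | rfl
      · have e1 : t2 (e i z) = e (i + 1) z := by
          have := h2.mv 1 (by omega) z hz
          have h3 : i - 1 + 1 = i := by omega
          have h4 : i - 1 + (1 + 1) % 3 = i + 1 := by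
            rw [show (1 + 1) % 3 = 2 from rfl]; omega
          simpa only [h3, h4] using this
        rw [e1, h1.fx _ (fun j hj => hne (i + 1) j (by omega) (by omega) (by omega)),
          Nat.mod_eq_of_lt (by omega : i + 1 < i + 2)]
      · have e1 : t2 (e (n + 1) z) = e (n - 1) z := by
          have := h2.mv 2 (by omega) z hz
          have h3 : n - 1 + 2 = n + 1 := by omega
          have h4 : n - 1 + (2 + 1) % 3 = n - 1 := by
            rw [show (2 + 1) % 3 = 0 from rfl]; omega
          simpa only [h3, h4] using this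
        rw [e1, h1.mv (n - 1) (by omega) z hz]
        have h3 : (n - 1 + 1) % n = 0 := by
          rw [show n - 1 + 1 = n by omega, Nat.mod_self]
        have h4 : (n + 1 + 1) % (n + 2) = 0 := by
          rw [show n + 1 + 1 = n + 2 by omega, Nat.mod_self]
        rw [h3, h4]
  fx := by
    intro y hy
    rw [hmul, h2.fx y (fun j hj => hy (n - 1 + j) (by omega)),
      h1.fx y (fun j hj => hy j (by omega))]

theorem cyc_odd (hT : C_tri) (G : Subgroup Hm) (hv : Vigorous G) (hs : IsSimpleGroup G)
    (A D : Set Cn) (e : ℕ → Cn → Cn) (m : ℕ) : CycD G (2 * m + 1) D e →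
    (∀ i < 2 * m + 1, e i '' D ⊆ A) → ∃ t ∈ Alt G A, IsCyc t (2 * m + 1) D e := by
  induction m with
  | zero =>
    intro _ _
    refine ⟨1, Subgroup.one_mem _, ?_, fun y _ => rfl⟩
    intro i hi z _
    have : i = 0 := by omega
    subst this
    rfl
  | succ m ih =>
    intro hc hA
    obtain ⟨t1, h1A, h1⟩ := ih (cycD_mono hc (by omega)) (fun i hi => hA i (by omega))
    have hc3 : CycD G 3 D (fun j => e (2 * m + 1 - 1 + j)) := cycD_shift hc (by omega)
    obtain ⟨t2, -, h2⟩ := hT G hv hs D _ hc3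
    have h2A : t2 ∈ Alt G A := by
      refine Subgroup.subset_closure ⟨D, _, hc3, h2, fun i hi => ?_⟩
      exact hA (2 * m + 1 - 1 + i) (by omega)
    exact ⟨t1 * t2, Subgroup.mul_mem _ h1A h2A, isCyc_glue (by omega) hc h1 h2⟩

end TC7

theorem c_cyc (hT : C_tri) : C_cyc := by
  intro G hv hs n A D e hn hc hA
  obtain ⟨m, rfl⟩ := hn
  exact TC7.cyc_odd hT G hv hs A D e m hc hA

namespace TC7

/-- the clopen half of Cantor space -/
def half : Set Cn := {x | x 0 = true}

theorem half_clopen : IsClopen half := by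
  have : half = (fun x : Cn => x 0) ⁻¹' {true} := rfl
  rw [this]
  exact (isClopen_discrete ({true} : Set Bool)).preimage (continuous_apply 0)

theorem half_ne : half ≠ Set.univ := by
  intro h
  have : (fun _ => false : Cn) ∈ half := h ▸ Set.mem_univ _
  simp [half] at this

theorem half_compl_ne : halfᶜ ≠ Set.univ := by
  intro h
  have : (fun _ => true : Cn) ∈ halfᶜ := h ▸ Set.mem_univ _
  simp [half] at this

end TC7

open Classical in
theorem c_compress (hB : B_small) : C_compress := by
  intro G hv n T hT hTn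
  obtain ⟨c, hcG, hcT, hcd, hcne⟩ := hB G hv n TC7.half T TC7.half_clopen TC7.half_ne hT hTn
  have hsub : (⋃ i < n, c i '' TC7.half) ⊆ T := by
    intro y hy
    simp only [Set.mem_iUnion] at hy
    obtain ⟨i, hi, hy⟩ := hy
    exact hcT i hi hy
  have hclU : IsClopen (⋃ i < n, c i '' TC7.half) := by
    have : (⋃ i < n, c i '' TC7.half) = ⋃ i ∈ Set.Iio n, c i '' TC7.half := rfl
    rw [this]
    exact (Set.finite_Iio n).isClopen_biUnion
      (fun i _ => ⟨(c i).isClosed_image.2 TC7.half_clopen.1,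
        (c i).isOpen_image.2 TC7.half_clopen.2⟩)
  set T' : Set Cn := T \ ⋃ i < n, c i '' TC7.half with hT'
  have hT'c : IsClopen T' := hT.diff hclU
  have hT'n : T'.Nonempty := by
    rw [hT', Set.sdiff_nonempty]
    intro h
    exact hcne (Set.Subset.antisymm hsub h)
  obtain ⟨d, hdG, hdT, hdd, hdne⟩ := hB G hv n TC7.halfᶜ T' TC7.half_clopen.compl
    TC7.half_compl_ne hT'c hT'n
  have hsub' : (⋃ i < n, d i '' TC7.halfᶜ) ⊆ T' := by
    intro y hy
    simp only [Set.mem_iUnion] at hy
    obtain ⟨i, hi, hy⟩ := hy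
    exact hdT i hi hy
  let h : ℕ → Cn → Cn := fun i x => if x ∈ TC7.half then c i x else d i x
  have hin : ∀ i x, x ∈ TC7.half → h i x = c i x := fun i x hx => if_pos hx
  have hout : ∀ i x, x ∉ TC7.half → h i x = d i x := fun i x hx => if_neg hx
  have hrange : ∀ i, Set.range (h i) = c i '' TC7.half ∪ d i '' TC7.halfᶜ := by
    intro i
    ext y
    constructor
    · rintro ⟨x, rfl⟩
      by_cases hx : x ∈ TC7.half
      · exact Or.inl ⟨x, hx, (hin i x hx).symm⟩
      · exact Or.inr ⟨x, hx, (hout i x hx).symm⟩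
    · rintro (⟨x, hx, rfl⟩ | ⟨x, hx, rfl⟩)
      · exact ⟨x, hin i x hx⟩
      · exact ⟨x, hout i x hx⟩
  have hcd' : ∀ i < n, ∀ j < n, Disjoint (c i '' TC7.half) (d j '' TC7.halfᶜ) := by
    intro i hi j hj
    rw [Set.disjoint_left]
    intro y hy hy'
    have := hdT j hj hy'
    exact this.2 (Set.mem_biUnion (show i ∈ {i | i < n} from hi) hy)
  refine ⟨h, fun i hi => ⟨?_, ?_, ?_⟩, ?_, ?_⟩
  · intro x _
    by_cases hx : x ∈ TC7.half
    · refine ⟨c i, hcG i, ?_⟩
      filter_upwards [TC7.half_clopen.2.mem_nhds hx] with y hy using hin i y hy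
    · refine ⟨d i, hdG i, ?_⟩
      filter_upwards [TC7.half_clopen.compl.2.mem_nhds hx] with y hy using hout i y hy
  · intro x y hxy
    by_cases hx : x ∈ TC7.half <;> by_cases hy : y ∈ TC7.half
    · rw [hin i x hx, hin i y hy] at hxy
      exact (c i).injective hxy
    · rw [hin i x hx, hout i y hy] at hxy
      exact absurd ⟨y, hy, hxy.symm⟩ (Set.disjoint_left.1 (hcd' i hi i hi) ⟨x, hx, rfl⟩)
    · rw [hout i x hx, hin i y hy] at hxy
      exact absurd ⟨x, hx, hxy⟩ (Set.disjoint_left.1 (hcd' i hi i hi) ⟨y, hy, rfl⟩)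
    · rw [hout i x hx, hout i y hy] at hxy
      exact (d i).injective hxy
  · rw [hrange]
    exact Set.union_subset (hcT i hi) ((hdT i hi).trans Set.sdiff_subset)
  · intro i hi j hj hij
    rw [hrange, hrange]
    refine Set.disjoint_union_left.2 ⟨Set.disjoint_union_right.2 ⟨hcd i hi j hj hij,
      hcd' i hi j hj⟩, Set.disjoint_union_right.2 ⟨(hcd' j hj i hi).symm, hdd i hi j hj hij⟩⟩
  · have hlt : ¬ T' ⊆ ⋃ i < n, d i '' TC7.halfᶜ := fun hle =>
      hdne (Set.Subset.antisymm hsub' hle)
    obtain ⟨y, hyT, hyn⟩ := Set.not_subset.1 hlt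
    refine ⟨y, hyT.1, ?_⟩
    intro hy
    simp only [Set.mem_iUnion] at hy hyn
    obtain ⟨i, hi, hy⟩ := hy
    rw [hrange] at hy
    rcases hy with hy | hy
    · exact hyT.2 (Set.mem_biUnion (show i ∈ {i | i < n} from hi) hy)
    · exact hyn ⟨i, hi, hy⟩

end Pool.Agent.Helper106.VG
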