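import Pool.Agent.Helper106.VG.Stmts

/-!
# Vigorous groups: commutators and 3-cycles (task C2)
-/

set_option autoImplicit false

namespace Pool.Agent.Helper106.VG

open Filter Topology

namespace TC2

theorem mul_app (g h : Hm) (x : Cn) : (g * h) x = g (h x) := rfl

theorem inv_app (g : Hm) (x : Cn) : g⁻¹ (g x) = x := g.symm_apply_apply x

theorem app_inv (g : Hm) (x : Cn) : g (g⁻¹ x) = x := g.apply_symm_apply x

theorem inv_eq {g : Hm} {x y : Cn} (h : g y = x) : g⁻¹ x = y := by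
  rw [← h, inv_app]

theorem cm_app (s t : Hm) (x : Cn) : cm s t x = s (t (s⁻¹ (t⁻¹ x))) := rfl

theorem comm : C_comm := by
  intro U s t hst hs ht
  have hs' : ∀ z ∈ U, s z ∉ U := fun z hz h => Set.disjoint_left.1 hs h ⟨z, hz, rfl⟩
  have ht' : ∀ z ∈ U, t z ∉ U := fun z hz h => Set.disjoint_left.1 ht h ⟨z, hz, rfl⟩
  refine ⟨fun z hz => ?_, fun z hz => ?_, fun z hz => ?_, fun y hy hys hyt => ?_⟩
  · have h1 : t⁻¹ z ∉ U := fun h => ht' _ h (by rw [app_inv]; exact hz)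
    have h2 : s (t⁻¹ z) = t⁻¹ z := by
      rcases hst _ h1 with h | h
      · exact h
      · rw [app_inv] at h
        exact absurd hz (h ▸ h1)
    rw [cm_app, inv_eq h2, app_inv]
  · have h1 : s z ∉ U := hs' z hz
    have h2 : t (s z) = s z := by
      rcases hst _ h1 with h | h
      · exact absurd hz (s.injective h ▸ h1)
      · exact h
    have h3 : t z ∉ U := ht' z hz
    have h4 : s (t z) = t z := by
      rcases hst _ h3 with h | h
      · exact h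
      · exact absurd hz (t.injective h ▸ h3)
    rw [cm_app, inv_eq h2, inv_app, h4]
  · have h1 : s⁻¹ z ∉ U := fun h => hs' _ h (by rw [app_inv]; exact hz)
    have h2 : t (s⁻¹ z) = s⁻¹ z := by
      rcases hst _ h1 with h | h
      · rw [app_inv] at h
        exact absurd hz (h ▸ h1)
      · exact h
    rw [cm_app, inv_app, h2, app_inv]
  · have hw : t⁻¹ y ∉ U := fun h => hyt ⟨_, h, app_inv t y⟩
    have hv : s⁻¹ y ∉ U := fun h => hys ⟨_, h, app_inv s y⟩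
    rcases hst y hy with h | h
    · -- `s y = y`
      rcases hst _ hw with h' | h'
      · rw [cm_app, inv_eq h', app_inv, h]
      · rw [app_inv] at h'
        have h2 : t y = y := by
          conv_lhs => rw [h']
          rw [app_inv]
        rw [cm_app, inv_eq h2, inv_eq h, h2, h]
    · rw [cm_app, inv_eq h]
      rcases hst _ hv with h' | h'
      · rw [app_inv] at h'
        have h2 : s y = y := by
          conv_lhs => rw [h']
          rw [app_inv]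
        rw [← h', h, h2]
      · rw [h', app_inv]

/-- (1.2) of the paper -/
theorem germ12 (hC : C_germ) (G : Subgroup Hm) (hV : Vigorous G) (hS : IsSimpleGroup G) (g : Hm)
    (hg : g ∈ G) (x : Cn) (hgx : g x ≠ x) (T : Set Cn) (hT : IsClopen T) (hTn : T.Nonempty) :
    ∃ W ∈ 𝓝 x, ∀ U : Set Cn, IsClopen U → U.Nonempty → U ⊆ W →
      ∃ h ∈ G, (∀ y ∈ U, h y = g y) ∧ ∀ y, y ∉ U → y ∉ g '' U → y ∉ T → h y = y := by
  obtain ⟨g', hg', hev, T', hT'T, hT'c, hT'n, hT'f⟩ := hC G hV hS g hg x T hT hTn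
  have hxT : x ∉ T' := fun h => hgx (by rw [← hev.self_of_nhds]; exact hT'f x h)
  refine ⟨{y | g' y = g y} ∩ T'ᶜ, inter_mem hev (hT'c.1.isOpen_compl.mem_nhds hxT), ?_⟩
  intro U hU hUn hUW
  have hUT : ∀ y ∈ U, y ∉ T' := fun y hy => (hUW hy).2
  have hUg : ∀ y ∈ U, g' y = g y := fun y hy => (hUW hy).1
  obtain ⟨u, hu⟩ := hUn
  obtain ⟨τ, hτ⟩ := hT'n
  obtain ⟨a, haG, haU, hafix⟩ := hV (U ∪ T') U T' (hU.union hT'c) hU hT'c ⟨u, hu⟩ ⟨τ, hτ⟩
    ⟨Set.subset_union_left, fun h => hUT τ (h (Or.inr hτ)) hτ⟩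
    ⟨Set.subset_union_right, fun h => hUT u hu (h (Or.inl hu))⟩
  refine ⟨g' * a⁻¹ * g'⁻¹ * a, G.mul_mem (G.mul_mem (G.mul_mem hg' (G.inv_mem haG)) (G.inv_mem hg')) haG,
    fun y hy => ?_, fun y hyU hygU hyT => ?_⟩
  · have h1 : a y ∈ T' := haU ⟨y, hy, rfl⟩
    show g' (a⁻¹ (g'⁻¹ (a y))) = g y
    rw [inv_eq (hT'f _ h1), inv_app, hUg y hy]
  · have h1 : a y = y := hafix y (by
      rintro (h | h)
      · exact hyU h
      · exact hyT (hT'T h))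
    show g' (a⁻¹ (g'⁻¹ (a y))) = y
    rw [h1]
    have h2 : g'⁻¹ y ∉ U ∪ T' := by
      rintro (h | h)
      · exact hygU ⟨_, h, by rw [← hUg _ h, app_inv]⟩
      · have := hT'f _ h
        rw [app_inv] at this
        exact hyT (hT'T (this ▸ h))
    rw [inv_eq (hafix _ h2), app_inv]

/-- two disjoint nonempty clopen sets away from three points -/
theorem two_sets (hR : A_room) (a b c : Cn) : ∃ T₁ T₂ : Set Cn, IsClopen T₁ ∧ IsClopen T₂ ∧
    T₁.Nonempty ∧ T₂.Nonempty ∧ Disjoint T₁ T₂ ∧ (∀ y ∈ ({a, b, c} : Set Cn), y ∉ T₁ ∪ T₂) := by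
  obtain ⟨x₁, -, -, O₁, hO₁, hx₁, -, hd₁, -⟩ := hR Set.univ {a, b, c} isOpen_univ Set.univ_nonempty
    (by simp)
  obtain ⟨x₂, -, -, O₂, hO₂, hx₂, hO₂₁, hd₂, -⟩ := hR O₁ {x₁} hO₁.2 ⟨x₁, hx₁⟩ (by simp)
  refine ⟨O₂, O₁ \ O₂, hO₂, hO₁.diff hO₂, ⟨x₂, hx₂⟩, ⟨x₁, hx₁, fun h => ?_⟩, ?_, fun y hy h => ?_⟩
  · exact Set.disjoint_left.1 hd₂ h rfl
  · exact Set.disjoint_sdiff_right
  · rw [Set.union_sdiff_cancel hO₂₁] at h
    exact Set.disjoint_left.1 hd₁ h hy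

/-- the local step -/
theorem loc_step (hC : C_germ) (hR : A_room) (G : Subgroup Hm) (hV : Vigorous G)
    (hS : IsSimpleGroup G) (D : Set Cn) (e : ℕ → Cn → Cn) (hD : CycD G 3 D e) (x : Cn) (hx : x ∈ D) :
    ∃ O, IsClopen O ∧ x ∈ O ∧ O ⊆ D ∧ ∀ V, IsClopen V → V.Nonempty → V ⊆ O →
      ∃ t ∈ G, IsCyc t 3 V e := by
  obtain ⟨g0, hg0, he0⟩ := hD.loc 0 (by norm_num) x hx
  obtain ⟨g1, hg1, he1⟩ := hD.loc 1 (by norm_num) x hx
  obtain ⟨g2, hg2, he2⟩ := hD.loc 2 (by norm_num) x hx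
  have hne : ∀ i < 3, ∀ j < 3, i ≠ j → e i x ≠ e j x := fun i hi j hj hij h =>
    Set.disjoint_left.1 (hD.disj i hi j hj hij) ⟨x, hx, rfl⟩ ⟨x, hx, h.symm⟩
  have n01 : g0 x ≠ g1 x := by
    rw [← he0.self_of_nhds, ← he1.self_of_nhds]; exact hne 0 (by norm_num) 1 (by norm_num) (by norm_num)
  have n02 : g0 x ≠ g2 x := by
    rw [← he0.self_of_nhds, ← he2.self_of_nhds]; exact hne 0 (by norm_num) 2 (by norm_num) (by norm_num)
  have n12 : g1 x ≠ g2 x := by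
    rw [← he1.self_of_nhds, ← he2.self_of_nhds]; exact hne 1 (by norm_num) 2 (by norm_num) (by norm_num)
  obtain ⟨T₁, T₂, hT₁, hT₂, hT₁n, hT₂n, hTd, hTa⟩ := two_sets hR (g0 x) (g1 x) (g2 x)
  obtain ⟨W₁, hW₁, h₁⟩ := germ12 hC G hV hS (g1 * g0⁻¹) (G.mul_mem hg1 (G.inv_mem hg0)) (g0 x)
    (by show g1 (g0⁻¹ (g0 x)) ≠ g0 x; rw [inv_app]; exact n01.symm) T₁ hT₁ hT₁n
  obtain ⟨W₂, hW₂, h₂⟩ := germ12 hC G hV hS (g2 * g0⁻¹) (G.mul_mem hg2 (G.inv_mem hg0)) (g0 x)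
    (by show g2 (g0⁻¹ (g0 x)) ≠ g0 x; rw [inv_app]; exact n02.symm) T₂ hT₂ hT₂n
  obtain ⟨A1, B1, oA1, oB1, aA1, bB1, d1⟩ := t2_separation n01
  obtain ⟨A2, C2, oA2, oC2, aA2, cC2, d2⟩ := t2_separation n02
  obtain ⟨B3, C3, oB3, oC3, bB3, cC3, d3⟩ := t2_separation n12
  have hTo : IsOpen (T₁ ∪ T₂)ᶜ := (hT₁.union hT₂).1.isOpen_compl
  -- the neighbourhood of `x`
  have hN : ∀ᶠ y in 𝓝 x, (e 0 y = g0 y ∧ e 1 y = g1 y ∧ e 2 y = g2 y) ∧
      (g0 y ∈ W₁ ∧ g0 y ∈ W₂ ∧ g0 y ∈ A1 ∧ g0 y ∈ A2 ∧ g0 y ∉ T₁ ∪ T₂) ∧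
      (g1 y ∈ B1 ∧ g1 y ∈ B3 ∧ g1 y ∉ T₁ ∪ T₂) ∧ (g2 y ∈ C2 ∧ g2 y ∈ C3 ∧ g2 y ∉ T₁ ∪ T₂) ∧
      y ∈ D := by
    have c0 : Tendsto g0 (𝓝 x) (𝓝 (g0 x)) := g0.continuous.continuousAt
    have c1 : Tendsto g1 (𝓝 x) (𝓝 (g1 x)) := g1.continuous.continuousAt
    have c2 : Tendsto g2 (𝓝 x) (𝓝 (g2 x)) := g2.continuous.continuousAt
    refine (he0.and (he1.and he2)).and (Eventually.and ?_ (Eventually.and ?_ (Eventually.and ?_ ?_)))
    · exact (c0.eventually hW₁).and ((c0.eventually hW₂).and ((c0.eventually (oA1.mem_nhds aA1)).and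
        ((c0.eventually (oA2.mem_nhds aA2)).and
          (c0.eventually (hTo.mem_nhds (hTa _ (by simp)))))))
    · exact (c1.eventually (oB1.mem_nhds bB1)).and ((c1.eventually (oB3.mem_nhds bB3)).and
          (c1.eventually (hTo.mem_nhds (hTa _ (by simp)))))
    · exact (c2.eventually (oC2.mem_nhds cC2)).and ((c2.eventually (oC3.mem_nhds cC3)).and
          (c2.eventually (hTo.mem_nhds (hTa _ (by simp)))))
    · exact hD.clop.2.mem_nhds hx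
  obtain ⟨O', hO'1, hO'2, hO'3⟩ := eventually_nhds_iff.1 hN
  obtain ⟨O, hO, hxO, hOO'⟩ := compact_exists_isClopen_in_isOpen hO'2 hO'3
  refine ⟨O, hO, hxO, fun y hy => (hO'1 y (hOO' hy)).2.2.2.2, ?_⟩
  intro V hVc hVn hVO
  have key : ∀ y ∈ V, (e 0 y = g0 y ∧ e 1 y = g1 y ∧ e 2 y = g2 y) ∧
      (g0 y ∈ W₁ ∧ g0 y ∈ W₂ ∧ g0 y ∈ A1 ∧ g0 y ∈ A2 ∧ g0 y ∉ T₁ ∪ T₂) ∧
      (g1 y ∈ B1 ∧ g1 y ∈ B3 ∧ g1 y ∉ T₁ ∪ T₂) ∧ (g2 y ∈ C2 ∧ g2 y ∈ C3 ∧ g2 y ∉ T₁ ∪ T₂) ∧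
      y ∈ D := fun y hy => hO'1 y (hOO' (hVO hy))
  set U : Set Cn := g0 '' V with hU
  have hUc : IsClopen U := ⟨g0.isClosed_image.2 hVc.1, g0.isOpen_image.2 hVc.2⟩
  obtain ⟨s, hsG, hsU, hsf⟩ := h₁ U hUc (hVn.image _) (by rintro _ ⟨y, hy, rfl⟩; exact (key y hy).2.1.1)
  obtain ⟨t, htG, htU, htf⟩ := h₂ U hUc (hVn.image _) (by rintro _ ⟨y, hy, rfl⟩; exact (key y hy).2.1.2.1)
  have hs0 : ∀ y ∈ V, s (g0 y) = g1 y := fun y hy => by
    rw [hsU _ ⟨y, hy, rfl⟩, mul_app, inv_app]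
  have ht0 : ∀ y ∈ V, t (g0 y) = g2 y := fun y hy => by
    rw [htU _ ⟨y, hy, rfl⟩, mul_app, inv_app]
  have hgU : (⇑(g1 * g0⁻¹) '' U) = g1 '' V := by
    rw [hU, Set.image_image]
    exact Set.image_congr fun y _ => by rw [mul_app, inv_app]
  have hhU : (⇑(g2 * g0⁻¹) '' U) = g2 '' V := by
    rw [hU, Set.image_image]
    exact Set.image_congr fun y _ => by rw [mul_app, inv_app]
  have hsUU : s '' U = g1 '' V := by
    rw [hU, Set.image_image]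
    exact Set.image_congr fun y hy => hs0 y hy
  have htUU : t '' U = g2 '' V := by
    rw [hU, Set.image_image]
    exact Set.image_congr fun y hy => ht0 y hy
  rw [hgU] at hsf
  rw [hhU] at htf
  have hd1 : Disjoint U (s '' U) := by
    rw [hsUU, Set.disjoint_left]
    rintro _ ⟨y, hy, rfl⟩ ⟨z, hz, hyz⟩
    exact Set.disjoint_left.1 d1 (key y hy).2.1.2.2.1 (hyz ▸ (key z hz).2.2.1.1)
  have hd2 : Disjoint U (t '' U) := by
    rw [htUU, Set.disjoint_left]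
    rintro _ ⟨y, hy, rfl⟩ ⟨z, hz, hyz⟩
    exact Set.disjoint_left.1 d2 (key y hy).2.1.2.2.2.1 (hyz ▸ (key z hz).2.2.2.1.1)
  have hst : ∀ y, y ∉ U → s y = y ∨ t y = y := by
    intro y hy
    by_cases h1 : y ∈ g1 '' V
    · right
      obtain ⟨z, hz, rfl⟩ := h1
      refine htf _ hy ?_ ?_
      · rintro ⟨w, hw, hwz⟩
        exact Set.disjoint_left.1 d3 (key z hz).2.2.1.2.1 (hwz ▸ (key w hw).2.2.2.1.2.1)
      · exact fun h => (key z hz).2.2.1.2.2 (Or.inr h)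
    · by_cases h2 : y ∈ T₁
      · right
        refine htf _ hy ?_ (fun h => Set.disjoint_left.1 hTd h2 h)
        rintro ⟨w, hw, rfl⟩
        exact (key w hw).2.2.2.1.2.2 (Or.inl h2)
      · left
        exact hsf y hy h1 h2
  obtain ⟨k1, k2, k3, k4⟩ := comm U s t hst hd1 hd2
  have hcm : cm s t ∈ G := G.mul_mem (G.mul_mem (G.mul_mem hsG htG) (G.inv_mem hsG)) (G.inv_mem htG)
  have i0 : e 0 '' V = U := Set.image_congr fun y hy => (key y hy).1.1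
  have i1 : e 1 '' V = g1 '' V := Set.image_congr fun y hy => (key y hy).1.2.1
  have i2 : e 2 '' V = g2 '' V := Set.image_congr fun y hy => (key y hy).1.2.2
  refine ⟨cm s t, hcm, ⟨?_, ?_⟩⟩
  · intro i hi z hz
    have hzU : g0 z ∈ U := ⟨z, hz, rfl⟩
    have q1 := k1 _ hzU
    have q2 := k2 _ hzU
    have q3 := k3 _ hzU
    rw [hs0 z hz] at q1 q2
    rw [ht0 z hz] at q2 q3
    obtain ⟨a0, a1, a2⟩ := (key z hz).1
    interval_cases i
    · show cm s t (e 0 z) = e 1 z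
      rw [a0, a1, q1]
    · show cm s t (e 1 z) = e 2 z
      rw [a1, a2, q2]
    · show cm s t (e 2 z) = e 0 z
      rw [a2, a0, q3]
  · intro y hy
    refine k4 y ?_ ?_ ?_
    · rw [← i0]; exact hy 0 (by norm_num)
    · rw [hsUU, ← i1]; exact hy 1 (by norm_num)
    · rw [htUU, ← i2]; exact hy 2 (by norm_num)

end TC2

theorem c_comm : C_comm := TC2.comm

theorem c_tri (hC : C_germ) (hA : A_ci) (hR : A_room) : C_tri := by
  intro G hV hS D e hD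
  have main : ∀ V, IsClopen V → ∃ t ∈ G, IsCyc t 3 (V ∩ D) e := by
    refine hA (fun V => ∃ t ∈ G, IsCyc t 3 (V ∩ D) e) ?_ ?_ ?_
    · refine ⟨1, G.one_mem, ⟨?_, ?_⟩⟩
      · rintro i - z ⟨hz, -⟩
        exact absurd hz (Set.notMem_empty z)
      · intro y _; rfl
    · rintro U V hU hV' hUV ⟨s, hs, cs⟩ ⟨t, ht, ct⟩
      have key : ∀ (A B : Set Cn), Disjoint A B → ∀ i < 3, ∀ z ∈ A ∩ D, ∀ j < 3,
          e i z ∉ e j '' (B ∩ D) := by
        rintro A B hAB i hi z ⟨hzA, hzD⟩ j hj ⟨w, ⟨hwB, hwD⟩, hw⟩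
        by_cases hij : i = j
        · subst hij
          have := hD.inj i hi hwD hzD hw
          exact Set.disjoint_left.1 hAB hzA (this ▸ hwB)
        · exact Set.disjoint_left.1 (hD.disj i hi j hj hij) ⟨z, hzD, rfl⟩ ⟨w, hwD, hw⟩
      refine ⟨s * t, G.mul_mem hs ht, ⟨?_, ?_⟩⟩
      · rintro i hi z ⟨hz | hz, hzD⟩
        · rw [TC2.mul_app, ct.fx _ (fun j hj => key U V hUV i hi z ⟨hz, hzD⟩ j hj), cs.mv i hi z ⟨hz, hzD⟩]
        · rw [TC2.mul_app, ct.mv i hi z ⟨hz, hzD⟩]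
          exact cs.fx _ (fun j hj => key V U hUV.symm _ (Nat.mod_lt _ (by norm_num)) z ⟨hz, hzD⟩ j hj)
      · intro y hy
        have h1 : ∀ i < 3, y ∉ e i '' (U ∩ D) := fun i hi h => hy i hi
          (Set.image_mono (Set.inter_subset_inter_left _ Set.subset_union_left) h)
        have h2 : ∀ i < 3, y ∉ e i '' (V ∩ D) := fun i hi h => hy i hi
          (Set.image_mono (Set.inter_subset_inter_left _ Set.subset_union_right) h)
        rw [TC2.mul_app, ct.fx y h2, cs.fx y h1]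
    · intro x
      by_cases hx : x ∈ D
      · obtain ⟨O, hO, hxO, hOD, h⟩ := TC2.loc_step hC hR G hV hS D e hD x hx
        refine ⟨O, hO, hxO, fun V hVc hVO => ?_⟩
        rw [Set.inter_eq_self_of_subset_left (hVO.trans hOD)]
        rcases V.eq_empty_or_nonempty with rfl | hVn
        · refine ⟨1, G.one_mem, ⟨?_, fun y _ => rfl⟩⟩
          rintro i - z hz
          exact absurd hz (Set.notMem_empty z)
        · exact h V hVc hVn hVO
      · refine ⟨Dᶜ, hD.clop.compl, hx, fun V _ hVD => ?_⟩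
        refine ⟨1, G.one_mem, ⟨?_, fun y _ => rfl⟩⟩
        rintro i - z ⟨hz, hzD⟩
        exact absurd hzD (hVD hz)
  have := main Set.univ isClopen_univ
  rwa [Set.univ_inter] at this

end Pool.Agent.Helper106.VG
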