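import Pool.Agent.Helper106.VG.Stmts

/-!
# Vigorous groups, task E3: `E_place`
-/

set_option autoImplicit false

namespace Pool.Agent.Helper106.VG

open Filter Topology

namespace TE3

theorem clop_im (g : Hm) {A : Set Cn} (hA : IsClopen A) : IsClopen (g '' A) :=
  ⟨g.isClosed_image.2 hA.1, g.isOpen_image.2 hA.2⟩

theorem mul_ap (g h : Hm) (x : Cn) : (g * h) x = g (h x) := rfl

theorem one_ap (x : Cn) : (1 : Hm) x = x := rfl

theorem inv_ap_ap (g : Hm) (x : Cn) : g⁻¹ (g x) = x := by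
  rw [← mul_ap, inv_mul_cancel, one_ap]

theorem ap_inv_ap (g : Hm) (x : Cn) : g (g⁻¹ x) = x := by
  rw [← mul_ap, mul_inv_cancel, one_ap]

/-- cylinders -/
def cyl (x : Cn) (n : ℕ) : Set Cn := {y | ∀ i < n, y i = x i}

theorem mem_cyl (x : Cn) (n : ℕ) : x ∈ cyl x n := fun _ _ => rfl

theorem clop_cyl (x : Cn) (n : ℕ) : IsClopen (cyl x n) := by
  have h : cyl x n = ⋂ i ∈ Set.Iio n, (fun y : Cn => y i) ⁻¹' {x i} := by
    ext y
    simp [cyl]
  rw [h]
  refine Set.Finite.isClopen_biInter (Set.finite_Iio n) ?_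
  intro i _
  exact (isClopen_discrete _).preimage (continuous_apply i)

theorem cyl_ev (x : Cn) {O : Set Cn} (hO : IsOpen O) (hx : x ∈ O) :
    ∀ᶠ n in atTop, cyl x n ⊆ O := by
  obtain ⟨I, u, hu, hsub⟩ := isOpen_pi_iff.1 hO x hx
  filter_upwards [eventually_gt_atTop (I.sup id)] with n hn
  intro y hy
  apply hsub
  intro i hi
  have hi' : i ≤ I.sup id := Finset.le_sup (f := id) hi
  have := hy i (lt_of_le_of_lt hi' hn)
  rw [this]
  exact (hu i hi).2

theorem sep (s t : Hm) (x y : Cn) (h : s x ≠ t y) :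
    ∀ᶠ n in atTop, Disjoint (s '' cyl x n) (t '' cyl y n) := by
  obtain ⟨U, V, hU, hV, hxU, hyV, hd⟩ := t2_separation h
  filter_upwards [cyl_ev x (hU.preimage s.continuous) hxU, cyl_ev y (hV.preimage t.continuous) hyV]
    with n h1 h2
  refine Set.disjoint_of_subset ?_ ?_ hd
  · rintro _ ⟨z, hz, rfl⟩
    exact h1 hz
  · rintro _ ⟨z, hz, rfl⟩
    exact h2 hz

theorem nbh (T : Set Hm) (hT : T.Finite) (n : ℕ) (x : ℕ → Cn) (O : ℕ → Set Cn)
    (hO : ∀ a < n, IsOpen (O a)) (hx : ∀ a < n, x a ∈ O a) :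
    ∃ U : ℕ → Set Cn, (∀ a, IsClopen (U a)) ∧ (∀ a, x a ∈ U a) ∧ (∀ a < n, U a ⊆ O a) ∧
      ∀ a < n, ∀ b < n, ∀ s ∈ T, ∀ t ∈ T, s (x a) ≠ t (x b) →
        Disjoint (s '' U a) (t '' U b) := by
  have h1 : ∀ᶠ N in atTop, ∀ a ∈ Set.Iio n, cyl (x a) N ⊆ O a := by
    rw [Filter.eventually_all_finite (Set.finite_Iio n)]
    intro a ha
    exact cyl_ev (x a) (hO a ha) (hx a ha)
  have h2 : ∀ᶠ N in atTop, ∀ a ∈ Set.Iio n, ∀ b ∈ Set.Iio n, ∀ s ∈ T, ∀ t ∈ T,
      s (x a) ≠ t (x b) → Disjoint (s '' cyl (x a) N) (t '' cyl (x b) N) := by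
    rw [Filter.eventually_all_finite (Set.finite_Iio n)]
    intro a ha
    rw [Filter.eventually_all_finite (Set.finite_Iio n)]
    intro b hb
    rw [Filter.eventually_all_finite hT]
    intro s hs
    rw [Filter.eventually_all_finite hT]
    intro t ht
    rw [Filter.eventually_imp_distrib_left]
    intro h
    exact sep s t _ _ h
  obtain ⟨N, hN1, hN2⟩ := (h1.and h2).exists
  exact ⟨fun a => cyl (x a) N, fun a => clop_cyl _ _, fun a => mem_cyl _ _, hN1, hN2⟩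

theorem pts (hA : A_room) (T : Set Hm) (hT : T.Finite) (O : ℕ → Set Cn) (n : ℕ)
    (hO : ∀ a < n, IsOpen (O a)) (hne : ∀ a < n, (O a).Nonempty) :
    ∃ x : ℕ → Cn, (∀ a < n, x a ∈ O a) ∧
      ∀ a < n, ∀ b < n, a ≠ b → ∀ s ∈ T, ∀ t ∈ T, s (x a) ≠ t (x b) := by
  induction n with
  | zero => exact ⟨fun _ _ => false, fun a ha => absurd ha (Nat.not_lt_zero a),
      fun a ha => absurd ha (Nat.not_lt_zero a)⟩
  | succ n ih =>
    obtain ⟨x, hx1, hx2⟩ := ih (fun a ha => hO a (Nat.lt_succ_of_lt ha))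
      (fun a ha => hne a (Nat.lt_succ_of_lt ha))
    have hfin : (⋃ b ∈ Set.Iio n, ⋃ s ∈ T, ⋃ t ∈ T, {(s⁻¹ : Hm) (t (x b))}).Finite := by
      refine Set.Finite.biUnion (Set.finite_Iio n) fun b _ => ?_
      refine Set.Finite.biUnion hT fun s _ => ?_
      refine Set.Finite.biUnion hT fun t _ => ?_
      exact Set.finite_singleton _
    obtain ⟨y, hy1, hy2, -⟩ := hA (O n) _ (hO n (Nat.lt_succ_self n)) (hne n (Nat.lt_succ_self n)) hfin
    have key : ∀ b < n, ∀ s ∈ T, ∀ t ∈ T, s y ≠ t (x b) := by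
      intro b hb s hs t ht he
      apply hy2
      simp only [Set.mem_iUnion, Set.mem_singleton_iff]
      exact ⟨b, hb, s, hs, t, ht, by rw [← he, inv_ap_ap]⟩
    refine ⟨Function.update x n y, ?_, ?_⟩
    · intro a ha
      rcases Nat.lt_succ_iff_lt_or_eq.1 ha with h | h
      · rw [Function.update_of_ne (Nat.ne_of_lt h)]
        exact hx1 a h
      · subst h
        rw [Function.update_self]
        exact hy1
    · intro a ha b hb hab s hs t ht
      rcases Nat.lt_succ_iff_lt_or_eq.1 ha with h | h <;>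
      rcases Nat.lt_succ_iff_lt_or_eq.1 hb with h' | h'
      · rw [Function.update_of_ne (Nat.ne_of_lt h), Function.update_of_ne (Nat.ne_of_lt h')]
        exact hx2 a h b h' hab s hs t ht
      · subst h'
        rw [Function.update_of_ne (Nat.ne_of_lt h), Function.update_self]
        exact fun he => key a h t ht s hs he.symm
      · subst h
        rw [Function.update_of_ne (Nat.ne_of_lt h'), Function.update_self]
        exact key b h' s hs t ht
      · exact absurd (h.trans h'.symm) hab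

/-- gluing finitely many pieces -/
theorem glue {G : Subgroup Hm} (hV : Vigorous G) (hS : IsSimpleGroup G) (hT : C_top) (hC : C_ext)
    {ι : Type} [Finite ι] (Z : ι → Set Cn) (γ : ι → Hm) (hZ : ∀ a, IsClopen (Z a))
    (hγ : ∀ a, γ a ∈ G) (hd : ∀ a b, a ≠ b → Disjoint (Z a) (Z b))
    (hd' : ∀ a b, a ≠ b → Disjoint (γ a '' Z a) (γ b '' Z b)) (hp : ∃ x, ∀ a, x ∉ Z a)
    (hp' : ∃ x, ∀ a, x ∉ γ a '' Z a) : ∃ t ∈ G, ∀ a, ∀ z ∈ Z a, t z = γ a z := by
  classical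
  set f : Cn → Cn := fun x => if h : ∃ a, x ∈ Z a then γ h.choose x else x with hf
  have hfa : ∀ a, ∀ x ∈ Z a, f x = γ a x := by
    intro a x hx
    have h : ∃ a, x ∈ Z a := ⟨a, hx⟩
    have hc : h.choose = a := by
      by_contra hne
      exact Set.disjoint_left.1 (hd _ _ hne) h.choose_spec hx
    rw [hf]
    simp only [dif_pos h]
    rw [hc]
  have h1 : IsClopen (⋃ a, Z a) := isClopen_iUnion_of_finite hZ
  have h2 : (⋃ a, Z a) ⊂ Set.univ := by
    rw [Set.ssubset_univ_iff]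
    intro he
    obtain ⟨x, hx⟩ := hp
    have : x ∈ ⋃ a, Z a := he ▸ Set.mem_univ x
    obtain ⟨a, ha⟩ := Set.mem_iUnion.1 this
    exact hx a ha
  have h3 : Loc G f (⋃ a, Z a) := by
    intro x hx
    obtain ⟨a, ha⟩ := Set.mem_iUnion.1 hx
    refine ⟨γ a, hγ a, ?_⟩
    filter_upwards [(hZ a).2.mem_nhds ha] with y hy
    exact hfa a y hy
  have h4 : Set.InjOn f (⋃ a, Z a) := by
    intro x hx y hy he
    obtain ⟨a, ha⟩ := Set.mem_iUnion.1 hx
    obtain ⟨b, hb⟩ := Set.mem_iUnion.1 hy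
    rw [hfa a x ha, hfa b y hb] at he
    by_cases hab : a = b
    · subst hab
      exact (γ a).injective he
    · exact absurd ⟨y, hb, he.symm⟩ (Set.disjoint_left.1 (hd' a b hab) ⟨x, ha, rfl⟩)
  have h5 : f '' (⋃ a, Z a) ⊂ Set.univ := by
    rw [Set.ssubset_univ_iff]
    intro he
    obtain ⟨x, hx⟩ := hp'
    have : x ∈ f '' (⋃ a, Z a) := he ▸ Set.mem_univ x
    obtain ⟨y, hy, hyx⟩ := this
    obtain ⟨a, ha⟩ := Set.mem_iUnion.1 hy
    exact hx a ⟨y, ha, by rw [← hfa a y ha, hyx]⟩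
  obtain ⟨t, ht, hz⟩ := hC G hV hS Set.univ (⋃ a, Z a) f isClopen_univ h1 h2 h3 h4 h5
  rw [hT G hV hS] at ht
  exact ⟨t, ht, fun a z hza => (hz z (Set.mem_iUnion.2 ⟨a, hza⟩)).trans (hfa a z hza)⟩

/-- open sets on which the `α i` agree or disagree -/
theorem opens {k : ℕ} (α : Fin k → Hm) (hα : ∀ i, α i ≠ 1) (j : Fin k) :
    ∃ O : Set Cn, IsOpen O ∧ O.Nonempty ∧ (∀ w ∈ O, α j w ≠ w) ∧
      ∀ i, (∀ w ∈ O, α i w = α j w) ∨ (∀ w ∈ O, α i w ≠ α j w) := by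
  have base : ∃ x, α j x ≠ x := by
    by_contra h
    push Not at h
    exact hα j (Homeomorph.ext h)
  have main : ∀ s : Finset (Fin k), ∃ O : Set Cn, IsOpen O ∧ O.Nonempty ∧ (∀ w ∈ O, α j w ≠ w) ∧
      ∀ i ∈ s, (∀ w ∈ O, α i w = α j w) ∨ (∀ w ∈ O, α i w ≠ α j w) := by
    intro s
    induction s using Finset.induction_on with
    | empty =>
      exact ⟨{w | α j w ≠ w}, isOpen_ne_fun (α j).continuous continuous_id, base,
        fun w hw => hw, fun i hi => absurd hi (Finset.notMem_empty i)⟩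
    | insert i s _ ih =>
      obtain ⟨O, hO, hne, hfix, hs⟩ := ih
      by_cases h : ∀ w ∈ O, α i w = α j w
      · refine ⟨O, hO, hne, hfix, fun i' hi' => ?_⟩
        rcases Finset.mem_insert.1 hi' with rfl | hi'
        · exact Or.inl h
        · exact hs i' hi'
      · push Not at h
        obtain ⟨w, hw, hne'⟩ := h
        refine ⟨O ∩ {w | α i w ≠ α j w},
          hO.inter (isOpen_ne_fun (α i).continuous (α j).continuous), ⟨w, hw, hne'⟩,
          fun w hw => hfix w hw.1, fun i' hi' => ?_⟩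
        rcases Finset.mem_insert.1 hi' with rfl | hi'
        · exact Or.inr fun w hw => hw.2
        · rcases hs i' hi' with h' | h'
          · exact Or.inl fun w hw => h' w hw.1
          · exact Or.inr fun w hw => h' w hw.1
  obtain ⟨O, h1, h2, h3, h4⟩ := main Finset.univ
  exact ⟨O, h1, h2, h3, fun i => h4 i (Finset.mem_univ i)⟩

theorem im_mem {z : Hm} {j : ℕ} {A : Set Cn} {x : Cn} (hx : x ∈ A) : (z ^ j : Hm) x ∈ im z j A :=
  ⟨x, hx, rfl⟩

theorem clop_imz (z : Hm) (j : ℕ) {A : Set Cn} (hA : IsClopen A) : IsClopen (im z j A) :=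
  clop_im _ hA

theorem im_mono (z : Hm) (j : ℕ) {A B : Set Cn} (h : A ⊆ B) : im z j A ⊆ im z j B :=
  Set.image_mono h

section Des

variable {G : Subgroup Hm} {k c0 c1 n0 n1 : ℕ} {z0 z1 δ x0 y0 : Hm} {E Q R F : Set Cn}
  (d : Design G k c0 c1 n0 n1 z0 z1 δ x0 y0 E Q R F)

include d

theorem clF : IsClopen F := by
  rw [d.F_eq]
  exact d.clE.union (clop_im z1 d.clQ)

theorem imF {l : ℕ} {x : Cn} (hx : x ∈ im z1 (2 * l) F) :
    x ∈ im z1 (2 * l) E ∨ x ∈ im z1 (2 * l + 1) Q := by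
  obtain ⟨f, hf, rfl⟩ := hx
  rw [d.F_eq] at hf
  rcases hf with hf | ⟨q, hq, rfl⟩
  · exact Or.inl (im_mem hf)
  · refine Or.inr ⟨q, hq, ?_⟩
    rw [pow_succ, mul_ap]

/-- every piece of `E`-type lies in some `E_m` -/
theorem imF' {l : ℕ} (hl : l < k) {x : Cn} (hx : x ∈ im z1 (2 * l) F) :
    ∃ m < c1, x ∈ im z1 m E ∧ (m = 2 * l ∨ m = 2 * l + 1) := by
  have := d.c1k
  rcases imF d hx with h | h
  · exact ⟨2 * l, by omega, h, Or.inl rfl⟩
  · exact ⟨2 * l + 1, by omega, im_mono _ _ d.QE h, Or.inr rfl⟩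

theorem eq_of_mem {m m' : ℕ} (hm : m < c1) (hm' : m' < c1) {x : Cn} (h : x ∈ im z1 m E)
    (h' : x ∈ im z1 m' E) : m = m' := by
  by_contra hne
  exact Set.disjoint_left.1 (d.disj1 m hm m' hm' hne) h h'

theorem srcDF {j l : ℕ} (hj : j < c0) (hl : l < k) :
    Disjoint (im z0 j (δ '' F)) (im z1 (2 * l) F) := by
  rw [Set.disjoint_left]
  intro x hx hx'
  obtain ⟨m, hm, h, -⟩ := imF' d hl hx'
  exact Set.disjoint_left.1 (d.disj01 j hj m hm) hx h

theorem srcDR {j m : ℕ} (hj : j < c0) (hm : m < c1) :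
    Disjoint (im z0 j (δ '' F)) (im z1 m R) :=
  Set.disjoint_of_subset_right (im_mono _ _ d.RE) (d.disj01 j hj m hm)

theorem srcFF {l l' : ℕ} (hl : l < k) (hl' : l' < k) (h : l ≠ l') :
    Disjoint (im z1 (2 * l) F) (im z1 (2 * l') F) := by
  rw [Set.disjoint_left]
  intro x hx hx'
  obtain ⟨m, hm, h1, h2⟩ := imF' d hl hx
  obtain ⟨m', hm', h1', h2'⟩ := imF' d hl' hx'
  have := eq_of_mem d hm hm' h1 h1'
  omega

theorem srcFR {l m : ℕ} (hl : l < k) (hm : m < c1) (h : m ≠ 2 * l) :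
    Disjoint (im z1 (2 * l) F) (im z1 m R) := by
  rw [Set.disjoint_left]
  intro x hx hx'
  have hk := d.c1k
  rcases imF d hx with h1 | h1
  · exact h (eq_of_mem d (by omega) hm h1 (im_mono _ _ d.RE hx')).symm
  · have := eq_of_mem d (by omega) hm (im_mono _ _ d.QE h1) (im_mono _ _ d.RE hx')
    subst this
    obtain ⟨q, hq, hq'⟩ := h1
    obtain ⟨r, hr, hr'⟩ := hx'
    have : q = r := ((z1 ^ (2 * l + 1) : Hm)).injective (hq'.trans hr'.symm)
    subst this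
    exact Set.disjoint_left.1 d.QR hq hr

theorem srcRR {m m' : ℕ} (hm : m < c1) (hm' : m' < c1) (h : m ≠ m') :
    Disjoint (im z1 m R) (im z1 m' R) :=
  Set.disjoint_of_subset (im_mono _ _ d.RE) (im_mono _ _ d.RE) (d.disj1 m hm m' hm' h)

end Des

end TE3

open TE3 in
theorem e_place (hA : A_room) (hB : B_small) (hT : C_top) (hC : C_ext) : E_place := by
  intro G hV hS k c0 c1 n0 n1 z0 z1 δ x0 y0 E Q R F d α hαG hα
  classical
  have hc0 := d.c0k
  have hc1 := d.c1k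
  -- the open sets
  choose O' hO1 hO2 hO3 hO4 using opens α hα
  set O : ℕ → Set Cn := fun j => if h : j < k then O' ⟨j, h⟩ else Set.univ with hOdef
  have hOe : ∀ i : Fin k, O i = O' i := by
    intro i
    rw [hOdef]
    simp only [dif_pos i.2]
  have hOo : ∀ j, IsOpen (O j) := by
    intro j
    by_cases h : j < k
    · have := hO1 ⟨j, h⟩
      rwa [← hOe ⟨j, h⟩] at this
    · rw [hOdef]
      simp only [dif_neg h]
      exact isOpen_univ
  have hOn : ∀ j, (O j).Nonempty := by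
    intro j
    by_cases h : j < k
    · have := hO2 ⟨j, h⟩
      rwa [← hOe ⟨j, h⟩] at this
    · rw [hOdef]
      simp only [dif_neg h]
      exact ⟨fun _ => false, trivial⟩
  -- the homeomorphisms
  set T : Set Hm := insert 1 (Set.range α) with hTdef
  have hTf : T.Finite := (Set.finite_range α).insert 1
  have h1T : (1 : Hm) ∈ T := Set.mem_insert _ _
  have hαT : ∀ i, α i ∈ T := fun i => Set.mem_insert_of_mem _ ⟨i, rfl⟩
  -- the points
  obtain ⟨x, hx1, hx2⟩ := pts hA T hTf O (c0 + c1 + 1) (fun a _ => hOo a) (fun a _ => hOn a)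
  -- the neighbourhoods
  obtain ⟨U, hU1, hU2, hU3, hU4⟩ := nbh T hTf (c0 + c1 + 1) x O (fun a _ => hOo a) hx1
  have sepd : ∀ a < c0 + c1 + 1, ∀ b < c0 + c1 + 1, a ≠ b → ∀ s ∈ T, ∀ t ∈ T,
      Disjoint (s '' U a) (t '' U b) := fun a ha b hb hab s hs t ht =>
    hU4 a ha b hb s hs t ht (hx2 a ha b hb hab s hs t ht)
  have hUO : ∀ i : Fin k, U i ⊆ O' i := by
    intro i
    have := hU3 i (by have := i.2; omega)
    rwa [hOe i] at this
  have hxO : ∀ i : Fin k, x i ∈ O' i := fun i => hUO i (hU2 i)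
  -- the small maps
  have hg : ∀ j : ℕ, j < c0 → ∃ g ∈ G, g '' im z0 j (δ '' F) ⊆ U j := by
    intro j hj
    have hne : im z0 j (δ '' F) ≠ Set.univ := by
      intro he
      obtain ⟨r, hr⟩ := d.Rne
      have h1 : (z1 ^ 0 : Hm) r ∈ im z1 0 R := im_mem hr
      exact Set.disjoint_left.1 (srcDR d hj (m := 0) (by omega)) (he ▸ Set.mem_univ _) h1
    obtain ⟨c, hc1, hc2, -⟩ := hB G hV 1 (im z0 j (δ '' F)) (U j)
      (clop_imz _ _ (clop_im _ (clF d))) hne (hU1 j) ⟨_, hU2 j⟩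
    exact ⟨c 0, hc1 0, hc2 0 one_pos⟩
  have hh : ∀ m : ℕ, m < c1 → ∃ g ∈ G, g '' im z1 m R ⊆ U (c0 + m) := by
    intro m hm
    have hne : im z1 m R ≠ Set.univ := by
      intro he
      obtain ⟨r, hr⟩ := d.Rne
      have h1 : (z0 ^ 0 : Hm) (δ r) ∈ im z0 0 (δ '' F) :=
        im_mem ⟨r, by rw [d.F_eq]; exact Or.inl (d.RE hr), rfl⟩
      exact Set.disjoint_left.1 (srcDR d (j := 0) (by omega) hm) h1 (he ▸ Set.mem_univ _)
    obtain ⟨c, hc1, hc2, -⟩ := hB G hV 1 (im z1 m R) (U (c0 + m))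
      (clop_imz _ _ d.clR) hne (hU1 _) ⟨_, hU2 _⟩
    exact ⟨c 0, hc1 0, hc2 0 one_pos⟩
  choose! g hgG hgU using hg
  choose! h hhG hhU using hh
  -- the pieces
  let τ : ℕ → Hm := fun l => z1 ^ (2 * l) * δ⁻¹ * (z0 ^ l)⁻¹
  have hτG : ∀ l, τ l ∈ G := fun l => G.mul_mem (G.mul_mem (G.pow_mem d.z1G _) (G.inv_mem d.δG))
    (G.inv_mem (G.pow_mem d.z0G _))
  have hτ1 : ∀ l, ∀ w ∈ im z1 (2 * l) F, (τ l)⁻¹ w ∈ im z0 l (δ '' F) := by
    rintro l _ ⟨f, hf, rfl⟩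
    refine ⟨δ f, ⟨f, hf, rfl⟩, ?_⟩
    have : (τ l)⁻¹ * (z1 ^ (2 * l) : Hm) = z0 ^ l * δ := by
      simp only [τ]
      group
    rw [← mul_ap (τ l)⁻¹, this]
    rfl
  have hτ2 : ∀ l, ∀ w ∈ im z0 l (δ '' F), τ l w ∈ im z1 (2 * l) F := by
    rintro l _ ⟨_, ⟨f, hf, rfl⟩, rfl⟩
    refine ⟨f, hf, ?_⟩
    have : τ l * (z0 ^ l : Hm) * δ = z1 ^ (2 * l) := by
      simp only [τ]
      group
    rw [← mul_ap, ← mul_ap, this]
  let ι : Type := Fin c0 ⊕ Fin k ⊕ {m : Fin c1 // ∀ l < k, (m : ℕ) ≠ 2 * l}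
  let Z : ι → Set Cn := Sum.elim (fun j => im z0 j (δ '' F))
    (Sum.elim (fun l => im z1 (2 * (l : ℕ)) F) (fun m => im z1 (m : ℕ) R))
  let γ : ι → Hm := Sum.elim (fun j => g j)
    (Sum.elim (fun l => α l * g l * (τ l)⁻¹) (fun m => h (m : ℕ)))
  -- the index and the homeomorphism of the target
  let nn : ι → ℕ := Sum.elim (fun j => (j : ℕ)) (Sum.elim (fun l => (l : ℕ)) (fun m => c0 + (m : ℕ)))
  let ss : ι → Hm := Sum.elim (fun _ => 1) (Sum.elim (fun l => α l) (fun _ => 1))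
  have hnn : ∀ a, nn a < c0 + c1 := by
    rintro (j | l | m)
    · have := j.2
      change (j : ℕ) < _
      omega
    · have := l.2
      change (l : ℕ) < _
      omega
    · have := m.1.2
      change c0 + ((m : Fin c1) : ℕ) < _
      omega
  have hss : ∀ a, ss a ∈ T := by
    rintro (j | l | m)
    · exact h1T
    · exact hαT l
    · exact h1T
  have hW : ∀ a, γ a '' Z a ⊆ ss a '' U (nn a) := by
    rintro (j | l | m)
    · rintro _ ⟨w, hw, rfl⟩
      exact ⟨g j w, hgU j j.2 ⟨w, hw, rfl⟩, rfl⟩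
    · rintro _ ⟨w, hw, rfl⟩
      exact ⟨g l ((τ l)⁻¹ w), hgU l (lt_trans l.2 hc0) ⟨_, hτ1 l w hw, rfl⟩, rfl⟩
    · rintro _ ⟨w, hw, rfl⟩
      exact ⟨h m w, hhU m m.1.2 ⟨w, hw, rfl⟩, rfl⟩
  have hZcl : ∀ a, IsClopen (Z a) := by
    rintro (j | l | m)
    · exact clop_imz _ _ (clop_im _ (clF d))
    · exact clop_imz _ _ (clF d)
    · exact clop_imz _ _ d.clR
  have hγG : ∀ a, γ a ∈ G := by
    rintro (j | l | m)
    · exact hgG j j.2
    · exact G.mul_mem (G.mul_mem (hαG l) (hgG l (lt_trans l.2 hc0))) (G.inv_mem (hτG l))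
    · exact hhG m m.1.2
  have hd : ∀ a b, a ≠ b → Disjoint (Z a) (Z b) := by
    rintro (j | l | m) (j' | l' | m') hab
    · exact d.disj0 j j.2 j' j'.2 fun h => hab (by rw [Fin.ext h])
    · exact srcDF d j.2 l'.2
    · exact srcDR d j.2 m'.1.2
    · exact (srcDF d j'.2 l.2).symm
    · exact srcFF d l.2 l'.2 fun h => hab (by rw [Fin.ext h])
    · exact srcFR d l.2 m'.1.2 (m'.2 l l.2)
    · exact (srcDR d j'.2 m.1.2).symm
    · exact (srcFR d l'.2 m.1.2 (m.2 l' l'.2)).symm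
    · exact srcRR d m.1.2 m'.1.2 fun h => hab (by rw [Subtype.ext (Fin.ext h)])
  have hself : ∀ l : Fin k, Disjoint ((1 : Hm) '' U l) (α l '' U l) := fun l =>
    hU4 l (by have := l.2; omega) l (by have := l.2; omega) 1 h1T (α l) (hαT l)
      fun he => hO3 l _ (hxO l) he.symm
  have htar : ∀ a b, a ≠ b → Disjoint (ss a '' U (nn a)) (ss b '' U (nn b)) := by
    intro a b hab
    by_cases hn : nn a = nn b
    · revert a b
      rintro (j | l | m) (j' | l' | m') hab hn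
      · exact absurd (by rw [Fin.ext (show (j : ℕ) = j' from hn)]) hab
      · have hn' : (j : ℕ) = l' := hn
        change Disjoint ((1 : Hm) '' U (j : ℕ)) (α l' '' U (l' : ℕ))
        rw [hn']
        exact hself l'
      · exact absurd (show (j : ℕ) = c0 + (m'.1 : ℕ) from hn) (by have := j.2; omega)
      · have hn' : (l : ℕ) = j' := hn
        change Disjoint (α l '' U (l : ℕ)) ((1 : Hm) '' U (j' : ℕ))
        rw [← hn']
        exact (hself l).symm
      · exact absurd (by rw [Fin.ext (show (l : ℕ) = l' from hn)]) hab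
      · exact absurd (show (l : ℕ) = c0 + (m'.1 : ℕ) from hn) (by have := l.2; omega)
      · exact absurd (show c0 + (m.1 : ℕ) = (j' : ℕ) from hn) (by have := j'.2; omega)
      · exact absurd (show c0 + (m.1 : ℕ) = (l' : ℕ) from hn) (by have := l'.2; omega)
      · have hn' : (m.1 : ℕ) = m'.1 := Nat.add_left_cancel hn
        exact absurd (by rw [Subtype.ext (Fin.ext hn')]) hab
    · exact sepd _ (lt_trans (hnn a) (Nat.lt_succ_self _)) _ (lt_trans (hnn b) (Nat.lt_succ_self _))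
        hn _ (hss a) _ (hss b)
  have hd' : ∀ a b, a ≠ b → Disjoint (γ a '' Z a) (γ b '' Z b) := fun a b hab =>
    Set.disjoint_of_subset (hW a) (hW b) (htar a b hab)
  have hp : ∃ x, ∀ a, x ∉ Z a := by
    obtain ⟨q, hq⟩ := d.Qne
    have hqE : (z1 ^ (c1 - 1) : Hm) q ∈ im z1 (c1 - 1) E := im_mem (d.QE hq)
    refine ⟨(z1 ^ (c1 - 1) : Hm) q, ?_⟩
    rintro (j | l | m) hmem
    · exact Set.disjoint_left.1 (d.disj01 j j.2 (c1 - 1) (by omega)) hmem hqE
    · obtain ⟨m, hm, h1, h2⟩ := imF' d l.2 hmem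
      have := eq_of_mem d hm (show c1 - 1 < c1 by omega) h1 hqE
      have := l.2
      omega
    · have hmem' : (z1 ^ (c1 - 1) : Hm) q ∈ im z1 (m.1 : ℕ) R := hmem
      have h1 := eq_of_mem d m.1.2 (show c1 - 1 < c1 by omega) (im_mono _ _ d.RE hmem') hqE
      rw [h1] at hmem'
      obtain ⟨r, hr, hr'⟩ := hmem'
      have : r = q := ((z1 ^ (c1 - 1) : Hm)).injective hr'
      subst this
      exact Set.disjoint_left.1 d.QR hq hr
  have hp' : ∃ x, ∀ a, x ∉ γ a '' Z a := by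
    refine ⟨x (c0 + c1), fun a ha => ?_⟩
    have h1 := hW a ha
    have h2 : x (c0 + c1) ∈ (1 : Hm) '' U (c0 + c1) := ⟨_, hU2 _, rfl⟩
    exact Set.disjoint_left.1 (sepd (nn a) (lt_trans (hnn a) (Nat.lt_succ_self _)) (c0 + c1)
      (Nat.lt_succ_self _) (Nat.ne_of_lt (hnn a)) _ (hss a) 1 h1T) h1 h2
  obtain ⟨t, htG, hz⟩ := glue hV hS hT hC Z γ hZcl hγG hd hd' hp hp'
  have ht1 : ∀ j < c0, ∀ z ∈ im z0 j (δ '' F), t z = g j z := fun j hj z hz' =>
    hz (Sum.inl ⟨j, hj⟩) z hz'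
  have ht2 : ∀ (j : ℕ) (hj : j < k), ∀ z ∈ im z1 (2 * j) F,
      t z = α ⟨j, hj⟩ (g j ((τ j)⁻¹ z)) := fun j hj z hz' =>
    hz (Sum.inr (Sum.inl ⟨j, hj⟩)) z hz'
  have ht3 : ∀ m < c1, (∀ l < k, m ≠ 2 * l) → ∀ z ∈ im z1 m R, t z = h m z :=
    fun m hm hm' z hz' => hz (Sum.inr (Sum.inr ⟨⟨m, hm⟩, hm'⟩)) z hz'
  refine ⟨t, htG, fun i => ⟨{j | ∃ hj : j < k, ∀ w ∈ O' ⟨j, hj⟩, α i w = α ⟨j, hj⟩ w},
    ⟨i.2, fun w _ => rfl⟩, fun j hj => hj.1, ?_, ?_⟩⟩
  · rintro j ⟨hj, hJ⟩ z hzD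
    have e1 : t z = g j z := ht1 j (lt_trans hj hc0) z hzD
    have e2 : g j z ∈ O' ⟨j, hj⟩ := hUO ⟨j, hj⟩ (hgU j (lt_trans hj hc0) ⟨z, hzD, rfl⟩)
    have e3 : t (τ j z) = α ⟨j, hj⟩ (g j z) := by
      rw [ht2 j hj (τ j z) (hτ2 j z hzD), inv_ap_ap]
    change t⁻¹ (α i (t z)) = τ j z
    rw [e1, hJ _ e2, ← e3, inv_ap_ap]
  · intro j hj hJ m hm
    rw [Set.disjoint_left]
    rintro _ ⟨z, hzD, rfl⟩ hy
    set y : Cn := (t⁻¹ * α i * t) z with hydef
    have e1 : t z = g j z := ht1 j hj z hzD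
    have e2 : g j z ∈ U j := hgU j hj ⟨z, hzD, rfl⟩
    have e3 : t y = α i (g j z) := by
      rw [hydef, mul_ap, mul_ap, ap_inv_ap, e1]
    by_cases hm' : ∀ l < k, m ≠ 2 * l
    · have e4 : t y ∈ U (c0 + m) := by
        rw [ht3 m hm hm' y hy]
        exact hhU m hm ⟨y, hy, rfl⟩
      exact Set.disjoint_left.1 (sepd j (by omega) (c0 + m) (by omega) (by omega) (α i) (hαT i) 1 h1T)
        ⟨_, e2, e3.symm⟩ ⟨_, e4, rfl⟩
    · push Not at hm'
      obtain ⟨l, hl, rfl⟩ := hm'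
      have hyF : y ∈ im z1 (2 * l) F :=
        im_mono _ _ (by rw [d.F_eq]; exact fun w hw => Or.inl (d.RE hw)) hy
      have e4 : t y ∈ α ⟨l, hl⟩ '' U l := by
        rw [ht2 l hl y hyF]
        exact ⟨_, hgU l (lt_trans hl hc0) ⟨_, hτ1 l y hyF, rfl⟩, rfl⟩
      by_cases hjl : j = l
      · subst hjl
        have e5 : α i (x j) ≠ α ⟨j, hl⟩ (x j) := by
          rcases hO4 ⟨j, hl⟩ i with h' | h'
          · exact absurd ⟨hl, h'⟩ hJ
          · exact h' _ (hxO ⟨j, hl⟩)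
        exact Set.disjoint_left.1 (hU4 j (by omega) j (by omega) (α i) (hαT i) (α ⟨j, hl⟩)
          (hαT _) e5) ⟨_, e2, e3.symm⟩ e4
      · exact Set.disjoint_left.1 (sepd j (by omega) l (by omega) hjl (α i) (hαT i) (α ⟨l, hl⟩)
          (hαT _)) ⟨_, e2, e3.symm⟩ e4

end Pool.Agent.Helper106.VG
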