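import Pool.Agent.Helper106.VG.Stmts

/-!
# Vigorous groups: task A (topological and local preliminaries)
-/

set_option autoImplicit false

namespace Pool.Agent.Helper106.VG

open Filter Topology

namespace TA

/-- every neighbourhood of a point contains a clopen one -/
theorem clopen_nhds {x : Cn} {U : Set Cn} (hU : U ∈ 𝓝 x) : ∃ O, IsClopen O ∧ x ∈ O ∧ O ⊆ U := by
  obtain ⟨V, hVU, hVo, hxV⟩ := mem_nhds_iff.1 hU
  obtain ⟨O, hO, hxO, hOV⟩ := compact_exists_isClopen_in_isOpen hVo hxV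
  exact ⟨O, hO, hxO, hOV.trans hVU⟩

/-- no point is isolated -/
theorem exists_ne {x : Cn} {U : Set Cn} (hU : U ∈ 𝓝 x) : ∃ y ∈ U, y ≠ x := by
  obtain ⟨V, hVU, hVo, hxV⟩ := mem_nhds_iff.1 hU
  rw [isOpen_pi_iff] at hVo
  obtain ⟨I, u, hu, hI⟩ := hVo x hxV
  obtain ⟨n, hn⟩ := Infinite.exists_notMem_finset I
  refine ⟨Function.update x n (!(x n)), hVU (hI ?_), fun h => ?_⟩
  · intro i hi
    have : i ≠ n := fun h => hn (h ▸ hi)
    rw [Function.update_of_ne this]
    exact (hu i hi).2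
  · have := congrFun h n
    simp at this

theorem infinite_open {T : Set Cn} (hT : IsOpen T) (hne : T.Nonempty) : T.Infinite := by
  obtain ⟨x, hx⟩ := hne
  intro hfin
  have : (T \ (T \ {x})) ∈ 𝓝 x := by
    have h1 : IsClosed (T \ {x}) := (hfin.subset Set.diff_subset).isClosed
    exact (hT.sdiff h1).mem_nhds ⟨hx, fun h => h.2 rfl⟩
  obtain ⟨y, hy, hyx⟩ := exists_ne this
  exact hy.2 ⟨hy.1, hyx⟩

end TA

theorem a_ci : A_ci := by
  intro P h0 hU hloc V hV
  have key : ∀ S : Set Cn, IsCompact S → ∃ O, IsClopen O ∧ S ⊆ O ∧ ∀ W, IsClopen W → W ⊆ O → P W := by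
    intro S hS
    refine hS.induction_on (p := fun S => ∃ O, IsClopen O ∧ S ⊆ O ∧ ∀ W, IsClopen W → W ⊆ O → P W)
      ?_ ?_ ?_ ?_
    · exact ⟨∅, isClopen_empty, le_rfl, fun W _ hW => by
        rw [Set.subset_empty_iff.1 hW]; exact h0⟩
    · rintro s t hst ⟨O, hO, htO, h⟩
      exact ⟨O, hO, hst.trans htO, h⟩
    · rintro s t ⟨O, hO, hsO, h⟩ ⟨O', hO', htO', h'⟩
      refine ⟨O ∪ O', hO.union hO', Set.union_subset_union hsO htO', fun W hW hWO => ?_⟩
      have : W = (W ∩ O) ∪ (W \ O) := (Set.inter_union_diff W O).symm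
      rw [this]
      refine hU _ _ (hW.inter hO) (hW.diff hO) ?_ (h _ (hW.inter hO) Set.inter_subset_right)
        (h' _ (hW.diff hO) ?_)
      · exact Set.disjoint_left.2 fun x hx hx' => hx'.2 hx.2
      · rintro x ⟨hxW, hxO⟩
        exact (hWO hxW).resolve_left hxO
    · intro x _
      obtain ⟨O, hO, hxO, h⟩ := hloc x
      exact ⟨O, mem_nhdsWithin_of_mem_nhds (hO.isOpen.mem_nhds hxO), O, hO, le_rfl, h⟩
  obtain ⟨O, _, hVO, h⟩ := key V hV.isClosed.isCompact
  exact h V hV hVO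

theorem a_room : A_room := by
  intro T S hT hne hS
  obtain ⟨x, hx⟩ := (TA.infinite_open hT hne).diff hS |>.nonempty
  have h1 : (T \ S) ∈ 𝓝 x := (hT.sdiff hS.isClosed).mem_nhds hx
  obtain ⟨y, hy, hyx⟩ := TA.exists_ne h1
  have h2 : ((T \ S) \ {y}) ∈ 𝓝 x :=
    ((hT.sdiff hS.isClosed).sdiff isClosed_singleton).mem_nhds ⟨hx, fun h => hyx h.symm⟩
  obtain ⟨O, hO, hxO, hOU⟩ := TA.clopen_nhds h2
  refine ⟨x, hx.1, hx.2, O, hO, hxO, fun z hz => (hOU hz).1.1, ?_, fun h => ?_⟩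
  · exact Set.disjoint_left.2 fun z hz hzS => (hOU hz).1.2 hzS
  · have : y ∈ O := h ▸ hy.1
    exact (hOU this).2 rfl

theorem b_img : B_img := by
  intro G f U hf hU
  refine ⟨?_, ?_⟩
  · refine (hU.isClosed.isCompact.image_of_continuousOn ?_).isClosed
    intro x hx
    obtain ⟨g, _, hg⟩ := hf x hx
    have : ContinuousAt f x := by
      refine ContinuousAt.congr (g.continuous.continuousAt) ?_
      filter_upwards [hg] with y hy using hy.symm
    exact this.continuousWithinAt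
  · rw [isOpen_iff_mem_nhds]
    rintro _ ⟨x, hx, rfl⟩
    obtain ⟨g, _, hg⟩ := hf x hx
    have h1 : U ∩ {y | f y = g y} ∈ 𝓝 x := inter_mem (hU.isOpen.mem_nhds hx) hg
    have h2 : g '' (U ∩ {y | f y = g y}) ∈ 𝓝 (g x) := by
      rw [← g.map_nhds_eq x]
      exact image_mem_map h1
    have hfx : f x = g x := hg.self_of_nhds
    rw [hfx]
    refine mem_of_superset h2 ?_
    rintro _ ⟨y, ⟨hyU, hy⟩, rfl⟩
    exact ⟨y, hyU, hy⟩

theorem b_inv : B_inv := by
  rintro G f U hf hU hinj _ ⟨x, hx, rfl⟩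
  obtain ⟨g, hgG, hg⟩ := hf x hx
  refine ⟨g⁻¹, G.inv_mem hgG, ?_⟩
  have hfx : f x = g x := hg.self_of_nhds
  have h1 : g '' (U ∩ {y | f y = g y}) ∈ 𝓝 (f x) := by
    rw [hfx, ← g.map_nhds_eq x]
    exact image_mem_map (inter_mem (hU.isOpen.mem_nhds hx) hg)
  filter_upwards [h1]
  rintro _ ⟨y, ⟨hyU, hy⟩, rfl⟩
  have h2 : (g⁻¹ : Hm) (g y) = y := g.symm_apply_apply y
  rw [h2, ← hy]
  exact hinj.leftInvOn_invFunOn hyU

theorem b_comp : B_comp := by
  intro G f g U hf hg x hx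
  obtain ⟨a, ha, hfa⟩ := hf x hx
  obtain ⟨b, hb, hgb⟩ := hg (f x) ⟨x, hx, rfl⟩
  refine ⟨b * a, G.mul_mem hb ha, ?_⟩
  have hfx : f x = a x := hfa.self_of_nhds
  have hcont : ContinuousAt f x := by
    refine ContinuousAt.congr (a.continuous.continuousAt) ?_
    filter_upwards [hfa] with y hy using hy.symm
  have h1 := hcont.eventually hgb
  filter_upwards [hfa, h1] with y h2 h3
  show g (f y) = b (a y)
  rw [h3, h2]

theorem b_ite : B_ite := by
  intro G f g U E _ hE hf hg x hx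
  by_cases hxE : x ∈ E
  · obtain ⟨a, ha, hfa⟩ := hf x ⟨hx, hxE⟩
    refine ⟨a, ha, ?_⟩
    filter_upwards [hfa, hE.isOpen.mem_nhds hxE] with y h1 h2
    rw [if_pos h2, h1]
  · obtain ⟨a, ha, hga⟩ := hg x ⟨hx, hxE⟩
    refine ⟨a, ha, ?_⟩
    filter_upwards [hga, hE.compl.isOpen.mem_nhds hxE] with y h1 h2
    rw [if_neg h2, h1]

theorem b_move : B_move := by
  intro G hv A x hA hx
  obtain ⟨y, hyA, hyx⟩ := TA.exists_ne (hA.isOpen.mem_nhds hx)
  obtain ⟨B, hB, hxB, hBA⟩ := TA.clopen_nhds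
    ((hA.isOpen.sdiff (isClosed_singleton (x := y))).mem_nhds ⟨hx, fun h => hyx h.symm⟩)
  obtain ⟨c, hc, hcB, hcf⟩ := hv A B (A \ B) hA hB (hA.diff hB) ⟨x, hxB⟩
    ⟨y, hyA, fun h => (hBA h).2 rfl⟩
    ⟨fun z hz => (hBA hz).1, fun h => (hBA (h hyA)).2 rfl⟩
    ⟨Set.diff_subset, fun h => (h hx).2 hxB⟩
  refine ⟨c, hc, fun h => ?_, hcf⟩
  exact (hcB ⟨x, hxB, h⟩).2 hxB

theorem b_small : B_small := by
  intro G hv n B T hB hBu hT hTne
  -- disjoint nonempty clopen subsets of `T`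
  have hsub : ∀ n : ℕ, ∃ W : ℕ → Set Cn, (∀ i < n, IsClopen (W i) ∧ (W i).Nonempty ∧ W i ⊆ T) ∧
      (∀ i < n, ∀ j < n, i ≠ j → Disjoint (W i) (W j)) ∧ (T \ ⋃ i < n, W i).Nonempty := by
    intro n
    induction n with
    | zero => exact ⟨fun _ => ∅, by simp, by simp, by simpa using hTne⟩
    | succ n ih =>
      obtain ⟨W, h1, h2, h3⟩ := ih
      have hcl : IsClopen (T \ ⋃ i < n, W i) := by
        refine hT.diff ?_
        have : (⋃ i < n, W i) = ⋃ i ∈ Finset.range n, W i := by simp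
        rw [this]
        exact Set.Finite.isClopen_biUnion (Finset.finite_toSet _)
          (fun i hi => (h1 i (by simpa using hi)).1)
      obtain ⟨x, hx, _, O, hO, hxO, hOT, _, hOne⟩ := a_room _ ∅ hcl.isOpen h3 Set.finite_empty
      refine ⟨fun i => if i < n then W i else O, fun i hi => ?_, fun i hi j hj hij => ?_, ?_⟩
      · by_cases hin : i < n
        · simpa [hin] using h1 i hin
        · simp only [hin, if_false]
          exact ⟨hO, ⟨x, hxO⟩, fun z hz => (hOT hz).1⟩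
      · have hd : ∀ i < n, Disjoint (W i) O := fun i hi => Set.disjoint_left.2 fun z hz hzO =>
          (hOT hzO).2 (Set.mem_biUnion (show i ∈ {i | i < n} from hi) hz)
        by_cases hin : i < n <;> by_cases hjn : j < n
        · simpa [hin, hjn] using h2 i hin j hjn hij
        · simpa [hin, hjn] using hd i hin
        · simpa [hin, hjn] using (hd j hjn).symm
        · omega
      · have hex : ∃ z ∈ (T \ ⋃ i < n, W i), z ∉ O := by
          by_contra hcon
          push Not at hcon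
          exact hOne (Set.Subset.antisymm hOT hcon)
        obtain ⟨z, hz, hzO⟩ := hex
        refine ⟨z, hz.1, fun h => ?_⟩
        simp only [Set.mem_iUnion] at h
        obtain ⟨i, hi, hzi⟩ := h
        by_cases hin : i < n
        · simp only [hin, if_true] at hzi
          exact hz.2 (Set.mem_biUnion (show i ∈ {i | i < n} from hin) hzi)
        · simp only [hin, if_false] at hzi
          exact hzO hzi
  obtain ⟨W, h1, h2, h3⟩ := hsub n
  by_cases hBne : B.Nonempty
  · have hc : ∀ i, ∃ c ∈ G, i < n → c '' B ⊆ W i := by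
      intro i
      by_cases hi : i < n
      · have hWu : W i ≠ Set.univ := by
          intro hcon
          obtain ⟨z, hz⟩ := h3
          refine hz.2 (Set.mem_biUnion (show i ∈ {i | i < n} from hi) ?_)
          rw [hcon]; trivial
        obtain ⟨c, hc, hcB, _⟩ := hv Set.univ B (W i) isClopen_univ hB (h1 i hi).1 hBne
          (h1 i hi).2.1 (Set.ssubset_univ_iff.2 hBu) (Set.ssubset_univ_iff.2 hWu)
        exact ⟨c, hc, fun _ => hcB⟩
      · exact ⟨1, G.one_mem, fun h => absurd h hi⟩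
    choose c hcG hcW using hc
    refine ⟨c, hcG, fun i hi => (hcW i hi).trans (h1 i hi).2.2, fun i hi j hj hij => ?_, ?_⟩
    · exact (h2 i hi j hj hij).mono (hcW i hi) (hcW j hj)
    · intro hcon
      obtain ⟨z, hz⟩ := h3
      have hz2 : z ∈ ⋃ i < n, c i '' B := by rw [hcon]; exact hz.1
      simp only [Set.mem_iUnion] at hz2
      obtain ⟨i, hi, hzi⟩ := hz2
      exact hz.2 (Set.mem_biUnion (show i ∈ {i | i < n} from hi) (hcW i hi hzi))
  · rw [Set.not_nonempty_iff_eq_empty] at hBne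
    subst hBne
    refine ⟨fun _ => 1, fun _ => G.one_mem, by simp, by simp, ?_⟩
    simp only [Set.image_empty, Set.iUnion_empty]
    exact fun h => hTne.ne_empty h.symm

end Pool.Agent.Helper106.VG
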