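import Pool.Agent.Helper106.VG.Stmts

/-!
# Vigorous groups: assembly of the final theorem from the task statements
-/

set_option autoImplicit false

namespace Pool.Agent.Helper106.VG

open Filter Topology

theorem asm_spread (hD : D_design) (h1 : E_one) (hl : E_link) (hp : E_place)
    (G : Subgroup Hm) (hv : Vigorous G) (hs : IsSimpleGroup G) (hf : Group.FG G) (k : ℕ) :
    USpreadGE G k := by
  obtain ⟨c0, c1, n0, n1, z0, z1, δ, x0, y0, E, Q, R, F, hd⟩ := hD G hv hs hf k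
  refine ⟨⟨z0 * z1, G.mul_mem hd.z0G hd.z1G⟩, fun α hα => ?_⟩
  obtain ⟨γ, hγ, hJ⟩ := hp G hv hs k c0 c1 n0 n1 z0 z1 δ x0 y0 E Q R F hd
    (fun i => (α i : Hm)) (fun i => (α i).2) (fun i h => hα i (Subtype.ext h))
  refine ⟨⟨γ * (z0 * z1) * γ⁻¹, G.mul_mem (G.mul_mem hγ (G.mul_mem hd.z0G hd.z1G))
    (G.inv_mem hγ)⟩, ?_, fun i => ?_⟩
  · rw [isConj_iff]
    exact ⟨⟨γ, hγ⟩, Subtype.ext rfl⟩
  · obtain ⟨J, hiJ, hadm⟩ := hJ i
    have hα' : γ⁻¹ * (α i : Hm) * γ ∈ G :=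
      G.mul_mem (G.mul_mem (G.inv_mem hγ) (α i).2) hγ
    have hle : G ≤ Subgroup.closure {γ⁻¹ * (α i : Hm) * γ, z0 * z1} :=
      hl G hv hs k c0 c1 n0 n1 z0 z1 δ x0 y0 E Q R F hd _ hα' J ⟨_, hiJ⟩ hadm
        (h1 G hv hs k c0 c1 n0 n1 z0 z1 δ x0 y0 E Q R F hd _ hα' J ⟨_, hiJ⟩ hadm)
    set L : Subgroup Hm := Subgroup.closure {(α i : Hm), γ * (z0 * z1) * γ⁻¹} with hL
    have hle2 : Subgroup.closure {γ⁻¹ * (α i : Hm) * γ, z0 * z1} ≤
        L.comap (MulAut.conj γ).toMonoidHom := by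
      rw [Subgroup.closure_le]
      rintro x (rfl | rfl)
      · show γ * (γ⁻¹ * (α i : Hm) * γ) * γ⁻¹ ∈ L
        have : γ * (γ⁻¹ * (α i : Hm) * γ) * γ⁻¹ = (α i : Hm) := by group
        rw [this]
        exact Subgroup.subset_closure (by simp)
      · show γ * (z0 * z1) * γ⁻¹ ∈ L
        exact Subgroup.subset_closure (by simp)
    have hGL : G ≤ L := by
      intro g hg
      have h3 : γ⁻¹ * g * γ ∈ G := G.mul_mem (G.mul_mem (G.inv_mem hγ) hg) hγ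
      have h4 : γ * (γ⁻¹ * g * γ) * γ⁻¹ ∈ L := hle2 (hle h3)
      have h5 : γ * (γ⁻¹ * g * γ) * γ⁻¹ = g := by group
      rwa [h5] at h4
    rw [eq_top_iff]
    rintro ⟨g, hg⟩ -
    have h6 : g ∈ (Subgroup.closure {α i, (⟨γ * (z0 * z1) * γ⁻¹, G.mul_mem (G.mul_mem hγ
        (G.mul_mem hd.z0G hd.z1G)) (G.inv_mem hγ)⟩ : G)}).map G.subtype := by
      rw [MonoidHom.map_closure]
      have : (G.subtype '' {α i, (⟨γ * (z0 * z1) * γ⁻¹, G.mul_mem (G.mul_mem hγ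
        (G.mul_mem hd.z0G hd.z1G)) (G.inv_mem hγ)⟩ : G)}) =
          {(α i : Hm), γ * (z0 * z1) * γ⁻¹} := by
        simp [Set.image_pair]
      rw [this]
      exact hGL hg
    obtain ⟨y, hy, hyg⟩ := h6
    have : y = ⟨g, hg⟩ := Subtype.ext hyg
    rwa [this] at hy

theorem asm_top (G : Type) [Group G] (h : ∀ k, USpreadGE G k) : uSpread G = ⊤ := by
  rw [uSpread, ENat.eq_top_iff_forall_ge]
  intro m
  exact le_iSup (fun k : {k : ℕ // USpreadGE G k} => (k.1 : ℕ∞)) ⟨m, h m⟩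

/-- The final theorem, from the statements of the tasks. -/
theorem asm_final (hD : D_design) (h1 : E_one) (hl : E_link) (hp : E_place)
    (G : Subgroup Hm) (hv : Vigorous G) (hs : IsSimpleGroup G) (hf : Group.FG G) :
    uSpread G = ⊤ :=
  asm_top G (asm_spread hD h1 hl hp G hv hs hf)

end Pool.Agent.Helper106.VG
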