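import Pool.Agent.Helper106.VG.Stmts

/-!
# Vigorous groups, task D1: the generating pair inside `F`
-/

set_option autoImplicit false

namespace Pool.Agent.Helper106.VG

open Filter Topology

namespace TD1

theorem loc_of_mem {G : Subgroup Hm} {c : Hm} (hc : c ∈ G) (U : Set Cn) : Loc G c U :=
  fun _ _ => ⟨c, hc, Eventually.of_forall fun _ => rfl⟩

theorem loc_id (G : Subgroup Hm) (U : Set Cn) : Loc G (fun x => x) U :=
  fun _ _ => ⟨1, one_mem G, Eventually.of_forall fun _ => rfl⟩

theorem triSet_mono {G : Subgroup Hm} {A B : Set Cn} (h : A ⊆ B) : TriSet G A ⊆ TriSet G B := by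
  rintro t ⟨D, e, h1, h2, h3⟩
  exact ⟨D, e, h1, h2, fun i hi => (h3 i hi).trans h⟩

theorem alt_mono {G : Subgroup Hm} {A B : Set Cn} (h : A ⊆ B) : Alt G A ≤ Alt G B :=
  Subgroup.closure_mono (triSet_mono h)

theorem cyc_iter {t : Hm} {n : ℕ} {D : Set Cn} {e : ℕ → Cn → Cn} (h : IsCyc t n D e) {i : ℕ}
    (hi : i < n) {z : Cn} (hz : z ∈ D) (k : ℕ) : (t ^ k : Hm) (e i z) = e ((i + k) % n) z := by
  induction k with
  | zero =>
    rw [pow_zero, Nat.add_zero, Nat.mod_eq_of_lt hi]
    rfl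
  | succ k ih =>
    rw [pow_succ']
    show t ((t ^ k : Hm) (e i z)) = _
    rw [ih, h.mv _ (Nat.mod_lt _ (by omega)) z hz]
    congr 1
    rw [Nat.mod_add_mod, Nat.add_assoc]

theorem cyc_pow {t : Hm} {n : ℕ} {D : Set Cn} {e : ℕ → Cn → Cn} (h : IsCyc t n D e) :
    t ^ n = 1 := by
  refine Homeomorph.ext fun y => ?_
  show (t ^ n : Hm) y = y
  by_cases hy : ∃ i < n, y ∈ e i '' D
  · obtain ⟨i, hi, z, hz, rfl⟩ := hy
    rw [cyc_iter h hi hz, Nat.add_mod_right, Nat.mod_eq_of_lt hi]
  · push Not at hy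
    have h1 := h.fx y hy
    have : ∀ k, (t ^ k : Hm) y = y := by
      intro k
      induction k with
      | zero => rfl
      | succ k ih =>
        rw [pow_succ']
        show t ((t ^ k : Hm) y) = y
        rw [ih, h1]
    exact this n

theorem tri_cube {G : Subgroup Hm} {A : Set Cn} {t : Hm} (h : t ∈ TriSet G A) : t ^ 3 = 1 := by
  obtain ⟨D, e, -, h2, -⟩ := h
  exact cyc_pow h2

theorem cube_apply {t : Hm} (h : t ^ 3 = 1) (y : Cn) : t (t (t y)) = y := by
  have : (t ^ 3 : Hm) y = y := by rw [h]; rfl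
  rw [pow_succ, pow_succ, pow_one] at this
  exact this

theorem tri_supp {G : Subgroup Hm} {A : Set Cn} {t : Hm} (h : t ∈ TriSet G A) {y : Cn}
    (hy : y ∉ A) : t y = y := by
  obtain ⟨D, e, -, h2, h3⟩ := h
  exact h2.fx y fun i hi hy' => hy (h3 i hi hy')

theorem tri_maps {G : Subgroup Hm} {A : Set Cn} {t : Hm} (h : t ∈ TriSet G A) {y : Cn}
    (hy : y ∈ A) : t y ∈ A := by
  by_contra hn
  have h1 : t (t y) = t y := tri_supp h hn
  have h2 : t y = y := t.injective h1
  rw [h2] at hn
  exact hn hy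

/-- the partial products of the copies -/
def Pr (l : Hm) (cu cv : ℕ → Hm) : ℕ → Hm
  | 0 => l
  | (m + 1) => Pr l cu cv m * (cu m * cv m)

end TD1

open TD1

theorem d_pair (hBimg : B_img) (hBcomp : B_comp) (hBsmall : B_small) (hCtri : C_tri)
    (hCcyc : C_cyc) (hCcopy : C_copy) : D_pair := by
  intro G hV hS n u v huv F N h hN hNn hB
  -- powers of two are in range
  have hpow : ∀ i < 2 * n + 3, 2 ^ i < N := by
    intro i hi
    have : 2 ^ i ≤ 2 ^ (2 * n + 3) := Nat.pow_le_pow_right (by norm_num) hi.le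
    omega
  have hpne : ∀ i j : ℕ, i ≠ j → (2 : ℕ) ^ i ≠ 2 ^ j := fun i j hij hc =>
    hij (Nat.pow_right_injective le_rfl hc)
  have hdisj : ∀ i < 2 * n + 3, ∀ j < 2 * n + 3, i ≠ j →
      Disjoint (Set.range (h (2 ^ i))) (Set.range (h (2 ^ j))) := fun i hi j hj hij =>
    hB.disj _ (hpow i hi) _ (hpow j hj) (hpne i j hij)
  have hclY : ∀ a < N, IsClopen (Set.range (h a)) := by
    intro a ha
    rw [← Set.image_univ]
    exact hBimg G (h a) Set.univ (hB.loc a ha) isClopen_univ
  have hclU : IsClopen (⋃ a < N, Set.range (h a)) :=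
    (Set.finite_lt_nat N).isClopen_biUnion fun a ha => hclY a ha
  set V : Set Cn := F \ ⋃ a < N, Set.range (h a) with hVdef
  have hclV : IsClopen V := hB.clF.diff hclU
  have hVY : ∀ a < N, Disjoint V (Set.range (h a)) := by
    intro a ha
    rw [Set.disjoint_left]
    rintro y ⟨-, hy⟩ hy'
    exact hy (Set.mem_iUnion₂.2 ⟨a, ha, hy'⟩)
  have hVne : V ≠ Set.univ := by
    intro hu
    have := hVY 0 (lt_of_le_of_lt (Nat.zero_le _) hNn)
    rw [hu, Set.univ_disjoint] at this
    have h0 : h 0 (fun _ => false) ∈ Set.range (h 0) := ⟨_, rfl⟩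
    rw [this] at h0
    exact h0
  -- the long cycle
  obtain ⟨x, hxF, hxc⟩ := hCcyc G hV hS N F Set.univ h hN
    { clop := isClopen_univ
      loc := hB.loc
      inj := fun i hi => (hB.inj i hi).injOn
      disj := by
        intro i hi j hj hij
        rw [Set.image_univ, Set.image_univ]
        exact hB.disj i hi j hj hij }
    (fun i hi => by rw [Set.image_univ]; exact hB.sub i hi)
  -- the 5-cycle
  obtain ⟨c, hcG, hcT, hcd, -⟩ := hBsmall G hV 4 V (Set.range (h (2 ^ (2 * n + 2)))) hclV hVne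
    (hclY _ (hpow _ (by omega))) ⟨_, ⟨fun _ => false, rfl⟩⟩
  set e5 : ℕ → Cn → Cn := fun i => if i = 0 then (fun x => x) else (c (i - 1) : Cn → Cn) with he5
  have he50 : e5 0 = fun x => x := by simp [he5]
  have he5s : ∀ i, e5 (i + 1) = (c i : Cn → Cn) := by intro i; simp [he5]
  have hcV : ∀ i < 4, Disjoint V (c i '' V) := by
    intro i hi
    exact (hVY _ (hpow (2 * n + 2) (by omega))).mono_right (hcT i hi)
  obtain ⟨l5, hl5F, hl5c⟩ := hCcyc G hV hS 5 (V ∪ Set.range (h (2 ^ (2 * n + 2)))) V e5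
    (by decide)
    { clop := hclV
      loc := by
        intro i hi
        rcases i with _ | i
        · rw [he50]; exact loc_id G V
        · rw [he5s]; exact loc_of_mem (hcG i) V
      inj := by
        intro i hi
        rcases i with _ | i
        · rw [he50]; exact fun _ _ _ _ h => h
        · rw [he5s]; exact (c i).injective.injOn
      disj := by
        intro i hi j hj hij
        rcases i with _ | i <;> rcases j with _ | j
        · exact absurd rfl hij
        · rw [he50, he5s, Set.image_id']; exact hcV j (by omega)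
        · rw [he50, he5s, Set.image_id']; exact (hcV i (by omega)).symm
        · rw [he5s, he5s]; exact hcd i (by omega) j (by omega) (by omega) }
    (by
      intro i hi
      rcases i with _ | i
      · rw [he50, Set.image_id']; exact Set.subset_union_left
      · rw [he5s]; exact (hcT i (by omega)).trans Set.subset_union_right)
  -- the linking 3-cycle
  set B : Set Cn := {x | x 0 = true} with hBdef
  have hBcl : IsClopen B := by
    have : B = (fun x : Cn => x 0) ⁻¹' {true} := rfl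
    rw [this]
    exact (isClopen_discrete _).preimage (continuous_apply 0)
  have hBne : B ≠ Set.univ := by
    intro hu
    have : (fun _ => false : Cn) ∈ B := by rw [hu]; trivial
    simp [hBdef] at this
  have hBmem : (fun _ => true : Cn) ∈ B := rfl
  obtain ⟨d, hdG, -, hdd, -⟩ := hBsmall G hV 2 B Set.univ hBcl hBne isClopen_univ
    ⟨fun _ => true, trivial⟩
  have h1N : 1 < N := by have := hpow 0 (by omega); simpa using this
  have h2N : 2 < N := by have := hpow 1 (by omega); simpa using this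
  have hd12 : Disjoint (Set.range (h 1)) (Set.range (h 2)) := hB.disj 1 h1N 2 h2N (by norm_num)
  set el : ℕ → Cn → Cn := fun i =>
    if i = 0 then h 1 ∘ d 0 else if i = 1 then h 1 ∘ d 1 else h 2 ∘ d 0 with hel
  have el0 : el 0 = h 1 ∘ d 0 := by simp [hel]
  have el1 : el 1 = h 1 ∘ d 1 := by simp [hel]
  have el2 : el 2 = h 2 ∘ d 0 := by simp [hel]
  have hloc' : ∀ a < N, ∀ g ∈ G, Loc G (h a ∘ g) B := by
    intro a ha g hg
    exact hBcomp G g (h a) B (loc_of_mem hg B) fun y _ => hB.loc a ha y trivial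
  have hrange : ∀ (a : ℕ) (g : Hm), (h a ∘ g) '' B ⊆ Set.range (h a) := by
    rintro a g _ ⟨z, -, rfl⟩
    exact ⟨g z, rfl⟩
  have hcase : ∀ i < 3, i = 0 ∨ i = 1 ∨ i = 2 := by intro i hi; omega
  have hd1 : Disjoint ((h 1 ∘ d 0) '' B) ((h 1 ∘ d 1) '' B) := by
    rw [Set.image_comp, Set.image_comp, Set.disjoint_image_iff (hB.inj 1 h1N)]
    exact hdd 0 (by omega) 1 (by omega) (by omega)
  have hd2 : ∀ g g' : Hm, Disjoint ((h 1 ∘ g) '' B) ((h 2 ∘ g') '' B) := fun g g' =>
    hd12.mono (hrange 1 g) (hrange 2 g')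
  have hel_cyc : CycD G 3 B el :=
    { clop := hBcl
      loc := by
        intro i hi
        rcases hcase i hi with rfl | rfl | rfl
        · rw [el0]; exact hloc' 1 h1N _ (hdG 0)
        · rw [el1]; exact hloc' 1 h1N _ (hdG 1)
        · rw [el2]; exact hloc' 2 h2N _ (hdG 0)
      inj := by
        intro i hi
        rcases hcase i hi with rfl | rfl | rfl
        · rw [el0]; exact ((hB.inj 1 h1N).comp (d 0).injective).injOn
        · rw [el1]; exact ((hB.inj 1 h1N).comp (d 1).injective).injOn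
        · rw [el2]; exact ((hB.inj 2 h2N).comp (d 0).injective).injOn
      disj := by
        intro i hi j hj hij
        rcases hcase i hi with rfl | rfl | rfl <;> rcases hcase j hj with rfl | rfl | rfl
        · exact absurd rfl hij
        · rw [el0, el1]; exact hd1
        · rw [el0, el2]; exact hd2 _ _
        · rw [el0, el1]; exact hd1.symm
        · exact absurd rfl hij
        · rw [el1, el2]; exact hd2 _ _
        · rw [el0, el2]; exact (hd2 _ _).symm
        · rw [el1, el2]; exact (hd2 _ _).symm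
        · exact absurd rfl hij }
  obtain ⟨l, hlG, hlc⟩ := hCtri G hV hS B el hel_cyc
  have hlT : l ∈ TriSet G (Set.range (h 1) ∪ Set.range (h 2)) := by
    refine ⟨B, el, hel_cyc, hlc, ?_⟩
    intro i hi
    rcases hcase i hi with rfl | rfl | rfl
    · rw [el0]; exact (hrange _ _).trans Set.subset_union_left
    · rw [el1]; exact (hrange _ _).trans Set.subset_union_left
    · rw [el2]; exact (hrange _ _).trans Set.subset_union_right
  -- the copies
  have hcopy : ∀ p, ∀ t ∈ TriSet G Set.univ, p < N →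
      ∃ t' ∈ TriSet G (Set.range (h p)), Cpy (h p) t t' := fun p t ht hp =>
    (hCcopy G hV hS (h p) (hB.loc p hp) (hB.inj p hp)).1 t ht
  have hcu : ∀ i, ∃ t' : Hm, i < n → t' ∈ TriSet G (Set.range (h (2 ^ (2 * i + 2)))) ∧
      Cpy (h (2 ^ (2 * i + 2))) (u i) t' := by
    intro i
    by_cases hi : i < n
    · obtain ⟨t', h1, h2⟩ := hcopy _ _ (huv i hi).1 (hpow (2 * i + 2) (by omega))
      exact ⟨t', fun _ => ⟨h1, h2⟩⟩
    · exact ⟨1, fun h => absurd h hi⟩
  have hcv : ∀ i, ∃ t' : Hm, i < n → t' ∈ TriSet G (Set.range (h (2 ^ (2 * i + 3)))) ∧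
      Cpy (h (2 ^ (2 * i + 3))) (v i) t' := by
    intro i
    by_cases hi : i < n
    · obtain ⟨t', h1, h2⟩ := hcopy _ _ (huv i hi).2 (hpow (2 * i + 3) (by omega))
      exact ⟨t', fun _ => ⟨h1, h2⟩⟩
    · exact ⟨1, fun h => absurd h hi⟩
  choose cu hcu using hcu
  choose cv hcv using hcv
  -- the disjointness facts in a convenient form
  have hY1 : ∀ j < 2 * n + 3, j ≠ 0 → ∀ y ∈ Set.range (h 1), y ∉ Set.range (h (2 ^ j)) := by
    intro j hj hj0 y hy hy'
    exact Set.disjoint_left.1 (hdisj 0 (by omega) j hj (Ne.symm hj0)) (by simpa using hy) hy'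
  have hY2 : ∀ j < 2 * n + 3, j ≠ 1 → ∀ y ∈ Set.range (h 2), y ∉ Set.range (h (2 ^ j)) := by
    intro j hj hj0 y hy hy'
    exact Set.disjoint_left.1 (hdisj 1 (by omega) j hj (Ne.symm hj0)) (by simpa using hy) hy'
  have hYY : ∀ i < 2 * n + 3, ∀ j < 2 * n + 3, i ≠ j → ∀ y ∈ Set.range (h (2 ^ i)),
      y ∉ Set.range (h (2 ^ j)) := fun i hi j hj hij y hy hy' =>
    Set.disjoint_left.1 (hdisj i hi j hj hij) hy hy'
  have hYl : ∀ j < 2 * n + 3, 2 ≤ j → ∀ y ∈ Set.range (h (2 ^ j)),
      y ∉ Set.range (h 1) ∪ Set.range (h 2) := by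
    rintro j hj hj2 y hy (hy' | hy')
    · exact hY1 j hj (by omega) y hy' hy
    · exact hY2 j hj (by omega) y hy' hy
  -- properties of the partial products
  have hPr : ∀ m ≤ n, Pr l cu cv m ∈ Alt G F ∧
      (∀ y ∈ Set.range (h 1) ∪ Set.range (h 2), Pr l cu cv m y = l y) ∧
      (∀ i < m, ∀ z, Pr l cu cv m (h (2 ^ (2 * i + 2)) z) = h (2 ^ (2 * i + 2)) (u i z)) ∧
      (∀ i < m, ∀ z, Pr l cu cv m (h (2 ^ (2 * i + 3)) z) = h (2 ^ (2 * i + 3)) (v i z)) ∧
      (∀ y, y ∉ Set.range (h 1) ∪ Set.range (h 2) → (∀ i < m, y ∉ Set.range (h (2 ^ (2 * i + 2))) ∧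
        y ∉ Set.range (h (2 ^ (2 * i + 3)))) → Pr l cu cv m y = y) := by
    intro m
    induction m with
    | zero =>
      intro _
      refine ⟨?_, fun y _ => rfl, fun i hi => absurd hi (by omega), fun i hi => absurd hi (by omega),
        fun y hy _ => tri_supp hlT hy⟩
      refine alt_mono ?_ (Subgroup.subset_closure hlT)
      exact Set.union_subset (hB.sub 1 h1N) (hB.sub 2 h2N)
    | succ m ih =>
      intro hm
      obtain ⟨i1, i2, i3, i4, i5⟩ := ih (by omega)
      obtain ⟨u1, u2⟩ := hcu m (by omega)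
      obtain ⟨v1, v2⟩ := hcv m (by omega)
      have key : ∀ y, y ∉ Set.range (h (2 ^ (2 * m + 2))) → y ∉ Set.range (h (2 ^ (2 * m + 3))) →
          Pr l cu cv (m + 1) y = Pr l cu cv m y := by
        intro y hy hy'
        show Pr l cu cv m (cu m (cv m y)) = _
        rw [tri_supp v1 hy', tri_supp u1 hy]
      refine ⟨?_, ?_, ?_, ?_, ?_⟩
      · refine mul_mem i1 (mul_mem ?_ ?_)
        · exact alt_mono (hB.sub _ (hpow (2 * m + 2) (by omega))) (Subgroup.subset_closure u1)
        · exact alt_mono (hB.sub _ (hpow (2 * m + 3) (by omega))) (Subgroup.subset_closure v1)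
      · intro y hy
        rw [key y, i2 y hy]
        · intro hy'; exact hYl _ (by omega) (by omega) y hy' hy
        · intro hy'; exact hYl _ (by omega) (by omega) y hy' hy
      · intro i hi z
        rcases Nat.lt_succ_iff_lt_or_eq.1 hi with hi | rfl
        · rw [key, i3 i hi z]
          · exact hYY _ (by omega) _ (by omega) (by omega) _ ⟨z, rfl⟩
          · exact hYY _ (by omega) _ (by omega) (by omega) _ ⟨z, rfl⟩
        · show Pr l cu cv i (cu i (cv i _)) = _
          rw [tri_supp v1 (hYY (2 * i + 2) (by omega) (2 * i + 3) (by omega) (by omega) _ ⟨z, rfl⟩),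
            u2.1 z]
          apply i5
          · exact hYl (2 * i + 2) (by omega) (by omega) _ ⟨_, rfl⟩
          · intro j hj
            exact ⟨hYY (2 * i + 2) (by omega) _ (by omega) (by omega) _ ⟨_, rfl⟩,
              hYY (2 * i + 2) (by omega) _ (by omega) (by omega) _ ⟨_, rfl⟩⟩
      · intro i hi z
        rcases Nat.lt_succ_iff_lt_or_eq.1 hi with hi | rfl
        · rw [key, i4 i hi z]
          · exact hYY _ (by omega) _ (by omega) (by omega) _ ⟨z, rfl⟩
          · exact hYY _ (by omega) _ (by omega) (by omega) _ ⟨z, rfl⟩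
        · show Pr l cu cv i (cu i (cv i _)) = _
          rw [v2.1 z, tri_supp u1
            (hYY (2 * i + 3) (by omega) (2 * i + 2) (by omega) (by omega) _ ⟨v i z, rfl⟩)]
          apply i5
          · exact hYl (2 * i + 3) (by omega) (by omega) _ ⟨_, rfl⟩
          · intro j hj
            exact ⟨hYY (2 * i + 3) (by omega) _ (by omega) (by omega) _ ⟨_, rfl⟩,
              hYY (2 * i + 3) (by omega) _ (by omega) (by omega) _ ⟨_, rfl⟩⟩
      · intro y hy hy'
        rw [key y (hy' m (by omega)).1 (hy' m (by omega)).2]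
        exact i5 y hy fun i hi => hy' i (by omega)
  obtain ⟨p1, p2, p3, p4, p5⟩ := hPr n le_rfl
  set y1 := Pr l cu cv n with hy1
  refine ⟨x, y1, l, l5,
    { xF := hxF
      xc := hxc
      y1F := p1
      y1u := p3
      y1v := p4
      y1l := p2
      y1f := ?_
      y13 := ?_
      lF := hlT
      l1 := ?_
      l2 := ?_
      l5F := hl5F
      l55 := cyc_pow hl5c
      l5mv := ?_ }⟩
  · intro y hy
    apply p5
    · rintro (hy' | hy')
      · exact hy 0 (by omega) (by simpa using hy')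
      · exact hy 1 (by omega) (by simpa using hy')
    · intro i hi
      exact ⟨hy _ (by omega), hy _ (by omega)⟩
  · refine Homeomorph.ext fun y => ?_
    have e3 : (y1 ^ 3 : Hm) y = y1 (y1 (y1 y)) := by
      rw [pow_succ, pow_succ, pow_one]; rfl
    rw [e3]
    show y1 (y1 (y1 y)) = y
    by_cases hy : y ∈ Set.range (h 1) ∪ Set.range (h 2)
    · rw [p2 y hy, p2 _ (tri_maps hlT hy), p2 _ (tri_maps hlT (tri_maps hlT hy))]
      exact cube_apply (tri_cube hlT) y
    by_cases hyu : ∃ i < n, y ∈ Set.range (h (2 ^ (2 * i + 2)))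
    · obtain ⟨i, hi, z, rfl⟩ := hyu
      rw [p3 i hi, p3 i hi, p3 i hi, cube_apply (tri_cube (huv i hi).1)]
    by_cases hyv : ∃ i < n, y ∈ Set.range (h (2 ^ (2 * i + 3)))
    · obtain ⟨i, hi, z, rfl⟩ := hyv
      rw [p4 i hi, p4 i hi, p4 i hi, cube_apply (tri_cube (huv i hi).2)]
    have hf : y1 y = y := by
      apply p5 y hy
      intro i hi
      exact ⟨fun h => hyu ⟨i, hi, h⟩, fun h => hyv ⟨i, hi, h⟩⟩
    rw [hf, hf, hf]
  · have h0 := hlc.mv 0 (by norm_num) _ hBmem
    refine ⟨el 1 (fun _ => true), ⟨el 0 (fun _ => true), ?_, h0⟩, ?_⟩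
    · rw [el0]; exact ⟨_, rfl⟩
    · rw [el1]; exact ⟨_, rfl⟩
  · have h0 := hlc.mv 1 (by norm_num) _ hBmem
    refine ⟨el 2 (fun _ => true), ⟨el 1 (fun _ => true), ?_, h0⟩, ?_⟩
    · rw [el1]; exact ⟨_, rfl⟩
    · rw [el2]; exact ⟨_, rfl⟩
  · intro z hz
    have h0 := hl5c.mv 4 (by norm_num) z hz
    refine ⟨e5 4 z, ?_, ?_⟩
    · rw [he5s 3]; exact hcT 3 (by norm_num) ⟨z, hz, rfl⟩
    · rw [h0]
      show e5 0 z = z
      rw [he50]

end Pool.Agent.Helper106.VG
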