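import Pool.Agent.Helper106.VG.Stmts

/-!
# Vigorous groups, task D2: the pair `x`, `y1 * l5` generates `Alt G F`
-/

set_option autoImplicit false

namespace Pool.Agent.Helper106.VG

open Filter Topology

namespace TD2

lemma mulap (g h : Hm) (x : Cn) : (g * h) x = g (h x) := rfl

lemma invap (g : Hm) (x : Cn) : g⁻¹ (g x) = x := g.symm_apply_apply x

lemma apinv (g : Hm) (x : Cn) : g (g⁻¹ x) = x := g.apply_symm_apply x

lemma alt_mono {G : Subgroup Hm} {A B : Set Cn} (h : A ⊆ B) : Alt G A ≤ Alt G B := by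
  refine Subgroup.closure_mono ?_
  rintro t ⟨D, e, h1, h2, h3⟩
  exact ⟨D, e, h1, h2, fun i hi => (h3 i hi).trans h⟩

lemma conj_le (hconj : C_conj) {G H : Subgroup Hm} {A : Set Cn} {g : Hm} (hgG : g ∈ G)
    (hgH : g ∈ H) (hA : Alt G A ≤ H) : Alt G (g '' A) ≤ H := by
  intro t ht
  have h1 := hconj G (g '' A) g⁻¹ t (G.inv_mem hgG) ht
  have h2 : (g⁻¹ : Hm) '' (g '' A) = A := by
    rw [Set.image_image]
    simp only [invap, Set.image_id']
  rw [h2, inv_inv] at h1
  have h3 := hA h1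
  have h4 : t = g * (g⁻¹ * t * g) * g⁻¹ := by group
  rw [h4]
  exact H.mul_mem (H.mul_mem hgH h3) (H.inv_mem hgH)

/-- maps with disjoint supports commute -/
lemma comm_of {A B : Hm} {Y : Set Cn} (hA : ∀ w, w ∉ Y → A w ∉ Y) (hB : ∀ w, w ∉ Y → B w ∉ Y)
    (hAB : ∀ w, w ∉ Y → A w = w ∨ B w = w) (w : Cn) (hw : w ∉ Y) : A (B w) = B (A w) := by
  rcases hAB w hw with h | h
  · rcases hAB (B w) (hB w hw) with h' | h'
    · rw [h', h]
    · have h'' : B w = w := B.injective h'
      rw [h'', h, h'']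
  · rcases hAB (A w) (hA w hw) with h' | h'
    · have h'' : A w = w := A.injective h'
      rw [h, h'', h]
    · rw [h, h']

lemma range_iff {A u : Hm} {h : Cn → Cn} (hA : ∀ z, A (h z) = h (u z)) (w : Cn) :
    A w ∈ Set.range h ↔ w ∈ Set.range h := by
  constructor
  · rintro ⟨z, hz⟩
    refine ⟨u⁻¹ z, ?_⟩
    apply A.injective
    rw [hA, apinv, hz]
  · rintro ⟨z, rfl⟩
    exact ⟨u z, (hA z).symm⟩

lemma inv_cpy {A u : Hm} {h : Cn → Cn} (hA : ∀ z, A (h z) = h (u z)) (z : Cn) :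
    A⁻¹ (h z) = h (u⁻¹ z) := by
  apply A.injective
  rw [apinv, hA, apinv]

lemma cm_cpy {A B u v : Hm} {h : Cn → Cn} (hA : ∀ z, A (h z) = h (u z))
    (hB : ∀ z, B (h z) = h (v z)) (hAB : ∀ w, w ∉ Set.range h → A w = w ∨ B w = w) :
    Cpy h (cm u v) (cm A B) := by
  constructor
  · intro z
    unfold cm
    simp only [mulap]
    rw [inv_cpy hB, inv_cpy hA, hB, hA]
  · intro w hw
    have hA' : ∀ w, w ∉ Set.range h → A w ∉ Set.range h := fun w hw h' => hw ((range_iff hA w).1 h')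
    have hB' : ∀ w, w ∉ Set.range h → B w ∉ Set.range h := fun w hw h' => hw ((range_iff hB w).1 h')
    have h1 : B⁻¹ w ∉ Set.range h := by
      intro h'
      have := (range_iff hB (B⁻¹ w)).2 h'
      rw [apinv] at this
      exact hw this
    have h2 : A⁻¹ (B⁻¹ w) ∉ Set.range h := by
      intro h'
      have := (range_iff hA (A⁻¹ (B⁻¹ w))).2 h'
      rw [apinv] at this
      exact h1 this
    have h3 := comm_of hA' hB' hAB _ h2
    unfold cm
    simp only [mulap]
    rw [h3, apinv, apinv]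

lemma arith {n N i a b c : ℕ} (hN : 2 ^ (2 * n + 3) + 6 < N) (hi : i < n) (ha : a < N)
    (hb : b < 2 * n + 2) (_hc : c < 2 * n + 2) (h1 : (a + 2 ^ (2 * i + 2)) % N = 2 ^ b)
    (h2 : (a + 2 ^ (2 * i + 3)) % N = 2 ^ c) : a = 0 := by
  have hP : 2 ^ (2 * i + 2) ≤ 2 ^ (2 * n) := Nat.pow_le_pow_right (by norm_num) (by omega)
  have hn3 : 2 ^ (2 * n + 3) = 8 * 2 ^ (2 * n) := by rw [pow_add]; ring
  have hi3 : 2 ^ (2 * i + 3) = 2 * 2 ^ (2 * i + 2) := by
    rw [show 2 * i + 3 = (2 * i + 2) + 1 from rfl, pow_succ]; ring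
  have hbn : 2 ^ b ≤ 2 * 2 ^ (2 * n) := by
    calc 2 ^ b ≤ 2 ^ (2 * n + 1) := Nat.pow_le_pow_right (by norm_num) (by omega)
      _ = 2 * 2 ^ (2 * n) := by rw [pow_succ]; ring
  have hPpos : 0 < 2 ^ (2 * i + 2) := by positivity
  rw [hi3] at h2
  rw [hn3] at hN
  set P := 2 ^ (2 * i + 2) with hPdef
  set K := 2 ^ (2 * n) with hK
  -- there is no power of two strictly between two consecutive ones
  have hbet : ∀ d e : ℕ, 2 ^ d < 2 ^ e → 2 ^ e < 2 * 2 ^ d → False := by
    intro d e h3 h4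
    have h5 : d < e := (Nat.pow_lt_pow_iff_right (by norm_num)).1 h3
    have h6 : 2 ^ e < 2 ^ (d + 1) := by rw [pow_succ]; linarith
    have h7 : e < d + 1 := (Nat.pow_lt_pow_iff_right (by norm_num)).1 h6
    omega
  by_cases hc1 : a + 2 * P < N
  · rw [Nat.mod_eq_of_lt (by omega)] at h1
    rw [Nat.mod_eq_of_lt hc1] at h2
    rcases Nat.eq_zero_or_pos a with h0 | h0
    · exact h0
    · exfalso
      apply hbet b c <;> omega
  · by_cases hc2 : a + P < N
    · rw [Nat.mod_eq_of_lt hc2] at h1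
      omega
    · exfalso
      have h1' : (a + P) % N = a + P - N := by
        rw [Nat.mod_eq_sub_mod (by omega), Nat.mod_eq_of_lt (by omega)]
      have h2' : (a + 2 * P) % N = a + 2 * P - N := by
        rw [Nat.mod_eq_sub_mod (by omega), Nat.mod_eq_of_lt (by omega)]
      rw [h1'] at h1
      rw [h2'] at h2
      have hbpos : 0 < 2 ^ b := by positivity
      apply hbet (2 * i + 2) c <;> rw [← hPdef] <;> omega

section Main
variable {G : Subgroup Hm} {n : ℕ} {u v : ℕ → Hm} {F : Set Cn} {N : ℕ} {h : ℕ → Cn → Cn}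
  {x y1 l l5 : Hm}

lemma x_pow (hx : IsCyc x N Set.univ h) (hN : 0 < N) {a : ℕ} (ha : a < N) (j : ℕ) (z : Cn) :
    (x ^ j : Hm) (h a z) = h ((a + j) % N) z := by
  induction j with
  | zero => rw [add_zero, Nat.mod_eq_of_lt ha]; rfl
  | succ j ih =>
    rw [pow_succ', mulap, ih, hx.mv _ (Nat.mod_lt _ hN) z (Set.mem_univ _)]
    congr 1
    rw [Nat.mod_add_mod, add_assoc]

lemma x_pow_range (hx : IsCyc x N Set.univ h) (hN : 0 < N) {a : ℕ} (ha : a < N) (j : ℕ) :
    (x ^ j : Hm) '' Set.range (h a) = Set.range (h ((a + j) % N)) := by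
  rw [← Set.range_comp]
  congr 1
  funext z
  exact x_pow hx hN ha j z

lemma x_pow_fix (hx : IsCyc x N Set.univ h) {w : Cn} (hw : ∀ a < N, w ∉ Set.range (h a)) (j : ℕ) :
    (x ^ j : Hm) w = w := by
  induction j with
  | zero => rfl
  | succ j ih =>
    rw [pow_succ', mulap, ih]
    apply hx.fx
    intro i hi
    rw [Set.image_univ]
    exact hw i hi

/-- the conjugate `x ^ (-p) * y1 * x ^ p` -/
lemma conj_fix (hx : IsCyc x N Set.univ h) (hN : 0 < N) (hB : Blocks G F N h)
    (hyf : ∀ y, (∀ i < 2 * n + 2, y ∉ Set.range (h (2 ^ i))) → y1 y = y)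
    (hNn : 2 ^ (2 * n + 3) + 6 < N) {p : ℕ} {w : Cn}
    (hw : ((x ^ p)⁻¹ * y1 * x ^ p : Hm) w ≠ w) :
    ∃ a < N, w ∈ Set.range (h a) ∧ ∃ b < 2 * n + 2, (a + p) % N = 2 ^ b := by
  have h1 : y1 ((x ^ p : Hm) w) ≠ (x ^ p : Hm) w := by
    intro h'
    apply hw
    rw [mulap, mulap, h', invap]
  have h2 : ∃ b < 2 * n + 2, (x ^ p : Hm) w ∈ Set.range (h (2 ^ b)) := by
    by_contra hcon
    push Not at hcon
    exact h1 (hyf _ hcon)
  obtain ⟨b, hb, hbw⟩ := h2
  have hbN : 2 ^ b < N := by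
    have : 2 ^ b ≤ 2 ^ (2 * n + 3) := Nat.pow_le_pow_right (by norm_num) (by omega)
    omega
  by_cases hex : ∃ a < N, w ∈ Set.range (h a)
  · obtain ⟨a, ha, z, rfl⟩ := hex
    refine ⟨a, ha, ⟨z, rfl⟩, b, hb, ?_⟩
    rw [x_pow hx hN ha] at hbw
    by_contra hne
    exact Set.disjoint_left.1 (hB.disj _ (Nat.mod_lt _ hN) _ hbN hne) ⟨z, rfl⟩ hbw
  · push Not at hex
    exfalso
    rw [x_pow_fix hx hex] at hbw
    exact hex _ hbN hbw

end Main

end TD2

open TD2 in
theorem d_gen (himg : B_img) (htop : C_top) (hsupp : C_supp) (hconj : C_conj) (hunion : C_union)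
    (hcopy : C_copy) : D_gen := by
  intro G hV hS n u v huv hgen F N h hNn hB x y1 l l5 hP
  set H : Subgroup Hm := Subgroup.closure {x, y1 * l5} with hH
  have h6N : 6 < N := lt_of_le_of_lt (Nat.le_add_left 6 _) hNn
  have hN0 : 0 < N := by omega
  have hpw : ∀ b ≤ 2 * n + 3, 2 ^ b < N := by
    intro b hb
    have : 2 ^ b ≤ 2 ^ (2 * n + 3) := Nat.pow_le_pow_right (by norm_num) hb
    omega
  have hAG : ∀ A : Set Cn, Alt G A ≤ G := by
    intro A
    calc Alt G A ≤ Alt G Set.univ := alt_mono (Set.subset_univ _)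
      _ = G := htop G hV hS
      _ ≤ G := le_refl _
  have hxG : x ∈ G := hAG _ hP.xF
  have hy1G : y1 ∈ G := hAG _ hP.y1F
  have hl5G : l5 ∈ G := hAG _ hP.l5F
  have hxH : x ∈ H := Subgroup.subset_closure (by simp)
  have hyH : y1 * l5 ∈ H := Subgroup.subset_closure (by simp)
  have hdisj : ∀ a < N, ∀ b < N, a ≠ b → ∀ w, w ∈ Set.range (h a) → w ∉ Set.range (h b) :=
    fun a ha b hb hab w hw => Set.disjoint_left.1 (hB.disj a ha b hb hab) hw
  set top := 2 ^ (2 * n + 2) with htopdef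
  have htopN : top < N := hpw _ (by omega)
  set V := F \ ⋃ a < N, Set.range (h a) with hVdef
  have hVY : ∀ w ∈ V, ∀ a < N, w ∉ Set.range (h a) := by
    intro w hw a ha hwa
    apply hw.2
    simp only [Set.mem_iUnion]
    exact ⟨a, ha, hwa⟩
  have hl5s : ∀ w, w ∉ V ∪ Set.range (h top) → l5 w = w := hsupp G _ l5 hP.l5F
  -- disjoint supports of `y1` and `l5`
  have hds : ∀ w, y1 w = w ∨ l5 w = w := by
    intro w
    by_cases hw : w ∈ V ∪ Set.range (h top)
    · left
      apply hP.y1f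
      intro i hi
      rcases hw with hw | hw
      · exact hVY w hw _ (hpw i (by omega))
      · refine hdisj top htopN _ (hpw i (by omega)) ?_ w hw
        intro he
        have := Nat.pow_right_injective (le_refl 2) he
        omega
    · right
      exact hl5s w hw
  have hcomm : Commute y1 l5 := by
    apply Homeomorph.ext
    intro w
    exact comm_of (Y := ∅) (fun _ _ => Set.notMem_empty _) (fun _ _ => Set.notMem_empty _)
      (fun w _ => hds w) w (Set.notMem_empty _)
  have hy1H : y1 ∈ H := by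
    have h1 : (y1 * l5) ^ 10 = y1 := by
      rw [hcomm.mul_pow]
      have e1 : y1 ^ 10 = y1 := by
        rw [show (10 : ℕ) = 3 * 3 + 1 from rfl, pow_succ, pow_mul, hP.y13, one_pow, one_mul]
      have e2 : l5 ^ 10 = 1 := by
        rw [show (10 : ℕ) = 5 * 2 from rfl, pow_mul, hP.l55, one_pow]
      rw [e1, e2, mul_one]
    rw [← h1]
    exact H.pow_mem hyH 10
  have hl5H : l5 ∈ H := by
    have h1 : (y1 * l5) ^ 6 = l5 := by
      rw [hcomm.mul_pow]
      have e1 : y1 ^ 6 = 1 := by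
        rw [show (6 : ℕ) = 3 * 2 from rfl, pow_mul, hP.y13, one_pow]
      have e2 : l5 ^ 6 = l5 := by
        rw [show (6 : ℕ) = 5 * 1 + 1 from rfl, pow_succ, pow_mul, hP.l55, one_pow, one_mul]
      rw [e1, e2, one_mul]
    rw [← h1]
    exact H.pow_mem hyH 6
  -- clopen blocks
  have hcl : ∀ a < N, IsClopen (Set.range (h a)) := by
    intro a ha
    rw [← Set.image_univ]
    exact himg G (h a) Set.univ (hB.loc a ha) isClopen_univ
  have hxpG : ∀ j : ℕ, x ^ j ∈ G := fun j => G.pow_mem hxG j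
  have hxpH : ∀ j : ℕ, x ^ j ∈ H := fun j => H.pow_mem hxH j
  -- step 1: `Alt (Y 0)`
  have hY0 : Alt G (Set.range (h 0)) ≤ H := by
    refine (hcopy G hV hS (h 0) (hB.loc 0 hN0) (hB.inj 0 hN0)).2 _ H hgen ?_
    rintro _ ⟨i, hi, rfl⟩
    set p := 2 ^ (2 * i + 2) with hp
    set q := 2 ^ (2 * i + 3) with hq
    have hpN : p < N := hpw _ (by omega)
    have hqN : q < N := hpw _ (by omega)
    set A : Hm := (x ^ p)⁻¹ * y1 * x ^ p with hAdef
    set B : Hm := (x ^ q)⁻¹ * y1 * x ^ q with hBdef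
    have hAH : A ∈ H := H.mul_mem (H.mul_mem (H.inv_mem (hxpH _)) hy1H) (hxpH _)
    have hBH : B ∈ H := H.mul_mem (H.mul_mem (H.inv_mem (hxpH _)) hy1H) (hxpH _)
    have hxp : ∀ z, (x ^ p : Hm) (h 0 z) = h p z := by
      intro z
      rw [x_pow hP.xc hN0 hN0, zero_add, Nat.mod_eq_of_lt hpN]
    have hxq : ∀ z, (x ^ q : Hm) (h 0 z) = h q z := by
      intro z
      rw [x_pow hP.xc hN0 hN0, zero_add, Nat.mod_eq_of_lt hqN]
    have hAc : ∀ z, A (h 0 z) = h 0 (u i z) := by
      intro z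
      rw [hAdef, mulap, mulap, hxp, hp, hP.y1u i hi, ← hp, ← hxp, invap]
    have hBc : ∀ z, B (h 0 z) = h 0 (v i z) := by
      intro z
      rw [hBdef, mulap, mulap, hxq, hq, hP.y1v i hi, ← hq, ← hxq, invap]
    refine ⟨cm A B, H.mul_mem (H.mul_mem (H.mul_mem hAH hBH) (H.inv_mem hAH)) (H.inv_mem hBH), ?_⟩
    refine cm_cpy hAc hBc ?_
    intro w hw
    by_contra hcon
    push Not at hcon
    obtain ⟨a, ha, haw, b, hb, hab⟩ := conj_fix hP.xc hN0 hB hP.y1f hNn hcon.1
    obtain ⟨a', ha', haw', c, hc, hac⟩ := conj_fix hP.xc hN0 hB hP.y1f hNn hcon.2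
    have haa : a = a' := by
      by_contra hne
      exact hdisj a ha a' ha' hne w haw haw'
    subst haa
    have h0 := arith hNn hi ha hb hc hab hac
    subst h0
    exact hw haw
  -- step 2: all blocks
  have hYa : ∀ a < N, Alt G (Set.range (h a)) ≤ H := by
    intro a ha
    have h1 := conj_le hconj (hxpG a) (hxpH a) hY0
    rw [x_pow_range hP.xc hN0 hN0, zero_add, Nat.mod_eq_of_lt ha] at h1
    exact h1
  have h1N : 1 < N := by omega
  have h2N : 2 < N := by omega
  -- step 3: `Alt (Y 1 ∪ Y 2)`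
  have hlim : y1 '' Set.range (h 1) = l '' Set.range (h 1) := by
    refine Set.image_congr ?_
    intro w hw
    exact hP.y1l w (Or.inl hw)
  have hlY : Alt G (l '' Set.range (h 1)) ≤ H := by
    rw [← hlim]
    exact conj_le hconj hy1G hy1H (hYa 1 h1N)
  have hclL : IsClopen (l '' Set.range (h 1)) := by
    rw [← hlim]
    exact ⟨(y1.isClosed_image).2 (hcl 1 h1N).1, (y1.isOpen_image).2 (hcl 1 h1N).2⟩
  have h12 : Alt G (Set.range (h 1) ∪ Set.range (h 2)) ≤ H := by
    have e1 := hunion G hV hS _ _ hclL (hcl 1 h1N) hP.l1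
    have e2 := hunion G hV hS (l '' Set.range (h 1) ∪ Set.range (h 1)) (Set.range (h 2))
      (hclL.union (hcl 1 h1N)) (hcl 2 h2N) (by
        obtain ⟨w, hw1, hw2⟩ := hP.l2
        exact ⟨w, Or.inl hw1, hw2⟩)
    have e3 : Alt G (Set.range (h 1) ∪ Set.range (h 2))
        ≤ Alt G (l '' Set.range (h 1) ∪ Set.range (h 1) ∪ Set.range (h 2)) := by
      apply alt_mono
      intro w hw
      rcases hw with hw | hw
      · exact Or.inl (Or.inr hw)
      · exact Or.inr hw
    refine e3.trans (e2.trans (sup_le (e1.trans (sup_le hlY (hYa 1 h1N))) (hYa 2 h2N)))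
  -- step 4: consecutive pairs
  have hpair : ∀ a, a + 1 < N → Alt G (Set.range (h a) ∪ Set.range (h (a + 1))) ≤ H := by
    intro a ha
    have e := conj_le hconj (hxpG (a + N - 1)) (hxpH (a + N - 1)) h12
    rw [Set.image_union, x_pow_range hP.xc hN0 h1N, x_pow_range hP.xc hN0 h2N] at e
    have e1 : (1 + (a + N - 1)) % N = a := by
      rw [show 1 + (a + N - 1) = a + N by omega, Nat.add_mod_right, Nat.mod_eq_of_lt (by omega)]
    have e2 : (2 + (a + N - 1)) % N = a + 1 := by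
      rw [show 2 + (a + N - 1) = a + 1 + N by omega, Nat.add_mod_right, Nat.mod_eq_of_lt ha]
    rw [e1, e2] at e
    exact e
  -- step 5: unions of blocks
  have hU : ∀ m, m + 1 ≤ N → IsClopen (⋃ a < m + 1, Set.range (h a)) ∧
      Alt G (⋃ a < m + 1, Set.range (h a)) ≤ H := by
    intro m
    induction m with
    | zero =>
      intro _
      have e : (⋃ a < 0 + 1, Set.range (h a)) = Set.range (h 0) := by
        rw [Set.biUnion_lt_succ]
        simp
      rw [e]
      exact ⟨hcl 0 hN0, hY0⟩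
    | succ m ih =>
      intro hm
      obtain ⟨ih1, ih2⟩ := ih (by omega)
      have hcu : IsClopen (Set.range (h m) ∪ Set.range (h (m + 1))) :=
        (hcl m (by omega)).union (hcl (m + 1) (by omega))
      have hsub : (⋃ a < m + 1 + 1, Set.range (h a)) =
          (⋃ a < m + 1, Set.range (h a)) ∪ (Set.range (h m) ∪ Set.range (h (m + 1))) := by
        rw [Set.biUnion_lt_succ _ (m + 1)]
        apply Set.Subset.antisymm
        · exact Set.union_subset_union_right _ Set.subset_union_right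
        · refine Set.union_subset Set.subset_union_left (Set.union_subset ?_ Set.subset_union_right)
          refine Set.Subset.trans ?_ Set.subset_union_left
          intro w hw
          simp only [Set.mem_iUnion]
          exact ⟨m, by omega, hw⟩
      rw [hsub]
      refine ⟨ih1.union hcu, ?_⟩
      refine (hunion G hV hS _ _ ih1 hcu ?_).trans (sup_le ih2 (hpair m (by omega)))
      refine ⟨h m (fun _ => true), ?_, Or.inl ⟨_, rfl⟩⟩
      simp only [Set.mem_iUnion]
      exact ⟨m, by omega, ⟨_, rfl⟩⟩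
  obtain ⟨hUc, hUH⟩ := hU (N - 1) (by omega)
  rw [show N - 1 + 1 = N by omega] at hUc hUH
  -- step 6: the rest
  have hT : Alt G (l5 '' Set.range (h top)) ≤ H := conj_le hconj hl5G hl5H (hYa top htopN)
  have hTc : IsClopen (l5 '' Set.range (h top)) :=
    ⟨(l5.isClosed_image).2 (hcl top htopN).1, (l5.isOpen_image).2 (hcl top htopN).2⟩
  have hmeet : (l5 '' Set.range (h top) ∩ Set.range (h top)).Nonempty := by
    by_contra hemp
    rw [Set.not_nonempty_iff_eq_empty] at hemp
    have hW : ∀ w ∈ V ∪ Set.range (h top), l5 w ∈ V ∪ Set.range (h top) := by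
      intro w hw
      by_contra hcon
      have := hl5s _ hcon
      have h' := l5.injective this
      rw [h'] at hcon
      exact hcon hw
    have hYV : ∀ w ∈ Set.range (h top), l5 w ∈ V := by
      intro w hw
      rcases hW w (Or.inr hw) with h' | h'
      · exact h'
      · exfalso
        have : l5 w ∈ l5 '' Set.range (h top) ∩ Set.range (h top) := ⟨⟨w, hw, rfl⟩, h'⟩
        rw [hemp] at this
        exact this
    have hVY' : ∀ w ∈ V, l5 w ∈ Set.range (h top) := by
      intro w hw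
      rcases hW w (Or.inl hw) with h' | h'
      · exfalso
        obtain ⟨z, hz, hzw⟩ := hP.l5mv h'
        have := l5.injective hzw
        rw [this] at hz
        exact hVY w hw top htopN hz
      · exact h'
    obtain ⟨v0, hv0⟩ := hB.rest
    have h5 : l5 (l5 (l5 (l5 (l5 v0)))) = v0 := by
      have : (l5 ^ 5 : Hm) v0 = v0 := by rw [hP.l55]; rfl
      exact this
    have s1 := hVY' v0 hv0
    have s2 := hYV _ s1
    have s3 := hVY' _ s2
    have s4 := hYV _ s3
    have s5 := hVY' _ s4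
    rw [h5] at s5
    exact hVY v0 hv0 top htopN s5
  have hfin := hunion G hV hS (⋃ a < N, Set.range (h a)) (l5 '' Set.range (h top)) hUc hTc (by
    obtain ⟨w, hw1, hw2⟩ := hmeet
    refine ⟨w, ?_, hw1⟩
    simp only [Set.mem_iUnion]
    exact ⟨top, htopN, hw2⟩)
  have hFsub : F ⊆ (⋃ a < N, Set.range (h a)) ∪ l5 '' Set.range (h top) := by
    intro w hw
    by_cases hw' : w ∈ ⋃ a < N, Set.range (h a)
    · exact Or.inl hw'
    · exact Or.inr (hP.l5mv ⟨hw, hw'⟩)
  exact (alt_mono hFsub).trans (hfin.trans (sup_le hUH hT))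

end Pool.Agent.Helper106.VG
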