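import Pool.Agent.Helper106.VG.C3

/-!
# Vigorous groups: task D3 (D_two)
-/

set_option autoImplicit false

namespace Pool.Agent.Helper106.VG

open Filter Topology

namespace TD3

open TC3

theorem tri_mono {G : Subgroup Hm} {A B : Set Cn} (h : A ⊆ B) : TriSet G A ⊆ TriSet G B := by
  rintro t ⟨D, e, h1, h2, h3⟩
  exact ⟨D, e, h1, h2, fun i hi => (h3 i hi).trans h⟩

theorem alt_mono {G : Subgroup Hm} {A B : Set Cn} (h : A ⊆ B) : Alt G A ≤ Alt G B :=
  Subgroup.closure_mono (tri_mono h)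

/-- homeomorphisms with disjoint supports commute -/
theorem commute_of {s t : Hm} (h : ∀ y, s y = y ∨ t y = y) : s * t = t * s := by
  refine Homeomorph.ext fun y => ?_
  rw [mul_app, mul_app]
  by_cases hs : s y = y
  · by_cases ht : t y = y
    · rw [hs, ht, hs]
    · rw [hs]
      rcases h (t y) with h1 | h1
      · exact h1
      · exact absurd (t.injective h1) ht
  · have ht : t y = y := (h y).resolve_left hs
    rw [ht]
    rcases h (s y) with h1 | h1
    · exact absurd (s.injective h1) hs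
    · exact h1.symm

/-- powers of a cycle -/
theorem cyc_pow {t : Hm} {n : ℕ} {D : Set Cn} {e : ℕ → Cn → Cn} (ht : IsCyc t n D e) (hn : 0 < n)
    (k i : ℕ) (hi : i < n) (z : Cn) (hz : z ∈ D) : (t ^ k : Hm) (e i z) = e ((i + k) % n) z := by
  induction k with
  | zero =>
    rw [pow_zero, one_app, add_zero, Nat.mod_eq_of_lt hi]
  | succ k ih =>
    rw [pow_succ', mul_app, ih, ht.mv _ (Nat.mod_lt _ hn) z hz, Nat.mod_add_mod, add_assoc]

theorem fix_pow {t : Hm} {y : Cn} (h : t y = y) (k : ℕ) : (t ^ k : Hm) y = y := by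
  induction k with
  | zero => rfl
  | succ k ih => rw [pow_succ', mul_app, ih, h]

theorem cyc_pow_self {t : Hm} {n : ℕ} {D : Set Cn} {e : ℕ → Cn → Cn} (ht : IsCyc t n D e)
    (hn : 0 < n) : t ^ n = 1 := by
  refine Homeomorph.ext fun y => ?_
  by_cases h : ∃ i < n, y ∈ e i '' D
  · obtain ⟨i, hi, z, hz, rfl⟩ := h
    rw [cyc_pow ht hn n i hi z hz, Nat.add_mod_right, Nat.mod_eq_of_lt hi]
    rfl
  · push Not at h
    rw [fix_pow (ht.fx y h)]
    rfl

end TD3

open TC3 TD3

theorem d_two (hP : D_pair) (hG : D_gen) (hF : C_fg) : D_two := by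
  intro G hv hs hfg
  obtain ⟨n, u, v, huv, hgen⟩ := hF G hv hs hfg
  refine ⟨2 ^ (2 * n + 3) + 6, Nat.le_add_left 6 _, fun F N h hodd hN hb => ?_⟩
  obtain ⟨x, y1, l, l5, gp⟩ := hP G hv hs n u v huv F N h hodd hN hb
  have hN0 : 0 < N := lt_of_le_of_lt (Nat.zero_le _) hN
  have htop : 2 ^ (2 * n + 2) < 2 ^ (2 * n + 3) := Nat.pow_lt_pow_right (by norm_num) (by omega)
  have hpow : ∀ i < 2 * n + 2, 2 ^ i < 2 ^ (2 * n + 2) := fun i hi =>
    Nat.pow_lt_pow_right (by norm_num) hi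
  obtain ⟨W, hW⟩ : ∃ W : Set Cn, W = (F \ ⋃ a < N, Set.range (h a)) ∪
    Set.range (h (2 ^ (2 * n + 2))) := ⟨_, rfl⟩
  have hWF : W ⊆ F := by
    rw [hW]
    rintro z (hz | hz)
    · exact hz.1
    · exact hb.sub _ (by omega) hz
  have hl5 : ∀ z, z ∉ W → l5 z = z := by
    intro z hz
    refine c_supp G W l5 ?_ z hz
    rw [hW]
    exact gp.l5F
  have hblock : ∀ a < N, a ≠ 2 ^ (2 * n + 2) → ∀ z ∈ Set.range (h a), z ∉ W := by
    intro a ha hne z hz hzW
    rw [hW] at hzW
    rcases hzW with h1 | h1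
    · apply h1.2
      exact Set.mem_iUnion₂.2 ⟨a, ha, hz⟩
    · have := hb.disj a ha (2 ^ (2 * n + 2)) (by omega) hne
      rw [Set.disjoint_left] at this
      exact this hz h1
  have hcomm : y1 * l5 = l5 * y1 := by
    refine commute_of fun y => ?_
    by_cases hy : ∃ i < 2 * n + 2, y ∈ Set.range (h (2 ^ i))
    · obtain ⟨i, hi, hy⟩ := hy
      right
      have h1 := hpow i hi
      exact hl5 y (hblock (2 ^ i) (by omega) (by omega) y hy)
    · push Not at hy
      left
      exact gp.y1f y hy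
  refine ⟨x, gp.xF, y1 * l5, (Alt G F).mul_mem gp.y1F ?_, ?_, ?_, ?_, ?_⟩
  · have h1 := gp.l5F
    rw [← hW] at h1
    exact alt_mono hWF h1
  · exact cyc_pow_self gp.xc hN0
  · rw [(show Commute y1 l5 from hcomm).mul_pow]
    have e1 : y1 ^ 15 = 1 := by
      have : y1 ^ 15 = (y1 ^ 3) ^ 5 := by rw [← pow_mul]
      rw [this, gp.y13, one_pow]
    have e2 : l5 ^ 15 = 1 := by
      have : l5 ^ 15 = (l5 ^ 5) ^ 3 := by rw [← pow_mul]
      rw [this, gp.l55, one_pow]
    rw [e1, e2, one_mul]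
  · intro z hz
    rw [mul_app]
    rcases hz with hz | ⟨a, ha, ha', hz⟩
    · rw [hl5 z fun h1 => hz (hWF h1)]
      refine gp.y1f z fun i hi h1 => hz (hb.sub _ ?_ h1)
      have := hpow i hi
      omega
    · rw [hl5 z (hblock a ha (by omega) z hz)]
      refine gp.y1f z fun i hi h1 => ?_
      have h2 := hpow i hi
      have h3 := hb.disj a ha (2 ^ i) (by omega) (by omega)
      rw [Set.disjoint_left] at h3
      exact h3 hz h1
  · exact hG G hv hs n u v huv hgen F N h hN hb x y1 l l5 gp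

end Pool.Agent.Helper106.VG
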