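import Pool.Agent.Helper106.VG.Stmts

/-!
# Vigorous groups, task D4: the geometry of the main construction (D_geo)
-/

set_option autoImplicit false

namespace Pool.Agent.Helper106.VG

open Filter Topology

namespace TD4

theorem loc_mono {G : Subgroup Hm} {f : Cn → Cn} {U V : Set Cn} (h : Loc G f V) (hUV : U ⊆ V) :
    Loc G f U := fun x hx => h x (hUV hx)

theorem loc_at_congr {G : Subgroup Hm} {f g : Cn → Cn} {U : Set Cn} (hU : IsOpen U)
    (h : Loc G f U) (hfg : ∀ x ∈ U, g x = f x) (x : Cn) (hx : x ∈ U) :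
    ∃ γ ∈ G, ∀ᶠ y in 𝓝 x, g y = γ y := by
  obtain ⟨γ, hγ, he⟩ := h x hx
  refine ⟨γ, hγ, ?_⟩
  filter_upwards [he, hU.mem_nhds hx] with y hy hyU
  rw [hfg y hyU, hy]

theorem loc_iter (hC : B_comp) {G : Subgroup Hm} {f : Cn → Cn} (h : Loc G f Set.univ) (n : ℕ) :
    Loc G f^[n] Set.univ := by
  induction n with
  | zero => intro x _; exact ⟨1, G.one_mem, Filter.Eventually.of_forall fun y => rfl⟩
  | succ n ih =>
    rw [Function.iterate_succ']
    exact hC G f^[n] f Set.univ ih (loc_mono h (Set.subset_univ _))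

theorem iter_disj {f : Cn → Cn} (hf : Function.Injective f) {S S' : Set Cn}
    (hS : Disjoint S (Set.range f)) {i j : ℕ} (hij : i < j) :
    Disjoint (f^[i] '' S) (f^[j] '' S') := by
  rw [Set.disjoint_left]
  rintro _ ⟨x, hx, rfl⟩ ⟨y, hy, hxy⟩
  obtain ⟨d, rfl⟩ := Nat.exists_eq_add_of_lt hij
  rw [show i + d + 1 = i + (d + 1) from rfl, Function.iterate_add_apply] at hxy
  have h2 := hf.iterate i hxy
  rw [Function.iterate_succ_apply'] at h2
  exact Set.disjoint_left.1 hS hx ⟨_, h2⟩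

theorem iter_disj_same {f : Cn → Cn} (hf : Function.Injective f) {S S' : Set Cn}
    (hS : Disjoint S S') (i : ℕ) : Disjoint (f^[i] '' S) (f^[i] '' S') := by
  rw [Set.disjoint_left]
  rintro _ ⟨x, hx, rfl⟩ ⟨y, hy, hxy⟩
  have h2 := hf.iterate i hxy
  exact Set.disjoint_left.1 hS hx (h2 ▸ hy)

theorem cover_aux {f : Cn → Cn} {E Y : Set Cn} (h : ∀ x, x ∈ E ∨ x ∈ Y ∨ x ∈ Set.range f) (m : ℕ) :
    ∀ x, (∃ i < m, x ∈ f^[i] '' E) ∨ (∃ i < m, x ∈ f^[i] '' Y) ∨ x ∈ Set.range f^[m] := by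
  induction m with
  | zero => intro x; exact Or.inr (Or.inr ⟨x, rfl⟩)
  | succ m ih =>
    intro x
    rcases ih x with ⟨i, hi, hx⟩ | ⟨i, hi, hx⟩ | ⟨y, rfl⟩
    · exact Or.inl ⟨i, by omega, hx⟩
    · exact Or.inr (Or.inl ⟨i, by omega, hx⟩)
    · rcases h y with hy | hy | ⟨w, rfl⟩
      · exact Or.inl ⟨m, by omega, y, hy, rfl⟩
      · exact Or.inr (Or.inl ⟨m, by omega, y, hy, rfl⟩)
      · exact Or.inr (Or.inr ⟨w, by rw [Function.iterate_succ_apply]⟩)

end TD4

open Classical in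
theorem d_geo (hI : B_img) (hV : B_inv) (hC : B_comp) (hX : C_compress) : D_geo := by
  intro G hv c0 c1 N hc0 hc1 hc1' hN
  -- the compression `f`
  obtain ⟨f0, hf0, -, hfne0⟩ := hX G hv 1 Set.univ isClopen_univ ⟨fun _ => true, trivial⟩
  obtain ⟨hfl, hfi, -⟩ := hf0 0 one_pos
  have hOne : ((Set.range (f0 0))ᶜ).Nonempty := by
    obtain ⟨x, -, hx⟩ := hfne0
    exact ⟨x, fun hx' => hx (Set.mem_biUnion (show (0 : ℕ) ∈ {i : ℕ | i < 1} from Nat.one_pos) hx')⟩
  generalize f0 0 = f at hfl hfi hOne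
  have hcl : ∀ k : Cn → Cn, Loc G k Set.univ → IsClopen (Set.range k) := by
    intro k hk
    have := hI G k Set.univ hk isClopen_univ
    rwa [Set.image_univ] at this
  have hfr : IsClopen (Set.range f) := hcl f hfl
  obtain ⟨g, hg, hgd, hgne⟩ := hX G hv (N - 2) (Set.range f)ᶜ hfr.compl hOne
  have hgf : ∀ i < N - 2, Disjoint (Set.range (g i)) (Set.range f) := by
    intro i hi
    rw [Set.disjoint_left]
    intro x hx hx'
    exact (hg i hi).2.2 hx hx'
  -- the sets
  set Y : Set Cn := Set.range (g (N - 3)) with hY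
  set E : Set Cn := (Set.range f)ᶜ \ Y with hE
  let h : ℕ → Cn → Cn := fun a => if a < N - 3 then g a else f ∘ g (a - 3)
  have hlt : ∀ a, a < N - 3 → h a = g a := fun a ha => if_pos ha
  have hge : ∀ i, h (N - 3 + i) = f ∘ g (N - 6 + i) := by
    intro i
    have e1 : h (N - 3 + i) = f ∘ g (N - 3 + i - 3) := if_neg (by omega)
    rw [e1, show N - 3 + i - 3 = N - 6 + i by omega]
  have hEf : Disjoint E (Set.range f) := by
    rw [Set.disjoint_left]; intro x hx hx'; exact hx.1 hx'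
  have hEY : Disjoint E Y := by
    rw [Set.disjoint_left]; intro x hx hx'; exact hx.2 hx'
  have hYf : Disjoint Y (Set.range f) := hgf (N - 3) (by omega)
  have hYc : IsClopen Y := hcl _ (hg (N - 3) (by omega)).1
  have hEc : IsClopen E := hfr.compl.diff hYc
  have hcov : ∀ x, x ∈ E ∨ x ∈ Y ∨ x ∈ Set.range f := by
    intro x
    by_cases h1 : x ∈ Set.range f
    · exact Or.inr (Or.inr h1)
    · by_cases h2 : x ∈ Y
      · exact Or.inr (Or.inl h2)
      · exact Or.inl ⟨h1, h2⟩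
  have hgE : ∀ i < N - 3, Set.range (g i) ⊆ E := by
    intro i hi x hx
    refine ⟨(hg i (by omega)).2.2 hx, fun hx' => ?_⟩
    exact Set.disjoint_left.1 (hgd i (by omega) (N - 3) (by omega) (by omega)) hx hx'
  have hhE : ∀ i < N - 3, Set.range (h i) ⊆ E := by
    intro i hi
    rw [hlt i hi]
    exact hgE i hi
  have hhloc : ∀ a < N, Loc G (h a) Set.univ := by
    intro a ha
    by_cases h1 : a < N - 3
    · rw [hlt a h1]
      exact (hg a (by omega)).1
    · obtain ⟨i, rfl⟩ := Nat.exists_eq_add_of_le (not_lt.1 h1)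
      rw [hge i]
      exact hC G _ f Set.univ (hg (N - 6 + i) (by omega)).1
        (TD4.loc_mono hfl (Set.subset_univ _))
  have hhinj : ∀ a < N, Function.Injective (h a) := by
    intro a ha
    by_cases h1 : a < N - 3
    · rw [hlt a h1]
      exact (hg a (by omega)).2.1
    · obtain ⟨i, rfl⟩ := Nat.exists_eq_add_of_le (not_lt.1 h1)
      rw [hge i]
      exact hfi.comp (hg (N - 6 + i) (by omega)).2.1
  have hrf : ∀ i, Set.range (h (N - 3 + i)) ⊆ Set.range f := by
    intro i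
    rw [hge i]
    exact Set.range_comp_subset_range _ _
  have hhdisj : ∀ a < N, ∀ b < N, a ≠ b → Disjoint (Set.range (h a)) (Set.range (h b)) := by
    intro a ha b hb hab
    by_cases h1 : a < N - 3 <;> by_cases h2 : b < N - 3
    · rw [hlt a h1, hlt b h2]
      exact hgd a (by omega) b (by omega) hab
    · obtain ⟨i, rfl⟩ := Nat.exists_eq_add_of_le (not_lt.1 h2)
      exact Set.disjoint_of_subset (hhE a h1) (hrf i) hEf
    · obtain ⟨i, rfl⟩ := Nat.exists_eq_add_of_le (not_lt.1 h1)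
      exact (Set.disjoint_of_subset (hhE b h2) (hrf i) hEf).symm
    · obtain ⟨i, rfl⟩ := Nat.exists_eq_add_of_le (not_lt.1 h1)
      obtain ⟨j, rfl⟩ := Nat.exists_eq_add_of_le (not_lt.1 h2)
      rw [hge i, hge j, Set.range_comp, Set.range_comp]
      rw [Set.disjoint_image_iff hfi]
      exact hgd _ (by omega) _ (by omega) (by omega)
  set Q : Set Cn := ⋃ i ∈ Finset.Ico (N - 6) (N - 3), Set.range (h i) with hQ
  set F : Set Cn := E ∪ f^[1] '' Q with hF
  have hFmem : ∀ z, z ∈ F ↔ z ∈ E ∨ ∃ i < 3, z ∈ Set.range (h (N - 3 + i)) := by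
    intro z
    constructor
    · rintro (hz | ⟨y, hy, rfl⟩)
      · exact Or.inl hz
      · right
        simp only [hQ, Set.mem_iUnion] at hy
        obtain ⟨i, hi, w, rfl⟩ := hy
        rw [Finset.mem_Ico] at hi
        obtain ⟨j, rfl⟩ := Nat.exists_eq_add_of_le hi.1
        refine ⟨j, by omega, w, ?_⟩
        rw [hge j, hlt _ hi.2]
        rfl
    · rintro (hz | ⟨i, hi, w, rfl⟩)
      · exact Or.inl hz
      · right
        refine ⟨h (N - 6 + i) w, ?_, ?_⟩
        · simp only [hQ, Set.mem_iUnion]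
          exact ⟨N - 6 + i, Finset.mem_Ico.2 ⟨by omega, by omega⟩, w, rfl⟩
        · rw [hge i, hlt _ (by omega)]
          rfl
  have hQc : IsClopen Q := by
    rw [hQ]
    refine isClopen_biUnion_finset fun i hi => ?_
    rw [Finset.mem_Ico] at hi
    exact hcl _ (hhloc i (by omega))
  have hFc : IsClopen F := hEc.union (hI G f^[1] Q
    (TD4.loc_mono (TD4.loc_iter hC hfl 1) (Set.subset_univ _)) hQc)
  -- the block maps
  let bb : ℕ → Cn → Cn := fun i => if i < c0 + c1 then f^[i] ∘ g (N - 3) else f^[c0 + c1]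
  have hb1 : ∀ i, i < c0 + c1 → bb i = f^[i] ∘ g (N - 3) := fun i hi => if_pos hi
  have hb2 : bb (c0 + c1) = f^[c0 + c1] := if_neg (lt_irrefl _)
  have hr1 : ∀ i, i < c0 + c1 → Set.range (bb i) = f^[i] '' Y := by
    intro i hi
    rw [hb1 i hi, Set.range_comp, hY]
  have hr2 : Set.range (bb (c0 + c1)) = f^[c0 + c1] '' Set.univ := by
    rw [hb2, Set.image_univ]
  have hbbloc : ∀ i ≤ c0 + c1, Loc G (bb i) Set.univ := by
    intro i hi
    rcases lt_or_eq_of_le hi with h1 | rfl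
    · rw [hb1 i h1]
      exact hC G _ _ Set.univ (hg (N - 3) (by omega)).1
        (TD4.loc_mono (TD4.loc_iter hC hfl i) (Set.subset_univ _))
    · rw [hb2]
      exact TD4.loc_iter hC hfl _
  have hbbinj : ∀ i ≤ c0 + c1, Function.Injective (bb i) := by
    intro i hi
    rcases lt_or_eq_of_le hi with h1 | rfl
    · rw [hb1 i h1]
      exact (hfi.iterate i).comp (hg (N - 3) (by omega)).2.1
    · rw [hb2]
      exact hfi.iterate _
  have hbbd' : ∀ i j, i < j → j ≤ c0 + c1 → Disjoint (Set.range (bb i)) (Set.range (bb j)) := by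
    intro i j hij hj
    rw [hr1 i (by omega)]
    rcases lt_or_eq_of_le hj with h1 | rfl
    · rw [hr1 j h1]
      exact TD4.iter_disj hfi hYf hij
    · rw [hr2]
      exact TD4.iter_disj hfi hYf hij
  have hbbd : ∀ i ≤ c0 + c1, ∀ j ≤ c0 + c1, i ≠ j →
      Disjoint (Set.range (bb i)) (Set.range (bb j)) := by
    intro i hi j hj hij
    rcases Nat.lt_or_gt_of_ne hij with h1 | h1
    · exact hbbd' i j h1 hj
    · exact (hbbd' j i h1 hi).symm
  have hEd : ∀ i j, i ≠ j → Disjoint (f^[i] '' E) (f^[j] '' E) := by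
    intro i j hij
    rcases Nat.lt_or_gt_of_ne hij with h1 | h1
    · exact TD4.iter_disj hfi hEf h1
    · exact (TD4.iter_disj hfi hEf h1).symm
  have hEb : ∀ i < c0 + c1, ∀ j ≤ c0 + c1, Disjoint (f^[i] '' E) (Set.range (bb j)) := by
    intro i hi j hj
    rcases lt_or_eq_of_le hj with h1 | rfl
    · rw [hr1 j h1]
      rcases Nat.lt_trichotomy i j with h2 | rfl | h2
      · exact TD4.iter_disj hfi hEf h2
      · exact TD4.iter_disj_same hfi hEY i
      · exact (TD4.iter_disj hfi hYf h2).symm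
    · rw [hr2]
      exact TD4.iter_disj hfi hEf hi
  have hcover : ∀ x, (∃ i < c0 + c1, x ∈ f^[i] '' E) ∨
      (∃ j ≤ c0 + c1, x ∈ Set.range (bb j)) := by
    intro x
    rcases TD4.cover_aux hcov (c0 + c1) x with ⟨i, hi, hx⟩ | ⟨i, hi, hx⟩ | hx
    · exact Or.inl ⟨i, hi, hx⟩
    · exact Or.inr ⟨i, hi.le, by rw [hr1 i hi]; exact hx⟩
    · exact Or.inr ⟨c0 + c1, le_rfl, by rw [hr2, Set.image_univ]; exact hx⟩
  -- the maps `a j`
  let a : ℕ → Cn → Cn := fun j z =>
    if z ∈ E then f^[c1 + j] z else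
      if hz : ∃ i < 3, z ∈ Set.range (h (N - 3 + i)) then
        bb (3 * j + hz.choose) (Function.invFunOn (h (N - 3 + hz.choose)) Set.univ z) else z
  have ha1 : ∀ j, ∀ z ∈ E, a j z = f^[c1 + j] z := fun j z hz => if_pos hz
  have ha2 : ∀ j, ∀ i < 3, ∀ z ∈ Set.range (h (N - 3 + i)),
      a j z = bb (3 * j + i) (Function.invFunOn (h (N - 3 + i)) Set.univ z) := by
    intro j i hi z hz
    have hzE : z ∉ E := fun h1 => Set.disjoint_left.1 hEf h1 (hrf i hz)
    have hex : ∃ i < 3, z ∈ Set.range (h (N - 3 + i)) := ⟨i, hi, hz⟩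
    have e1 : a j z = bb (3 * j + hex.choose)
        (Function.invFunOn (h (N - 3 + hex.choose)) Set.univ z) := by
      show (if z ∈ E then f^[c1 + j] z else
        if hz : ∃ i < 3, z ∈ Set.range (h (N - 3 + i)) then
          bb (3 * j + hz.choose) (Function.invFunOn (h (N - 3 + hz.choose)) Set.univ z) else z) = _
      rw [if_neg hzE, dif_pos hex]
    have e2 : hex.choose = i := by
      by_contra hne
      have h3 := hex.choose_spec
      exact Set.disjoint_left.1 (hhdisj (N - 3 + hex.choose) (by omega) (N - 3 + i) (by omega)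
        (by omega)) h3.2 hz
    rw [e1, e2]
  have ha3 : ∀ j, ∀ i < 3, ∀ w, a j (h (N - 3 + i) w) = bb (3 * j + i) w := by
    intro j i hi w
    rw [ha2 j i hi _ ⟨w, rfl⟩]
    congr 1
    have h1 : (h (N - 3 + i)) w ∈ h (N - 3 + i) '' Set.univ := ⟨w, trivial, rfl⟩
    exact hhinj (N - 3 + i) (by omega) (Function.invFunOn_eq h1)
  have haloc : ∀ j < c0, Loc G (a j) F := by
    intro j hj z hz
    rcases (hFmem z).1 hz with hz | ⟨i, hi, hz⟩
    · exact TD4.loc_at_congr hEc.2 (TD4.loc_mono (TD4.loc_iter hC hfl (c1 + j))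
        (Set.subset_univ E)) (ha1 j) z hz
    · refine TD4.loc_at_congr (hcl _ (hhloc (N - 3 + i) (by omega))).2 ?_ (ha2 j i hi) z hz
      have h1 : Loc G (Function.invFunOn (h (N - 3 + i)) Set.univ)
          (h (N - 3 + i) '' Set.univ) :=
        hV G _ Set.univ (hhloc (N - 3 + i) (by omega)) isClopen_univ
          (hhinj (N - 3 + i) (by omega)).injOn
      rw [Set.image_univ] at h1
      exact hC G _ (bb (3 * j + i)) _ h1
        (TD4.loc_mono (hbbloc (3 * j + i) (by omega)) (Set.subset_univ _))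
  have hakey : ∀ i < c0, ∀ j < c0, ∀ z ∈ F, ∀ z' ∈ F, a i z = a j z' → i = j ∧ z = z' := by
    intro i hi j hj z hz z' hz' heq
    rcases (hFmem z).1 hz with hz | ⟨s, hs, w, rfl⟩ <;>
      rcases (hFmem z').1 hz' with hz' | ⟨s', hs', w', rfl⟩
    · rw [ha1 i z hz, ha1 j z' hz'] at heq
      have hij : i = j := by
        by_contra hne
        exact Set.disjoint_left.1 (hEd (c1 + i) (c1 + j) (by omega)) ⟨z, hz, rfl⟩
          ⟨z', hz', heq.symm⟩
      subst hij
      exact ⟨rfl, hfi.iterate _ heq⟩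
    · rw [ha1 i z hz, ha3 j s' hs' w'] at heq
      exact absurd ⟨w', heq.symm⟩ (Set.disjoint_left.1 (hEb (c1 + i) (by omega) (3 * j + s')
        (by omega)) ⟨z, hz, rfl⟩)
    · rw [ha1 j z' hz', ha3 i s hs w] at heq
      exact absurd ⟨w, heq⟩ (Set.disjoint_left.1 (hEb (c1 + j) (by omega) (3 * i + s)
        (by omega)) ⟨z', hz', rfl⟩)
    · rw [ha3 i s hs w, ha3 j s' hs' w'] at heq
      have hss : 3 * i + s = 3 * j + s' := by
        by_contra hne
        exact Set.disjoint_left.1 (hbbd (3 * i + s) (by omega) (3 * j + s') (by omega) hne)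
          ⟨w, rfl⟩ ⟨w', heq.symm⟩
      have hij : i = j := by omega
      have hs'' : s = s' := by omega
      subst hij
      subst hs''
      have := hbbinj _ (by omega) heq
      exact ⟨rfl, by rw [this]⟩
  have habne : ∀ i < c0, ∀ j < c1, ∀ z ∈ F, ∀ z' ∈ E, a i z ≠ f^[j] z' := by
    intro i hi j hj z hz z' hz' heq
    rcases (hFmem z).1 hz with hz | ⟨s, hs, w, rfl⟩
    · rw [ha1 i z hz] at heq
      exact Set.disjoint_left.1 (hEd (c1 + i) j (by omega)) ⟨z, hz, rfl⟩ ⟨z', hz', heq.symm⟩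
    · rw [ha3 i s hs w] at heq
      exact Set.disjoint_left.1 (hEb j (by omega) (3 * i + s) (by omega)) ⟨z', hz', rfl⟩
        ⟨w, heq⟩
  refine ⟨E, Q, F, h, a, fun j => f^[j], ?_⟩
  refine
    { blocks := ⟨hFc, hhloc, hhinj, ?_, hhdisj, ?_⟩
      clE := hEc
      hE := hhE
      Q_eq := hQ
      hQ := ?_
      F_eq := hF
      ca := ⟨hFc, haloc, ?_, ?_⟩
      cb := ⟨hEc, ?_, ?_, ?_⟩
      b0 := fun z _ => rfl
      disj := ?_
      cover := ?_ }
  · intro b hb z hz
    rw [hFmem]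
    by_cases h1 : b < N - 3
    · exact Or.inl (hhE b h1 hz)
    · obtain ⟨i, rfl⟩ := Nat.exists_eq_add_of_le (not_lt.1 h1)
      exact Or.inr ⟨i, by omega, hz⟩
  · obtain ⟨x, hxf, hxn⟩ := hgne
    have hxn' : ∀ i < N - 2, x ∉ Set.range (g i) := fun i hi hx =>
      hxn (Set.mem_biUnion (show i ∈ {i | i < N - 2} from hi) hx)
    refine ⟨x, Or.inl ⟨hxf, hxn' (N - 3) (by omega)⟩, ?_⟩
    intro hx
    simp only [Set.mem_iUnion] at hx
    obtain ⟨b, hb, hx⟩ := hx
    by_cases h1 : b < N - 3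
    · rw [hlt b h1] at hx
      exact hxn' b (by omega) hx
    · obtain ⟨i, rfl⟩ := Nat.exists_eq_add_of_le (not_lt.1 h1)
      exact hxf (hrf i hx)
  · intro i hi
    rw [hge i, hlt (N - 6 + i) (by omega), Set.range_comp]
    rfl
  · intro i hi z hz z' hz' heq
    exact (hakey i hi i hi z hz z' hz' heq).2
  · intro i hi j hj hij
    rw [Set.disjoint_left]
    rintro _ ⟨z, hz, rfl⟩ ⟨z', hz', heq⟩
    exact hij (hakey i hi j hj z hz z' hz' heq.symm).1
  · intro i _
    exact TD4.loc_mono (TD4.loc_iter hC hfl i) (Set.subset_univ _)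
  · intro i _
    exact (hfi.iterate i).injOn
  · intro i _ j _ hij
    exact hEd i j hij
  · intro i hi j hj
    rw [Set.disjoint_left]
    rintro _ ⟨z, hz, rfl⟩ ⟨z', hz', heq⟩
    exact habne i hi j hj z hz z' hz' heq.symm
  · intro x
    rcases hcover x with ⟨i, hi, hx⟩ | ⟨j, hj, w, rfl⟩
    · by_cases h1 : i < c1
      · exact Or.inr ⟨i, h1, hx⟩
      · left
        obtain ⟨j, rfl⟩ := Nat.exists_eq_add_of_le (not_lt.1 h1)
        obtain ⟨z, hz, rfl⟩ := hx
        exact ⟨j, by omega, z, (hFmem z).2 (Or.inl hz), ha1 j z hz⟩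
    · left
      refine ⟨j / 3, by omega, h (N - 3 + j % 3) w, (hFmem _).2
        (Or.inr ⟨j % 3, Nat.mod_lt _ (by omega), w, rfl⟩), ?_⟩
      rw [ha3 (j / 3) (j % 3) (Nat.mod_lt _ (by omega)) w, Nat.div_add_mod]

end Pool.Agent.Helper106.VG
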