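import Pool.Agent.Helper106.VG.Stmts

/-!
# Vigorous groups, task D5: the element `σ`
-/

set_option autoImplicit false

namespace Pool.Agent.Helper106.VG

open Filter Topology

namespace TD5

/-- a homeomorphism that fixes all points outside `F` preserves `F` -/
theorem pres {x : Hm} {F : Set Cn} (h : ∀ z, z ∉ F → x z = z) {z : Cn} (hz : z ∈ F) : x z ∈ F := by
  by_contra hc
  have h2 : x z = z := x.injective (h _ hc)
  rw [h2] at hc
  exact hc hz

theorem surj {x : Hm} {F : Set Cn} (h : ∀ z, z ∉ F → x z = z) {z : Cn} (hz : z ∈ F) :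
    ∃ w ∈ F, x w = z := by
  obtain ⟨w, hw⟩ := x.surjective z
  refine ⟨w, ?_, hw⟩
  by_contra hc
  have h1 := h _ hc
  rw [h1] at hw
  exact hc (hw ▸ hz)

variable {G : Subgroup Hm} {n : ℕ} {D : Set Cn} {e : ℕ → Cn → Cn} {s u x : Hm}

theorem step0 (hn : 2 ≤ n) (hs : IsCyc s n D e) (hx : ∀ z ∈ D, x z ∈ D)
    (hu : ∀ z ∈ D, u (e 0 z) = e 0 (x z)) {z : Cn} (hz : z ∈ D) :
    (s * u) (e 0 z) = e 1 (x z) := by
  show s (u (e 0 z)) = _
  rw [hu z hz, hs.mv 0 (by omega) _ (hx z hz), zero_add, Nat.mod_eq_of_lt (by omega)]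

theorem stepj (hd : CycD G n D e) (hs : IsCyc s n D e)
    (huf : ∀ y, y ∉ e 0 '' D → u y = y) {j : ℕ} (hj : 1 ≤ j) (hjn : j < n) {z : Cn} (hz : z ∈ D) :
    (s * u) (e j z) = e ((j + 1) % n) z := by
  show s (u (e j z)) = _
  have h1 : e j z ∉ e 0 '' D := fun h =>
    Set.disjoint_left.1 (hd.disj j hjn 0 (by omega) (by omega)) ⟨z, hz, rfl⟩ h
  rw [huf _ h1, hs.mv j hjn _ hz]

theorem powi (hn : 2 ≤ n) (hd : CycD G n D e) (hs : IsCyc s n D e) (hx : ∀ z ∈ D, x z ∈ D)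
    (hu : ∀ z ∈ D, u (e 0 z) = e 0 (x z)) (huf : ∀ y, y ∉ e 0 '' D → u y = y)
    {z : Cn} (hz : z ∈ D) : ∀ i, 1 ≤ i → i < n → ((s * u) ^ i : Hm) (e 0 z) = e i (x z) := by
  intro i hi
  induction i, hi using Nat.le_induction with
  | base => intro _; rw [pow_one]; exact step0 hn hs hx hu hz
  | succ j hj ih =>
    intro hjn
    rw [pow_succ']
    show (s * u) (((s * u) ^ j : Hm) (e 0 z)) = _
    rw [ih (by omega), stepj hd hs huf hj (by omega) (hx z hz), Nat.mod_eq_of_lt hjn]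

theorem pown (hn : 2 ≤ n) (hd : CycD G n D e) (hs : IsCyc s n D e) (hx : ∀ z ∈ D, x z ∈ D)
    (hu : ∀ z ∈ D, u (e 0 z) = e 0 (x z)) (huf : ∀ y, y ∉ e 0 '' D → u y = y)
    {z : Cn} (hz : z ∈ D) : ((s * u) ^ n : Hm) (e 0 z) = e 0 (x z) := by
  obtain ⟨m, rfl⟩ : ∃ m, n = m + 1 := ⟨n - 1, by omega⟩
  rw [pow_succ']
  show (s * u) (((s * u) ^ m : Hm) (e 0 z)) = _
  rw [powi hn hd hs hx hu huf hz m (by omega) (by omega),
    stepj hd hs huf (by omega) (by omega) (hx z hz), Nat.mod_self]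

theorem image_pow (hn : 2 ≤ n) (hd : CycD G n D e) (hs : IsCyc s n D e)
    (hxf : ∀ z, z ∉ D → x z = z)
    (hu : ∀ z ∈ D, u (e 0 z) = e 0 (x z)) (huf : ∀ y, y ∉ e 0 '' D → u y = y)
    {i : ℕ} (hi : i < n) : im (s * u) i (e 0 '' D) = e i '' D := by
  have hx : ∀ z ∈ D, x z ∈ D := fun z hz => pres hxf hz
  rcases Nat.eq_zero_or_pos i with rfl | hpos
  · show (fun w : Cn => w) '' (e 0 '' D) = e 0 '' D
    exact Set.image_id' _
  · ext y
    constructor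
    · rintro ⟨_, ⟨z, hz, rfl⟩, rfl⟩
      rw [powi hn hd hs hx hu huf hz i hpos hi]
      exact ⟨_, hx z hz, rfl⟩
    · rintro ⟨z, hz, rfl⟩
      obtain ⟨w, hw, rfl⟩ := surj hxf hz
      refine ⟨e 0 w, ⟨w, hw, rfl⟩, ?_⟩
      exact powi hn hd hs hx hu huf hw i hpos hi

theorem fix_out (hn : 2 ≤ n) (hs : IsCyc s n D e) (huf : ∀ y, y ∉ e 0 '' D → u y = y)
    {y : Cn} (hy : ∀ i < n, y ∉ e i '' D) : (s * u) y = y := by
  show s (u y) = y
  rw [huf y (hy 0 (by omega)), hs.fx y hy]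

theorem pow_fix {z : Hm} {y : Cn} (h : z y = y) (m : ℕ) : (z ^ m : Hm) y = y := by
  induction m with
  | zero => rfl
  | succ m ih =>
    rw [pow_succ]
    show (z ^ m : Hm) (z y) = y
    rw [h, ih]

theorem pow_mulN (hn : 2 ≤ n) (hd : CycD G n D e) (hs : IsCyc s n D e)
    (hx : ∀ z ∈ D, x z ∈ D)
    (hu : ∀ z ∈ D, u (e 0 z) = e 0 (x z)) (huf : ∀ y, y ∉ e 0 '' D → u y = y) (m : ℕ) :
    ∀ z ∈ D, (x ^ m : Hm) z ∈ D ∧ ((s * u) ^ (n * m) : Hm) (e 0 z) = e 0 ((x ^ m : Hm) z) := by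
  induction m with
  | zero => intro z hz; exact ⟨hz, rfl⟩
  | succ m ih =>
    intro z hz
    obtain ⟨h1, h2⟩ := ih z hz
    refine ⟨?_, ?_⟩
    · rw [pow_succ']
      exact hx _ h1
    · rw [Nat.mul_succ, add_comm, pow_add]
      show ((s * u) ^ n : Hm) (((s * u) ^ (n * m) : Hm) (e 0 z)) = _
      rw [h2, pown hn hd hs hx hu huf h1, pow_succ']
      rfl

theorem ord (hn : 2 ≤ n) (hd : CycD G n D e) (hs : IsCyc s n D e)
    (hxf : ∀ z, z ∉ D → x z = z)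
    (hu : ∀ z ∈ D, u (e 0 z) = e 0 (x z)) (huf : ∀ y, y ∉ e 0 '' D → u y = y) (m : ℕ)
    (hm : x ^ m = 1) : (s * u) ^ (n * m) = 1 := by
  have hx : ∀ z ∈ D, x z ∈ D := fun z hz => pres hxf hz
  apply Homeomorph.ext
  intro y
  by_cases hy : ∀ i < n, y ∉ e i '' D
  · exact pow_fix (fix_out hn hs huf hy) _
  · push Not at hy
    obtain ⟨i, hi, hy⟩ := hy
    rw [← image_pow hn hd hs hxf hu huf hi] at hy
    obtain ⟨_, ⟨z, hz, rfl⟩, rfl⟩ := hy
    obtain ⟨-, h2⟩ := pow_mulN hn hd hs hx hu huf m z hz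
    have h3 : ((s * u) ^ (n * m) : Hm) (((s * u) ^ i : Hm) (e 0 z)) =
        ((s * u) ^ i : Hm) (((s * u) ^ (n * m) : Hm) (e 0 z)) := by
      show ((s * u) ^ (n * m) * (s * u) ^ i : Hm) (e 0 z) = ((s * u) ^ i * (s * u) ^ (n * m) : Hm) (e 0 z)
      rw [← pow_add, ← pow_add, add_comm]
    rw [h3, h2, hm]
    rfl

theorem alt_mono {G : Subgroup Hm} {A B : Set Cn} (h : A ⊆ B) : Alt G A ≤ Alt G B := by
  apply Subgroup.closure_mono
  rintro t ⟨D, e, h1, h2, h3⟩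
  exact ⟨D, e, h1, h2, fun i hi => (h3 i hi).trans h⟩

end TD5

open TD5

theorem d_design (h1 : D_two) (h2 : D_geo) (h3 : C_cyc) (h4 : C_ext) (h5 : C_top) (h6 : C_supp)
    (h7 : B_img) : D_design := by
  intro G hv hs hf k
  obtain ⟨M, hM6, hM⟩ := h1 G hv hs hf
  obtain ⟨c0, hc0⟩ : ∃ c0, c0 = 30 * (k + 1) + 1 := ⟨_, rfl⟩
  obtain ⟨c1, hc1⟩ : ∃ c1, c1 = 60 * (k + 1) + 1 := ⟨_, rfl⟩
  obtain ⟨N, hN⟩ : ∃ N, N = 30 * c1 * (M + 1) + 1 := ⟨_, rfl⟩
  have hMN : M < N := by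
    rw [hN]
    have : 1 ≤ 30 * c1 := by omega
    nlinarith
  have hNodd : Odd N := ⟨15 * c1 * (M + 1), by rw [hN]; ring⟩
  obtain ⟨E, Q, F, h, a, b, hg⟩ := h2 G hv c0 c1 N (by omega) (by omega) (by omega) (by omega)
  obtain ⟨x, hxF, y, hyF, hxN, hy15, hyf, hgen⟩ := hM F N h hNodd hMN hg.blocks
  have htop := h5 G hv hs
  have hin : ∀ (A : Set Cn) (t : Hm), t ∈ Alt G A → t ∈ G := fun A t ht => by
    have := alt_mono (G := G) (Set.subset_univ A) ht
    rwa [htop] at this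
  -- the cycles
  obtain ⟨s0, hs0A, hs0⟩ := h3 G hv hs c0 Set.univ F a ⟨15 * (k + 1), by omega⟩ hg.ca
    (fun i _ => Set.subset_univ _)
  obtain ⟨s1, hs1A, hs1⟩ := h3 G hv hs c1 Set.univ E b ⟨30 * (k + 1), by omega⟩ hg.cb
    (fun i _ => Set.subset_univ _)
  have hE0 : b 0 '' E = E := by
    ext z
    constructor
    · rintro ⟨w, hw, rfl⟩
      rw [hg.b0 w hw]
      exact hw
    · intro hz
      exact ⟨z, hz, hg.b0 z hz⟩
  have hrange : ∀ i, (Set.range (h i)).Nonempty := fun i => ⟨h i default, default, rfl⟩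
  have hEne : E.Nonempty := (hrange 0).mono (hg.hE 0 (by omega))
  have hQE : Q ⊆ E := by
    rw [hg.Q_eq]
    refine Set.iUnion₂_subset fun i hi => ?_
    rw [Finset.mem_Ico] at hi
    exact hg.hE i hi.2
  -- `F` and `a 0 '' F` are proper
  have hF : F ⊂ Set.univ := by
    rw [Set.ssubset_univ_iff]
    intro hFu
    obtain ⟨z, hz⟩ := hEne
    have hz2 : b 2 z ∈ F := by rw [hFu]; trivial
    rw [hg.F_eq] at hz2
    rcases hz2 with h8 | ⟨w, hw, hwz⟩
    · rw [← hE0] at h8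
      exact Set.disjoint_left.1 (hg.cb.disj 2 (by omega) 0 (by omega) (by omega)) ⟨z, hz, rfl⟩ h8
    · exact Set.disjoint_left.1 (hg.cb.disj 2 (by omega) 1 (by omega) (by omega)) ⟨z, hz, rfl⟩
        ⟨w, hQE hw, hwz⟩
  have haF : a 0 '' F ⊂ Set.univ := by
    rw [Set.ssubset_univ_iff]
    intro hFu
    obtain ⟨z, hz⟩ := hEne
    have hz2 : b 0 z ∈ a 0 '' F := by rw [hFu]; trivial
    exact Set.disjoint_left.1 (hg.disj 0 (by omega) 0 (by omega)) hz2 ⟨z, hz, rfl⟩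
  obtain ⟨δ, hδA, hδ⟩ := h4 G hv hs Set.univ F (a 0) isClopen_univ hg.ca.clop hF
    (hg.ca.loc 0 (by omega)) (hg.ca.inj 0 (by omega)) haF
  have hxs : ∀ z, z ∉ F → x z = z := h6 G F x hxF
  have hδim : δ '' F = a 0 '' F := Set.image_congr hδ
  -- the two twists
  have hu0 : ∀ z ∈ F, (δ * x * δ⁻¹ : Hm) (a 0 z) = a 0 (x z) := by
    intro z hz
    show δ (x (δ⁻¹ (a 0 z))) = _
    rw [← hδ z hz]
    have h9 : (δ⁻¹ : Hm) (δ z) = z := by
      show (δ⁻¹ * δ : Hm) z = z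
      rw [inv_mul_cancel]; rfl
    rw [h9, hδ _ (pres hxs hz)]
  have huf0 : ∀ z, z ∉ a 0 '' F → (δ * x * δ⁻¹ : Hm) z = z := by
    intro z hz
    show δ (x (δ⁻¹ z)) = z
    have h9 : δ ((δ⁻¹ : Hm) z) = z := by
      show (δ * δ⁻¹ : Hm) z = z
      rw [mul_inv_cancel]; rfl
    have h10 : (δ⁻¹ : Hm) z ∉ F := fun hc => hz (by
      rw [← hδim]
      exact ⟨_, hc, h9⟩)
    rw [hxs _ h10, h9]
  have hysR : ∀ z, z ∉ E \ Q → y z = z := by
    intro z hz
    by_cases hzF : z ∈ F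
    · apply hyf z
      right
      rw [hg.F_eq] at hzF
      rcases hzF with hzE | ⟨w, hw, rfl⟩
      · have hzQ : z ∈ Q := by
          by_contra hc
          exact hz ⟨hzE, hc⟩
        rw [hg.Q_eq] at hzQ
        obtain ⟨i, hi, hzi⟩ := Set.mem_iUnion₂.1 hzQ
        rw [Finset.mem_Ico] at hi
        exact ⟨i, by omega, by omega, hzi⟩
      · rw [hg.Q_eq] at hw
        obtain ⟨i, hi, hwi⟩ := Set.mem_iUnion₂.1 hw
        rw [Finset.mem_Ico] at hi
        obtain ⟨j, hj, rfl⟩ : ∃ j, j < 3 ∧ i = N - 6 + j := ⟨i - (N - 6), by omega, by omega⟩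
        refine ⟨N - 3 + j, by omega, by omega, ?_⟩
        rw [hg.hQ j hj]
        exact ⟨w, hwi, rfl⟩
    · exact hyf z (Or.inl hzF)
  have hysE : ∀ z, z ∉ E → y z = z := fun z hz => hysR z (fun hc => hz hc.1)
  have hu1 : ∀ z ∈ E, y (b 0 z) = b 0 (y z) := by
    intro z hz
    rw [hg.b0 z hz, hg.b0 _ (pres hysE hz)]
  have huf1 : ∀ z, z ∉ b 0 '' E → y z = z := by
    intro z hz
    rw [hE0] at hz
    exact hysE z hz
  have hz1Q : ∀ z ∈ Q, (s1 * y : Hm) z = b 1 z := by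
    intro z hz
    show s1 (y z) = _
    rw [hysR z (fun hc => hc.2 hz)]
    have h9 := hs1.mv 0 (by omega) z (hQE hz)
    rw [hg.b0 z (hQE hz), zero_add, Nat.mod_eq_of_lt (by omega)] at h9
    exact h9
  have him0 : ∀ i < c0, im (s0 * (δ * x * δ⁻¹)) i (δ '' F) = a i '' F := by
    intro i hi
    rw [hδim]
    exact image_pow (by omega) hg.ca hs0 hxs hu0 huf0 hi
  have him1 : ∀ i < c1, im (s1 * y) i E = b i '' E := by
    intro i hi
    have := image_pow (by omega) hg.cb hs1 hysE hu1 huf1 hi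
    rwa [hE0] at this
  have hcop : Nat.Coprime (c0 * N) (c1 * 15) := by
    have e1 : Nat.Coprime c0 15 := by
      rw [hc0, show 30 * (k + 1) + 1 = 1 + 15 * (2 * (k + 1)) by ring]
      simp
    have e2 : Nat.Coprime N 15 := by
      rw [hN, show 30 * c1 * (M + 1) + 1 = 1 + 15 * (2 * c1 * (M + 1)) by ring]
      simp
    have e3 : Nat.Coprime N c1 := by
      rw [hN, show 30 * c1 * (M + 1) + 1 = 1 + c1 * (30 * (M + 1)) by ring]
      simp
    have e4 : Nat.Coprime c0 c1 := by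
      have e5 : Nat.Coprime c0 (c1 + 1 - 1) := by
        rw [show c1 + 1 = c0 * 2 by omega]
        have : Nat.Coprime (c0 * 2 - 1) (c0 * 2) := by
          have h8 : c0 * 2 = (c0 * 2 - 1) + 1 := by omega
          rw [h8, Nat.add_sub_cancel]
          simp
        exact (Nat.Coprime.coprime_mul_right_right this).symm
      simpa using e5
    exact Nat.Coprime.mul_left (Nat.Coprime.mul_right e4 e1) (Nat.Coprime.mul_right e3 e2)
  have hclr : ∀ i < N, IsClopen (Set.range (h i)) := by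
    intro i hi
    rw [← Set.image_univ]
    exact h7 G (h i) Set.univ (hg.blocks.loc i hi) isClopen_univ
  have hclQ : IsClopen Q := by
    rw [hg.Q_eq]
    apply Set.Finite.isClopen_biUnion (Finset.finite_toSet _)
    intro i hi
    rw [Finset.mem_coe, Finset.mem_Ico] at hi
    exact hclr i (by omega)
  refine ⟨c0, c1, c0 * N, c1 * 15, s0 * (δ * x * δ⁻¹), s1 * y, δ, x, y, E, Q, E \ Q, F, ?_⟩
  constructor
  · exact G.mul_mem (hin _ _ hs0A) (G.mul_mem (G.mul_mem (hin _ _ hδA) (hin _ _ hxF))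
      (G.inv_mem (hin _ _ hδA)))
  · exact G.mul_mem (hin _ _ hs1A) (hin _ _ hyF)
  · exact hin _ _ hδA
  · exact hin _ _ hxF
  · exact hin _ _ hyF
  · exact hg.clE
  · exact hclQ
  · exact hg.clE.diff hclQ
  · exact hQE
  · exact fun z hz => hz.1
  · exact Set.disjoint_left.2 fun z hz hc => hc.2 hz
  · rw [hg.Q_eq]
    refine (hrange (N - 6)).mono fun z hz => ?_
    exact Set.mem_iUnion₂.2 ⟨N - 6, Finset.mem_Ico.2 ⟨le_rfl, by omega⟩, hz⟩
  · obtain ⟨z, hz⟩ := hrange 0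
    refine ⟨z, hg.hE 0 (by omega) hz, fun hc => ?_⟩
    rw [hg.Q_eq] at hc
    obtain ⟨i, hi, hzi⟩ := Set.mem_iUnion₂.1 hc
    rw [Finset.mem_Ico] at hi
    exact Set.disjoint_left.1 (hg.blocks.disj 0 (by omega) i (by omega) (by omega)) hz hzi
  · have e1 : (s1 * y : Hm) '' Q = b 1 '' Q := Set.image_congr hz1Q
    rw [e1]
    exact hg.F_eq
  · omega
  · omega
  · intro i hi j hj hij
    rw [him0 i hi, him0 j hj]
    exact hg.ca.disj i hi j hj hij
  · intro i hi j hj hij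
    rw [him1 i hi, him1 j hj]
    exact hg.cb.disj i hi j hj hij
  · intro i hi j hj
    rw [him0 i hi, him1 j hj]
    exact hg.disj i hi j hj
  · intro z
    rcases hg.cover z with ⟨i, hi, hz⟩ | ⟨j, hj, hz⟩
    · exact Or.inl ⟨i, hi, by rw [him0 i hi]; exact hz⟩
    · exact Or.inr ⟨j, hj, by rw [him1 j hj]; exact hz⟩
  · intro j hj z hz
    rw [him1 j hj] at hz
    exact fix_out (by omega) hs0 huf0 fun i hi hc =>
      Set.disjoint_left.1 (hg.disj i hi j hj) hc hz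
  · intro i hi z hz
    rw [him0 i hi] at hz
    exact fix_out (by omega) hs1 huf1 fun j hj hc =>
      Set.disjoint_left.1 (hg.disj i hi j hj) hz hc
  · intro z hz
    have := pown (by omega) hg.ca hs0 (fun z hz => pres hxs hz) hu0 huf0 hz
    rw [hδ z hz, hδ _ (pres hxs hz)]
    exact this
  · intro z hz
    have := pown (by omega) hg.cb hs1 (fun z hz => pres hysE hz) hu1 huf1 hz
    rw [hg.b0 z hz, hg.b0 _ (pres hysE hz)] at this
    exact this
  · exact hxs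
  · exact hysR
  · exact hgen
  · exact ord (by omega) hg.ca hs0 hxs hu0 huf0 N hxN
  · exact ord (by omega) hg.cb hs1 hysE hu1 huf1 15 hy15
  · exact hcop

end Pool.Agent.Helper106.VG
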