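import Mathlib

/-!
# Vigorous groups of homeomorphisms of Cantor space (MP_e1f4dd_al): definitions
-/

set_option autoImplicit false

namespace Pool.Agent.Helper106.VG

open Filter Topology

/-- Cantor space `{0,1}^ℕ`. -/
abbrev Cn : Type := ℕ → Bool

/-- The group of all homeomorphisms of Cantor space (multiplication is composition,
`(g * h) x = g (h x)`). -/
abbrev Hm : Type := Cn ≃ₜ Cn

/-- The subgroup `G` of `Homeo(Cantor space)` is vigorous: for every clopen set `A` and all nonempty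
clopen proper subsets `B`, `C` of `A` some element of `G` maps `B` into `C` and fixes every point
outside `A`. -/
def Vigorous (G : Subgroup Hm) : Prop :=
  ∀ A B C : Set Cn, IsClopen A → IsClopen B → IsClopen C → B.Nonempty → C.Nonempty →
    B ⊂ A → C ⊂ A → ∃ g ∈ G, g '' B ⊆ C ∧ ∀ x, x ∉ A → g x = x

/-- The uniform spread of the group `G` is at least `k`: there is `σ` such that for all nontrivial
`α_1,…,α_k` a single conjugate `β` of `σ` satisfies `⟨α_i, β⟩ = G` for every `i`. -/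
def USpreadGE (G : Type) [Group G] (k : ℕ) : Prop :=
  ∃ σ : G, ∀ α : Fin k → G, (∀ i, α i ≠ 1) →
    ∃ β : G, IsConj σ β ∧ ∀ i, Subgroup.closure {α i, β} = ⊤

/-- The uniform spread of a group, an element of `{0,1,2,…} ∪ {∞}`. -/
noncomputable def uSpread (G : Type) [Group G] : ℕ∞ := ⨆ k : {k : ℕ // USpreadGE G k}, (k.1 : ℕ∞)

/-- The commutator `s t s⁻¹ t⁻¹`. -/
def cm (s t : Hm) : Hm := s * t * s⁻¹ * t⁻¹

/-- The function `f` agrees near every point of `U` with some element of `G`. -/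
def Loc (G : Subgroup Hm) (f : Cn → Cn) (U : Set Cn) : Prop :=
  ∀ x ∈ U, ∃ g ∈ G, ∀ᶠ y in 𝓝 x, f y = g y

/-- Data for an `n`-cycle: a clopen set `D` and `n` injective maps `e 0, …, e (n-1)` on `D`, locally
in `G`, whose images are pairwise disjoint. -/
structure CycD (G : Subgroup Hm) (n : ℕ) (D : Set Cn) (e : ℕ → Cn → Cn) : Prop where
  clop : IsClopen D
  loc : ∀ i < n, Loc G (e i) D
  inj : ∀ i < n, Set.InjOn (e i) D
  disj : ∀ i < n, ∀ j < n, i ≠ j → Disjoint (e i '' D) (e j '' D)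

/-- `t` is the `n`-cycle with data `D, e`: it maps `e i z` to `e (i+1) z` (indices mod `n`) for `z ∈ D`
and fixes all other points. -/
structure IsCyc (t : Hm) (n : ℕ) (D : Set Cn) (e : ℕ → Cn → Cn) : Prop where
  mv : ∀ i < n, ∀ z ∈ D, t (e i z) = e ((i + 1) % n) z
  fx : ∀ y, (∀ i < n, y ∉ e i '' D) → t y = y

/-- The 3-cycles with support in `A`. -/
def TriSet (G : Subgroup Hm) (A : Set Cn) : Set Hm :=
  {t | ∃ (D : Set Cn) (e : ℕ → Cn → Cn), CycD G 3 D e ∧ IsCyc t 3 D e ∧ ∀ i < 3, e i '' D ⊆ A}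

/-- The group generated by the 3-cycles with support in `A`. -/
def Alt (G : Subgroup Hm) (A : Set Cn) : Subgroup Hm := Subgroup.closure (TriSet G A)

/-- `t'` is the copy of `t` under the map `h` : it acts on the image of `h` as `t`, transported by `h`,
and fixes all other points. -/
def Cpy (h : Cn → Cn) (t t' : Hm) : Prop :=
  (∀ z, t' (h z) = h (t z)) ∧ ∀ y, y ∉ Set.range h → t' y = y

/-- The image of the set `A` under the `j`-th power of `z`. -/
def im (z : Hm) (j : ℕ) (A : Set Cn) : Set Cn := (z ^ j : Hm) '' A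

/-- The element `σ = z0 * z1` of the main construction, with all its properties. -/
structure Design (G : Subgroup Hm) (k c0 c1 n0 n1 : ℕ) (z0 z1 δ x0 y0 : Hm) (E Q R F : Set Cn) :
    Prop where
  z0G : z0 ∈ G
  z1G : z1 ∈ G
  δG : δ ∈ G
  x0G : x0 ∈ G
  y0G : y0 ∈ G
  clE : IsClopen E
  clQ : IsClopen Q
  clR : IsClopen R
  QE : Q ⊆ E
  RE : R ⊆ E
  QR : Disjoint Q R
  Qne : Q.Nonempty
  Rne : R.Nonempty
  F_eq : F = E ∪ z1 '' Q
  c0k : k < c0
  c1k : 4 * k + 4 ≤ c1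
  disj0 : ∀ i < c0, ∀ j < c0, i ≠ j → Disjoint (im z0 i (δ '' F)) (im z0 j (δ '' F))
  disj1 : ∀ i < c1, ∀ j < c1, i ≠ j → Disjoint (im z1 i E) (im z1 j E)
  disj01 : ∀ i < c0, ∀ j < c1, Disjoint (im z0 i (δ '' F)) (im z1 j E)
  cover : ∀ x, (∃ i < c0, x ∈ im z0 i (δ '' F)) ∨ (∃ j < c1, x ∈ im z1 j E)
  z0fix : ∀ j < c1, ∀ x ∈ im z1 j E, z0 x = x
  z1fix : ∀ i < c0, ∀ x ∈ im z0 i (δ '' F), z1 x = x
  x0act : ∀ x ∈ F, (z0 ^ c0 : Hm) (δ x) = δ (x0 x)
  y0act : ∀ x ∈ E, (z1 ^ c1 : Hm) x = y0 x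
  x0supp : ∀ x, x ∉ F → x0 x = x
  y0supp : ∀ x, x ∉ R → y0 x = x
  gen : Alt G F ≤ Subgroup.closure {x0, y0}
  ord0 : z0 ^ n0 = 1
  ord1 : z1 ^ n1 = 1
  cop : Nat.Coprime n0 n1

/-- `α` is in admissible position with respect to the main construction and the set `J`. -/
def Adm (k c0 c1 : ℕ) (z0 z1 δ : Hm) (R F : Set Cn) (α : Hm) (J : Set ℕ) : Prop :=
  (∀ j ∈ J, j < k) ∧
  (∀ j ∈ J, ∀ z ∈ im z0 j (δ '' F), α z = (z1 ^ (2 * j) * δ⁻¹ * (z0 ^ j)⁻¹ : Hm) z) ∧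
  ∀ j < c0, j ∉ J → ∀ m < c1, Disjoint (α '' im z0 j (δ '' F)) (im z1 m R)

/-- The generating pair inside `F`: `x` is an `N`-cycle on the blocks `h a`, `y1` carries copies of the
`u i`, `v i` and the linking element `l`, and `l5` links the blocks with the rest of `F`. -/
structure GPair (G : Subgroup Hm) (n : ℕ) (u v : ℕ → Hm) (F : Set Cn) (N : ℕ) (h : ℕ → Cn → Cn)
    (x y1 l l5 : Hm) : Prop where
  xF : x ∈ Alt G F
  xc : IsCyc x N Set.univ h
  y1F : y1 ∈ Alt G F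
  y1u : ∀ i < n, ∀ z, y1 (h (2 ^ (2 * i + 2)) z) = h (2 ^ (2 * i + 2)) (u i z)
  y1v : ∀ i < n, ∀ z, y1 (h (2 ^ (2 * i + 3)) z) = h (2 ^ (2 * i + 3)) (v i z)
  y1l : ∀ y ∈ Set.range (h 1) ∪ Set.range (h 2), y1 y = l y
  y1f : ∀ y, (∀ i < 2 * n + 2, y ∉ Set.range (h (2 ^ i))) → y1 y = y
  y13 : y1 ^ 3 = 1
  lF : l ∈ TriSet G (Set.range (h 1) ∪ Set.range (h 2))
  l1 : (l '' Set.range (h 1) ∩ Set.range (h 1)).Nonempty
  l2 : (l '' Set.range (h 1) ∩ Set.range (h 2)).Nonempty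
  l5F : l5 ∈ Alt G ((F \ ⋃ a < N, Set.range (h a)) ∪ Set.range (h (2 ^ (2 * n + 2))))
  l55 : l5 ^ 5 = 1
  l5mv : F \ (⋃ a < N, Set.range (h a)) ⊆ l5 '' Set.range (h (2 ^ (2 * n + 2)))

/-- The blocks: `h a` (`a < N`) are injective maps of the whole space into `F`, locally in `G`, with
pairwise disjoint images that do not cover `F`. -/
structure Blocks (G : Subgroup Hm) (F : Set Cn) (N : ℕ) (h : ℕ → Cn → Cn) : Prop where
  clF : IsClopen F
  loc : ∀ a < N, Loc G (h a) Set.univ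
  inj : ∀ a < N, Function.Injective (h a)
  sub : ∀ a < N, Set.range (h a) ⊆ F
  disj : ∀ a < N, ∀ b < N, a ≠ b → Disjoint (Set.range (h a)) (Set.range (h b))
  rest : (F \ ⋃ a < N, Set.range (h a)).Nonempty

/-- The geometry of the main construction. -/
structure Geo (G : Subgroup Hm) (c0 c1 N : ℕ) (E Q F : Set Cn) (h a b : ℕ → Cn → Cn) : Prop where
  blocks : Blocks G F N h
  clE : IsClopen E
  hE : ∀ i < N - 3, Set.range (h i) ⊆ E
  Q_eq : Q = ⋃ i ∈ Finset.Ico (N - 6) (N - 3), Set.range (h i)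
  hQ : ∀ i < 3, Set.range (h (N - 3 + i)) = b 1 '' Set.range (h (N - 6 + i))
  F_eq : F = E ∪ b 1 '' Q
  ca : CycD G c0 F a
  cb : CycD G c1 E b
  b0 : ∀ z ∈ E, b 0 z = z
  disj : ∀ i < c0, ∀ j < c1, Disjoint (a i '' F) (b j '' E)
  cover : ∀ x, (∃ i < c0, x ∈ a i '' F) ∨ (∃ j < c1, x ∈ b j '' E)

end Pool.Agent.Helper106.VG
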