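import Pool.Agent.Helper106.VG.Stmts

/-!
# Vigorous groups: tasks `E_pow` and `E_diag` (section 5, first half)
-/

set_option autoImplicit false

namespace Pool.Agent.Helper106.VG

open Filter Topology

namespace TE1

lemma mul_ap (g h : Hm) (x : Cn) : (g * h) x = g (h x) := rfl

lemma one_ap (x : Cn) : (1 : Hm) x = x := rfl

lemma inv_ap (g : Hm) (x : Cn) : g⁻¹ (g x) = x := g.symm_apply_apply x

lemma ap_inv (g : Hm) (x : Cn) : g (g⁻¹ x) = x := g.apply_symm_apply x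

lemma inv_of (g : Hm) {x y : Cn} (h : g x = y) : g⁻¹ y = x := by
  rw [← h, inv_ap]

lemma fix_inv {g : Hm} {x : Cn} (h : g x = x) : g⁻¹ x = x := inv_of g h

lemma fix_pow {g : Hm} {x : Cn} (h : g x = x) (n : ℕ) : (g ^ n : Hm) x = x := by
  induction n with
  | zero => rfl
  | succ n ih => rw [pow_succ, mul_ap, h, ih]

/-- a homeomorphism fixing the complement of `A` pointwise maps `A` to `A` -/
lemma supp_maps {g : Hm} {A : Set Cn} (h : ∀ x, x ∉ A → g x = x) {x : Cn} (hx : x ∈ A) :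
    g x ∈ A := by
  by_contra hn
  have h1 := h _ hn
  have h2 : g x = x := g.injective h1
  exact hn (by rw [h2]; exact hx)

lemma supp_inv {g : Hm} {A : Set Cn} (h : ∀ x, x ∉ A → g x = x) :
    ∀ x, x ∉ A → g⁻¹ x = x := fun x hx => fix_inv (h x hx)

lemma pow_comm_ap (g : Hm) (m n : ℕ) (x : Cn) :
    (g ^ m : Hm) ((g ^ n : Hm) x) = (g ^ n : Hm) ((g ^ m : Hm) x) := by
  rw [← mul_ap, ← mul_ap, ← pow_add, ← pow_add, add_comm]

lemma mem_im {z : Hm} {j : ℕ} {A : Set Cn} {w : Cn} :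
    w ∈ im z j A ↔ ∃ f ∈ A, (z ^ j : Hm) f = w := Iff.rfl

variable {G : Subgroup Hm} {k c0 c1 n0 n1 : ℕ} {z0 z1 δ x0 y0 : Hm} {E Q R F : Set Cn}

/-- `z0` and `z1` commute. -/
lemma comm01 (hd : Design G k c0 c1 n0 n1 z0 z1 δ x0 y0 E Q R F) : z0 * z1 = z1 * z0 := by
  set A : Set Cn := {x | ∃ i < c0, x ∈ im z0 i (δ '' F)} with hA
  set B : Set Cn := {x | ∃ j < c1, x ∈ im z1 j E} with hB
  have hAB : ∀ x, x ∈ A → x ∉ B := by
    rintro x ⟨i, hi, hx⟩ ⟨j, hj, hx'⟩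
    exact Set.disjoint_left.1 (hd.disj01 i hi j hj) hx hx'
  have hz0 : ∀ x, x ∉ A → z0 x = x := by
    intro x hx
    rcases hd.cover x with h | ⟨j, hj, h⟩
    · exact absurd h hx
    · exact hd.z0fix j hj x h
  have hz1 : ∀ x, x ∉ B → z1 x = x := by
    intro x hx
    rcases hd.cover x with ⟨i, hi, h⟩ | h
    · exact hd.z1fix i hi x h
    · exact absurd h hx
  refine Homeomorph.ext fun x => ?_
  show z0 (z1 x) = z1 (z0 x)
  by_cases hx : x ∈ A
  · rw [hz1 x (hAB x hx), hz1 _ (hAB _ (supp_maps hz0 hx))]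
  · rw [hz0 x hx]
    by_cases hxB : x ∈ B
    · have h2 : z1 x ∈ B := supp_maps hz1 hxB
      exact hz0 _ (fun h => hAB _ h h2)
    · rw [hz1 x hxB, hz0 x hx]

lemma pow_mem_of_coprime {s t : Hm} (hst : Commute s t) {m n : ℕ} (hs : s ^ m = 1)
    (ht : t ^ n = 1) (hc : Nat.Coprime m n) : s ∈ Subgroup.closure {s * t} := by
  have h1 : (s * t) ^ n = s ^ n := by rw [hst.mul_pow, ht, mul_one]
  have h2 : s = ((s * t) ^ n) ^ (Nat.gcdB m n) := by
    rw [h1]
    have h3 : (1 : ℤ) = m * Nat.gcdA m n + n * Nat.gcdB m n := by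
      rw [← Nat.gcd_eq_gcd_ab, hc.gcd_eq_one]; norm_num
    calc s = s ^ (1 : ℤ) := (zpow_one s).symm
      _ = s ^ ((m : ℤ) * Nat.gcdA m n + n * Nat.gcdB m n) := by rw [← h3]
      _ = (s ^ m) ^ (Nat.gcdA m n) * (s ^ n) ^ (Nat.gcdB m n) := by
          rw [zpow_add, zpow_mul, zpow_mul, zpow_natCast, zpow_natCast]
      _ = (s ^ n) ^ (Nat.gcdB m n) := by rw [hs, one_zpow, one_mul]
  have h4 : ((s * t) ^ n) ^ (Nat.gcdB m n) ∈ Subgroup.closure {s * t} :=
    Subgroup.zpow_mem _ (Subgroup.pow_mem _ (Subgroup.subset_closure (by simp)) _) _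
  rwa [← h2] at h4

end TE1

open TE1

theorem e_pow : E_pow := by
  intro G k c0 c1 n0 n1 z0 z1 δ x0 y0 E Q R F hd
  have hc : Commute z0 z1 := comm01 hd
  refine ⟨pow_mem_of_coprime hc hd.ord0 hd.ord1 hd.cop, ?_⟩
  have := pow_mem_of_coprime hc.symm hd.ord1 hd.ord0 hd.cop.symm
  rwa [← comm01 hd] at this

namespace TE1

variable {G : Subgroup Hm} {k c0 c1 n0 n1 : ℕ} {z0 z1 δ x0 y0 : Hm} {E Q R F : Set Cn}

/-- every element of `⟨x0, y0⟩` fixes the points outside `F` -/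
lemma clos_supp (hd : Design G k c0 c1 n0 n1 z0 z1 δ x0 y0 E Q R F) {t : Hm}
    (ht : t ∈ Subgroup.closure {x0, y0}) : ∀ x, x ∉ F → t x = x := by
  induction ht using Subgroup.closure_induction with
  | mem g hg =>
    intro x hx
    rcases hg with rfl | rfl
    · exact hd.x0supp x hx
    · refine hd.y0supp x (fun h => hx ?_)
      rw [hd.F_eq]
      exact Or.inl (hd.RE h)
  | one => intro x _; rfl
  | mul g h _ _ hg hh =>
    intro x hx
    rw [mul_ap, hh x hx, hg x hx]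
  | inv g _ hg => exact supp_inv hg

/-- two elements act in a commuting way outside `W` -/
def OffComm (W : Set Cn) (a b : Hm) : Prop := ∀ w, w ∉ W → a (b w) = b (a w)

/-- `a` preserves the complement of `W` -/
def Pres (W : Set Cn) (a : Hm) : Prop := ∀ w, (w ∉ W ↔ a w ∉ W)

lemma pres_one (W : Set Cn) : Pres W 1 := fun _ => Iff.rfl

lemma pres_mul {W : Set Cn} {a b : Hm} (ha : Pres W a) (hb : Pres W b) : Pres W (a * b) :=
  fun w => (hb w).trans (ha (b w))

lemma pres_inv {W : Set Cn} {a : Hm} (ha : Pres W a) : Pres W a⁻¹ := by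
  intro w
  have := ha (a⁻¹ w)
  rw [ap_inv] at this
  exact this.symm

lemma pres_clos {W : Set Cn} {X Y : Hm} (hX : Pres W X) (hY : Pres W Y) {a : Hm}
    (ha : a ∈ Subgroup.closure {X, Y}) : Pres W a := by
  induction ha using Subgroup.closure_induction with
  | mem g hg => rcases hg with rfl | rfl <;> assumption
  | one => exact pres_one W
  | mul g h _ _ hg hh => exact pres_mul hg hh
  | inv g _ hg => exact pres_inv hg

lemma off_clos {W : Set Cn} {X Y b : Hm} (hX : Pres W X) (hY : Pres W Y)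
    (h1 : OffComm W X b) (h2 : OffComm W Y b) {a : Hm}
    (ha : a ∈ Subgroup.closure {X, Y}) : OffComm W a b := by
  induction ha using Subgroup.closure_induction with
  | mem g hg => rcases hg with rfl | rfl <;> assumption
  | one => intro w _; rfl
  | mul g h hgc hhc hg hh =>
    intro w hw
    rw [mul_ap, mul_ap, hh w hw, hg _ ((pres_clos hX hY hhc w).1 hw)]
  | inv g hgc hg =>
    intro w hw
    have hw' : g⁻¹ w ∉ W := (pres_inv (pres_clos hX hY hgc) w).1 hw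
    have := hg _ hw'
    rw [ap_inv] at this
    exact inv_of g this

lemma off_clos2 {W : Set Cn} {X Y : Hm} (hX : Pres W X) (hY : Pres W Y)
    (h : OffComm W X Y) {a b : Hm}
    (ha : a ∈ Subgroup.closure {X, Y}) (hb : b ∈ Subgroup.closure {X, Y}) : OffComm W a b := by
  have hYX : OffComm W Y X := fun w hw => (h w hw).symm
  have h1 : OffComm W X b := fun w hw =>
    (off_clos hX hY (fun _ _ => rfl) hYX hb w hw).symm
  have h2 : OffComm W Y b := fun w hw =>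
    (off_clos hX hY h (fun _ _ => rfl) hb w hw).symm
  exact off_clos hX hY h1 h2 ha

lemma cm_off {W : Set Cn} {a b : Hm} (ha : Pres W a) (hb : Pres W b) (h : OffComm W a b)
    {w : Cn} (hw : w ∉ W) : cm a b w = w := by
  show a (b (a⁻¹ (b⁻¹ w))) = w
  have hw1 : b⁻¹ w ∉ W := (pres_inv hb w).1 hw
  have hw2 : a⁻¹ (b⁻¹ w) ∉ W := (pres_inv ha _).1 hw1
  rw [h _ hw2, ap_inv, ap_inv]

/-- on the copies of `F` indexed by `J`, the element `a` acts as the copies of `t` -/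
def Act (J : Set ℕ) (z1 : Hm) (F : Set Cn) (a t : Hm) : Prop :=
  ∀ j ∈ J, ∀ f ∈ F, a ((z1 ^ (2 * j) : Hm) f) = (z1 ^ (2 * j) : Hm) (t f)

lemma act_one (J : Set ℕ) (z1 : Hm) (F : Set Cn) : Act J z1 F 1 1 := fun _ _ _ _ => rfl

lemma act_mul {J : Set ℕ} {z1 : Hm} {F : Set Cn} {a t b s : Hm} (h1 : Act J z1 F a t)
    (h2 : Act J z1 F b s) (hs : ∀ x, x ∉ F → s x = x) : Act J z1 F (a * b) (t * s) := by
  intro j hj f hf
  rw [mul_ap, mul_ap, h2 j hj f hf, h1 j hj _ (supp_maps hs hf)]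

lemma act_inv {J : Set ℕ} {z1 : Hm} {F : Set Cn} {a t : Hm} (h1 : Act J z1 F a t)
    (ht : ∀ x, x ∉ F → t x = x) : Act J z1 F a⁻¹ t⁻¹ := by
  intro j hj f hf
  have h2 := h1 j hj (t⁻¹ f) (supp_maps (supp_inv ht) hf)
  rw [ap_inv] at h2
  exact inv_of a h2

end TE1

theorem e_diag (hperf : C_perf) : E_diag := by
  intro G hv hs k c0 c1 n0 n1 z0 z1 δ x0 y0 E Q R F hd α hα J hadm
  obtain ⟨hJk, hJ, hR⟩ := hadm
  set L : Subgroup Hm := Subgroup.closure {α, z0 * z1} with hL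
  have hz : z0 ∈ Subgroup.closure {z0 * z1} ∧ z1 ∈ Subgroup.closure {z0 * z1} :=
    e_pow G k c0 c1 n0 n1 z0 z1 δ x0 y0 E Q R F hd
  have hle : Subgroup.closure {z0 * z1} ≤ L := Subgroup.closure_mono (by simp)
  have hz0 : z0 ∈ L := hle hz.1
  have hz1 : z1 ∈ L := hle hz.2
  have hαL : α ∈ L := Subgroup.subset_closure (by simp)
  set X : Hm := α * z0 ^ c0 * α⁻¹ with hX
  set Y : Hm := z1 ^ c1 with hY
  have hXL : X ∈ L := L.mul_mem (L.mul_mem hαL (L.pow_mem hz0 _)) (L.inv_mem hαL)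
  have hYL : Y ∈ L := L.pow_mem hz1 _
  set W : Set Cn := {w | ∃ j ∈ J, w ∈ im z1 (2 * j) F} with hW
  have hc1 : 4 * k + 4 ≤ c1 := hd.c1k
  -- action of `X`
  have hα1 : ∀ j ∈ J, ∀ f ∈ F, α ((z0 ^ j : Hm) (δ f)) = (z1 ^ (2 * j) : Hm) f := by
    intro j hj f hf
    rw [hJ j hj _ ⟨δ f, ⟨f, hf, rfl⟩, rfl⟩]
    show (z1 ^ (2 * j) : Hm) (δ⁻¹ ((z0 ^ j)⁻¹ ((z0 ^ j : Hm) (δ f)))) = _
    rw [inv_ap, inv_ap]
  have hXact : Act J z1 F X x0 := by
    intro j hj f hf
    show α ((z0 ^ c0 : Hm) (α⁻¹ ((z1 ^ (2 * j) : Hm) f))) = _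
    rw [inv_of α (hα1 j hj f hf), pow_comm_ap, hd.x0act f hf,
      hα1 j hj _ (supp_maps hd.x0supp hf)]
  have hyF : ∀ x, x ∉ F → y0 x = x := by
    intro x hx
    refine hd.y0supp x (fun h => hx ?_)
    rw [hd.F_eq]
    exact Or.inl (hd.RE h)
  have hYact : Act J z1 F Y y0 := by
    intro j hj f hf
    rw [hY, pow_comm_ap]
    congr 1
    rw [hd.F_eq] at hf
    rcases hf with hf | ⟨q, hq, rfl⟩
    · exact hd.y0act f hf
    · have h1 : (z1 ^ c1 : Hm) (z1 q) = z1 ((z1 ^ c1 : Hm) q) := by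
        have := pow_comm_ap z1 c1 1 q
        rwa [pow_one] at this
      have h2 : y0 q = q := hd.y0supp q (fun h => Set.disjoint_left.1 hd.QR hq h)
      have h3 : y0 (z1 q) = z1 q := by
        refine hd.y0supp _ (fun h => ?_)
        have h4 : z1 q ∈ im z1 0 E := ⟨z1 q, hd.RE h, rfl⟩
        have h5 : z1 q ∈ im z1 1 E := ⟨q, hd.QE hq, by rw [pow_one]⟩
        exact Set.disjoint_left.1 (hd.disj1 0 (by omega) 1 (by omega) (by norm_num)) h4 h5
      rw [h1, hd.y0act q (hd.QE hq), h2, h3]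
  have hpresOf : ∀ a t : Hm, Act J z1 F a t → (∀ x, x ∉ F → t x = x) → Pres W a := by
    intro a t hat ht w
    constructor
    · rintro hw ⟨j, hj, f, hf, hfw⟩
      apply hw
      refine ⟨j, hj, t⁻¹ f, supp_maps (supp_inv ht) hf, ?_⟩
      have h1 := hat j hj (t⁻¹ f) (supp_maps (supp_inv ht) hf)
      rw [ap_inv] at h1
      exact a.injective (h1.trans hfw)
    · rintro hw ⟨j, hj, f, hf, hfw⟩
      apply hw
      refine ⟨j, hj, t f, supp_maps ht hf, ?_⟩
      rw [← hat j hj f hf]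
      exact congrArg a hfw
  have hXp : Pres W X := hpresOf X x0 hXact hd.x0supp
  have hYp : Pres W Y := hpresOf Y y0 hYact hyF
  -- supports outside `W`
  have hXs : ∀ w, w ∉ W → X w ≠ w → ∀ m < c1, w ∉ im z1 m R := by
    intro w hw hXw m hm hwR
    have h1 : ∃ i < c0, α⁻¹ w ∈ im z0 i (δ '' F) := by
      rcases hd.cover (α⁻¹ w) with h | ⟨j, hj, h⟩
      · exact h
      · exfalso
        apply hXw
        show α ((z0 ^ c0 : Hm) (α⁻¹ w)) = w
        rw [fix_pow (hd.z0fix j hj _ h), ap_inv]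
    obtain ⟨i, hi, hiw⟩ := h1
    by_cases hiJ : i ∈ J
    · apply hw
      obtain ⟨_, ⟨f, hf, rfl⟩, hfw⟩ := hiw
      refine ⟨i, hiJ, f, hf, ?_⟩
      rw [← hα1 i hiJ f hf]
      show α ((z0 ^ i : Hm) (δ f)) = w
      have hfw' : (z0 ^ i : Hm) (δ f) = α⁻¹ w := hfw
      rw [hfw', ap_inv]
    · exact Set.disjoint_left.1 (hR i hi hiJ m hm) ⟨_, hiw, ap_inv α w⟩ hwR
  have hYs : ∀ w, Y w ≠ w → ∃ m < c1, w ∈ im z1 m R := by
    intro w hYw
    rcases hd.cover w with ⟨i, hi, h⟩ | ⟨m, hm, e, he, hew⟩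
    · exact absurd (fix_pow (hd.z1fix i hi w h) c1) hYw
    · refine ⟨m, hm, e, ?_, hew⟩
      by_contra heR
      apply hYw
      have hew' : (z1 ^ m : Hm) e = w := hew
      rw [← hew', hY, pow_comm_ap, hd.y0act e he, hd.y0supp e heR]
  have hoff : OffComm W X Y := by
    intro w hw
    have hfixY : ∀ w, w ∉ W → X w ≠ w → Y w = w := by
      intro w hw h
      by_contra hY'
      obtain ⟨m, hm, h'⟩ := hYs w hY'
      exact hXs w hw h m hm h'
    by_cases h1 : X w = w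
    · rw [h1]
      by_cases h2 : X (Y w) = Y w
      · exact h2
      · have h3 := hfixY _ ((hYp w).1 hw) h2
        have h4 : Y w = w := Y.injective h3
        rw [h4, h1]
    · have h2 : Y w = w := hfixY w hw h1
      have h3 : X (X w) ≠ X w := fun h => h1 (X.injective h)
      rw [h2, hfixY _ ((hXp w).1 hw) h3]
  -- lifts of the elements of `⟨x0, y0⟩`
  have hXYL : Subgroup.closure {X, Y} ≤ L := by
    rw [Subgroup.closure_le]
    rintro g (rfl | rfl)
    · exact hXL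
    · exact hYL
  have hlift : ∀ t ∈ Subgroup.closure {x0, y0}, ∃ a ∈ Subgroup.closure {X, Y},
      Act J z1 F a t := by
    intro t ht
    induction ht using Subgroup.closure_induction with
    | mem g hg =>
      rcases hg with rfl | rfl
      · exact ⟨X, Subgroup.subset_closure (by simp), hXact⟩
      · exact ⟨Y, Subgroup.subset_closure (by simp), hYact⟩
    | one => exact ⟨1, Subgroup.one_mem _, act_one _ _ _⟩
    | mul g h hgc hhc hg hh =>
      obtain ⟨a, ha, ha'⟩ := hg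
      obtain ⟨b, hb, hb'⟩ := hh
      exact ⟨a * b, Subgroup.mul_mem _ ha hb, act_mul ha' hb' (clos_supp hd hhc)⟩
    | inv g hgc hg =>
      obtain ⟨a, ha, ha'⟩ := hg
      exact ⟨a⁻¹, Subgroup.inv_mem _ ha, act_inv ha' (clos_supp hd hgc)⟩
  -- the commutators
  have htri : ∀ s ∈ TriSet G F, s ∈ Subgroup.closure {x0, y0} := fun s hs' =>
    hd.gen (Subgroup.subset_closure hs')
  have key : ∀ t ∈ Alt G F, (∀ x, x ∉ F → t x = x) ∧ ∃ a ∈ L, Act J z1 F a t ∧
      ∀ w, w ∉ W → a w = w := by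
    intro t ht
    have hclF : IsClopen F := by
      rw [hd.F_eq]
      exact hd.clE.union ⟨z1.isClosedMap _ hd.clQ.1, z1.isOpenMap _ hd.clQ.2⟩
    have ht' := hperf G hv hs F hclF ht
    clear ht
    induction ht' using Subgroup.closure_induction with
    | mem g hg =>
      obtain ⟨s, hs1, t, ht1, rfl⟩ := hg
      obtain ⟨a, ha, ha'⟩ := hlift s (htri s hs1)
      obtain ⟨b, hb, hb'⟩ := hlift t (htri t ht1)
      have hs2 := clos_supp hd (htri s hs1)
      have ht2 := clos_supp hd (htri t ht1)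
      refine ⟨?_, cm a b, ?_, ?_, ?_⟩
      · intro x hx
        show s (t (s⁻¹ (t⁻¹ x))) = x
        rw [supp_inv ht2 x hx, supp_inv hs2 x hx, ht2 x hx, hs2 x hx]
      · exact L.mul_mem (L.mul_mem (L.mul_mem (hXYL ha) (hXYL hb)) (L.inv_mem (hXYL ha)))
          (L.inv_mem (hXYL hb))
      · exact act_mul (act_mul (act_mul ha' hb' ht2) (act_inv ha' hs2) (supp_inv hs2))
          (act_inv hb' ht2) (supp_inv ht2)
      · intro w hw
        exact cm_off (pres_clos hXp hYp ha) (pres_clos hXp hYp hb)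
          (off_clos2 hXp hYp hoff ha hb) hw
    | one => exact ⟨fun _ _ => rfl, 1, L.one_mem, act_one _ _ _, fun _ _ => rfl⟩
    | mul g h _ _ hg hh =>
      obtain ⟨hg1, a, ha, ha', ha''⟩ := hg
      obtain ⟨hh1, b, hb, hb', hb''⟩ := hh
      refine ⟨fun x hx => by rw [mul_ap, hh1 x hx, hg1 x hx], a * b, L.mul_mem ha hb,
        act_mul ha' hb' hh1, fun w hw => by rw [mul_ap, hb'' w hw, ha'' w hw]⟩
    | inv g _ hg =>
      obtain ⟨hg1, a, ha, ha', ha''⟩ := hg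
      exact ⟨supp_inv hg1, a⁻¹, L.inv_mem ha, act_inv ha' hg1, fun w hw => fix_inv (ha'' w hw)⟩
  intro t ht
  obtain ⟨-, a, ha, ha', ha''⟩ := key t ht
  refine ⟨a, ha, ?_, fun w hw => ha'' w ?_⟩
  · rintro j hj w ⟨f, hf, rfl⟩
    show a ((z1 ^ (2 * j) : Hm) f) = (z1 ^ (2 * j) : Hm) (t ((z1 ^ (2 * j))⁻¹
      ((z1 ^ (2 * j) : Hm) f)))
    rw [inv_ap, ha' j hj f hf]
  · rintro ⟨j, hj, hjw⟩
    exact hw j hj hjw

end Pool.Agent.Helper106.VG
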