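import Pool.Agent.Helper106.VG.Defs

/-!
# Vigorous groups: the statements of the tasks
-/

set_option autoImplicit false

namespace Pool.Agent.Helper106.VG

open Filter Topology

/-- clopen induction -/
def A_ci : Prop :=
  ∀ P : Set Cn → Prop, P ∅ →
    (∀ U V, IsClopen U → IsClopen V → Disjoint U V → P U → P V → P (U ∪ V)) →
    (∀ x, ∃ O, IsClopen O ∧ x ∈ O ∧ ∀ V, IsClopen V → V ⊆ O → P V) →
    ∀ V, IsClopen V → P V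

/-- every nonempty open set contains, outside any given finite set, a point together with arbitrarily
small clopen neighbourhoods -/
def A_room : Prop :=
  ∀ (T : Set Cn) (S : Set Cn), IsOpen T → T.Nonempty → S.Finite →
    ∃ x ∈ T, x ∉ S ∧ ∃ O, IsClopen O ∧ x ∈ O ∧ O ⊆ T ∧ Disjoint O S ∧ O ≠ T

def B_img : Prop :=
  ∀ (G : Subgroup Hm) (f : Cn → Cn) (U : Set Cn), Loc G f U → IsClopen U → IsClopen (f '' U)

def B_inv : Prop :=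
  ∀ (G : Subgroup Hm) (f : Cn → Cn) (U : Set Cn), Loc G f U → IsClopen U → Set.InjOn f U →
    Loc G (Function.invFunOn f U) (f '' U)

def B_comp : Prop :=
  ∀ (G : Subgroup Hm) (f g : Cn → Cn) (U : Set Cn), Loc G f U → Loc G g (f '' U) →
    Loc G (g ∘ f) U

def B_ite : Prop :=
  ∀ (G : Subgroup Hm) (f g : Cn → Cn) (U E : Set Cn) [∀ x, Decidable (x ∈ E)], IsClopen E →
    Loc G f (U ∩ E) → Loc G g (U \ E) → Loc G (fun x => if x ∈ E then f x else g x) U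

/-- vigorous groups move points inside clopen sets -/
def B_move : Prop :=
  ∀ G : Subgroup Hm, Vigorous G → ∀ (A : Set Cn) (x : Cn), IsClopen A → x ∈ A →
    ∃ c ∈ G, c x ≠ x ∧ ∀ y, y ∉ A → c y = y

/-- copies of a clopen set `≠ univ` inside a nonempty clopen set -/
def B_small : Prop :=
  ∀ G : Subgroup Hm, Vigorous G → ∀ (n : ℕ) (B T : Set Cn), IsClopen B → B ≠ Set.univ →
    IsClopen T → T.Nonempty →
    ∃ c : ℕ → Hm, (∀ i, c i ∈ G) ∧ (∀ i < n, c i '' B ⊆ T) ∧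
      (∀ i < n, ∀ j < n, i ≠ j → Disjoint (c i '' B) (c j '' B)) ∧ (⋃ i < n, c i '' B) ≠ T

def C_germ : Prop :=
  ∀ G : Subgroup Hm, Vigorous G → IsSimpleGroup G → ∀ g ∈ G, ∀ (x : Cn) (T : Set Cn),
    IsClopen T → T.Nonempty →
    ∃ g' ∈ G, (∀ᶠ y in 𝓝 x, g' y = g y) ∧
      ∃ T' ⊆ T, IsClopen T' ∧ T'.Nonempty ∧ ∀ y ∈ T', g' y = y

/-- the commutator of two homeomorphisms whose supports meet only in `U` -/
def C_comm : Prop :=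
  ∀ (U : Set Cn) (s t : Hm), (∀ y, y ∉ U → s y = y ∨ t y = y) → Disjoint U (s '' U) →
    Disjoint U (t '' U) →
    (∀ z ∈ U, cm s t z = s z) ∧ (∀ z ∈ U, cm s t (s z) = t z) ∧ (∀ z ∈ U, cm s t (t z) = z) ∧
      ∀ y, y ∉ U → y ∉ s '' U → y ∉ t '' U → cm s t y = y

def C_tri : Prop :=
  ∀ G : Subgroup Hm, Vigorous G → IsSimpleGroup G → ∀ (D : Set Cn) (e : ℕ → Cn → Cn),
    CycD G 3 D e → ∃ t ∈ G, IsCyc t 3 D e

def C_top : Prop :=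
  ∀ G : Subgroup Hm, Vigorous G → IsSimpleGroup G → Alt G Set.univ = G

def C_supp : Prop :=
  ∀ (G : Subgroup Hm) (A : Set Cn) (t : Hm), t ∈ Alt G A → ∀ x, x ∉ A → t x = x

def C_conj : Prop :=
  ∀ (G : Subgroup Hm) (A : Set Cn) (g t : Hm), g ∈ G → t ∈ Alt G A →
    g * t * g⁻¹ ∈ Alt G (g '' A)

def C_ext : Prop :=
  ∀ G : Subgroup Hm, Vigorous G → IsSimpleGroup G → ∀ (A Z : Set Cn) (f : Cn → Cn),
    IsClopen A → IsClopen Z → Z ⊂ A → Loc G f Z → Set.InjOn f Z → f '' Z ⊂ A →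
    ∃ t ∈ Alt G A, ∀ z ∈ Z, t z = f z

def C_union : Prop :=
  ∀ G : Subgroup Hm, Vigorous G → IsSimpleGroup G → ∀ A B : Set Cn, IsClopen A → IsClopen B →
    (A ∩ B).Nonempty → Alt G (A ∪ B) ≤ Alt G A ⊔ Alt G B

def C_perf : Prop :=
  ∀ G : Subgroup Hm, Vigorous G → IsSimpleGroup G → ∀ A : Set Cn, IsClopen A →
    Alt G A ≤ Subgroup.closure {r | ∃ s ∈ TriSet G A, ∃ t ∈ TriSet G A, r = cm s t}

def C_cyc : Prop :=
  ∀ G : Subgroup Hm, Vigorous G → IsSimpleGroup G → ∀ (n : ℕ) (A D : Set Cn) (e : ℕ → Cn → Cn),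
    Odd n → CycD G n D e → (∀ i < n, e i '' D ⊆ A) → ∃ t ∈ Alt G A, IsCyc t n D e

def C_copy : Prop :=
  ∀ G : Subgroup Hm, Vigorous G → IsSimpleGroup G → ∀ h : Cn → Cn, Loc G h Set.univ →
    Function.Injective h →
    (∀ t ∈ TriSet G Set.univ, ∃ t' ∈ TriSet G (Set.range h), Cpy h t t') ∧
    ∀ (S : Set Hm) (L : Subgroup Hm), Subgroup.closure S = G →
      (∀ s ∈ S, ∃ s' ∈ L, Cpy h s s') → Alt G (Set.range h) ≤ L

def C_compress : Prop :=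
  ∀ G : Subgroup Hm, Vigorous G → ∀ (n : ℕ) (T : Set Cn), IsClopen T → T.Nonempty →
    ∃ h : ℕ → Cn → Cn, (∀ i < n, Loc G (h i) Set.univ ∧ Function.Injective (h i) ∧
        Set.range (h i) ⊆ T) ∧
      (∀ i < n, ∀ j < n, i ≠ j → Disjoint (Set.range (h i)) (Set.range (h j))) ∧
      (T \ ⋃ i < n, Set.range (h i)).Nonempty

def C_fg : Prop :=
  ∀ G : Subgroup Hm, Vigorous G → IsSimpleGroup G → Group.FG G →
    ∃ (n : ℕ) (u v : ℕ → Hm), (∀ i < n, u i ∈ TriSet G Set.univ ∧ v i ∈ TriSet G Set.univ) ∧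
      Subgroup.closure {r | ∃ i < n, r = cm (u i) (v i)} = G

def D_pair : Prop :=
  ∀ G : Subgroup Hm, Vigorous G → IsSimpleGroup G → ∀ (n : ℕ) (u v : ℕ → Hm),
    (∀ i < n, u i ∈ TriSet G Set.univ ∧ v i ∈ TriSet G Set.univ) →
    ∀ (F : Set Cn) (N : ℕ) (h : ℕ → Cn → Cn), Odd N → 2 ^ (2 * n + 3) + 6 < N → Blocks G F N h →
    ∃ x y1 l l5 : Hm, GPair G n u v F N h x y1 l l5

def D_gen : Prop :=
  ∀ G : Subgroup Hm, Vigorous G → IsSimpleGroup G → ∀ (n : ℕ) (u v : ℕ → Hm),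
    (∀ i < n, u i ∈ TriSet G Set.univ ∧ v i ∈ TriSet G Set.univ) →
    Subgroup.closure {r | ∃ i < n, r = cm (u i) (v i)} = G →
    ∀ (F : Set Cn) (N : ℕ) (h : ℕ → Cn → Cn), 2 ^ (2 * n + 3) + 6 < N → Blocks G F N h →
    ∀ x y1 l l5 : Hm, GPair G n u v F N h x y1 l l5 →
      Alt G F ≤ Subgroup.closure {x, y1 * l5}

def D_two : Prop :=
  ∀ G : Subgroup Hm, Vigorous G → IsSimpleGroup G → Group.FG G → ∃ M : ℕ, 6 ≤ M ∧
    ∀ (F : Set Cn) (N : ℕ) (h : ℕ → Cn → Cn), Odd N → M < N → Blocks G F N h →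
    ∃ x ∈ Alt G F, ∃ y ∈ Alt G F, x ^ N = 1 ∧ y ^ 15 = 1 ∧
      (∀ z, (z ∉ F ∨ ∃ a < N, N - 6 ≤ a ∧ z ∈ Set.range (h a)) → y z = z) ∧
      Alt G F ≤ Subgroup.closure {x, y}

def D_geo : Prop :=
  ∀ G : Subgroup Hm, Vigorous G → ∀ c0 c1 N : ℕ, 1 ≤ c0 → c1 + 1 = 2 * c0 → 2 ≤ c1 → 6 < N →
    ∃ (E Q F : Set Cn) (h a b : ℕ → Cn → Cn), Geo G c0 c1 N E Q F h a b

def D_design : Prop :=
  ∀ G : Subgroup Hm, Vigorous G → IsSimpleGroup G → Group.FG G → ∀ k : ℕ,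
    ∃ (c0 c1 n0 n1 : ℕ) (z0 z1 δ x0 y0 : Hm) (E Q R F : Set Cn),
      Design G k c0 c1 n0 n1 z0 z1 δ x0 y0 E Q R F

def E_pow : Prop :=
  ∀ (G : Subgroup Hm) (k c0 c1 n0 n1 : ℕ) (z0 z1 δ x0 y0 : Hm) (E Q R F : Set Cn),
    Design G k c0 c1 n0 n1 z0 z1 δ x0 y0 E Q R F →
    z0 ∈ Subgroup.closure {z0 * z1} ∧ z1 ∈ Subgroup.closure {z0 * z1}

def E_diag : Prop :=
  ∀ G : Subgroup Hm, Vigorous G → IsSimpleGroup G → ∀ (k c0 c1 n0 n1 : ℕ)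
    (z0 z1 δ x0 y0 : Hm) (E Q R F : Set Cn), Design G k c0 c1 n0 n1 z0 z1 δ x0 y0 E Q R F →
    ∀ α ∈ G, ∀ J : Set ℕ, Adm k c0 c1 z0 z1 δ R F α J → ∀ t ∈ Alt G F,
      ∃ a ∈ Subgroup.closure {α, z0 * z1},
        (∀ j ∈ J, ∀ w ∈ im z1 (2 * j) F, a w = (z1 ^ (2 * j) * t * (z1 ^ (2 * j))⁻¹ : Hm) w) ∧
        ∀ w, (∀ j ∈ J, w ∉ im z1 (2 * j) F) → a w = w

def E_one : Prop :=
  ∀ G : Subgroup Hm, Vigorous G → IsSimpleGroup G → ∀ (k c0 c1 n0 n1 : ℕ)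
    (z0 z1 δ x0 y0 : Hm) (E Q R F : Set Cn), Design G k c0 c1 n0 n1 z0 z1 δ x0 y0 E Q R F →
    ∀ α ∈ G, ∀ J : Set ℕ, J.Nonempty → Adm k c0 c1 z0 z1 δ R F α J →
      Alt G F ≤ Subgroup.closure {α, z0 * z1}

def E_link : Prop :=
  ∀ G : Subgroup Hm, Vigorous G → IsSimpleGroup G → ∀ (k c0 c1 n0 n1 : ℕ)
    (z0 z1 δ x0 y0 : Hm) (E Q R F : Set Cn), Design G k c0 c1 n0 n1 z0 z1 δ x0 y0 E Q R F →
    ∀ α ∈ G, ∀ J : Set ℕ, J.Nonempty → Adm k c0 c1 z0 z1 δ R F α J →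
      Alt G F ≤ Subgroup.closure {α, z0 * z1} → G ≤ Subgroup.closure {α, z0 * z1}

def E_place : Prop :=
  ∀ G : Subgroup Hm, Vigorous G → IsSimpleGroup G → ∀ (k c0 c1 n0 n1 : ℕ)
    (z0 z1 δ x0 y0 : Hm) (E Q R F : Set Cn), Design G k c0 c1 n0 n1 z0 z1 δ x0 y0 E Q R F →
    ∀ α : Fin k → Hm, (∀ i, α i ∈ G) → (∀ i, α i ≠ 1) →
      ∃ γ ∈ G, ∀ i : Fin k, ∃ J : Set ℕ, (i : ℕ) ∈ J ∧
        Adm k c0 c1 z0 z1 δ R F (γ⁻¹ * α i * γ) J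

end Pool.Agent.Helper106.VG
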